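import Pool.Agent.Lib.Rdv.Basic

namespace Pool.Agent.Rdv

open Equiv

theorem awProb_map (n : ℕ) (p : ℝ) (σ : Perm (Fin n)) (l : List (Fin n)) (a : Fin n) :
    awProb n p (l.map σ) (σ a) = awProb n p l a := by
  cases l with
  | nil => rfl
  | cons c l =>
    simp only [List.map_cons, awProb, List.length_map]
    have hv : ∀ k, (σ c :: l.map σ).take k = ((c :: l).take k).map σ := by
      intro k; rw [← List.map_cons, List.map_take]
    simp only [hv]
    set v := (c :: l).take (l.length % (n - 1) + 1) with hvdef
    have h1 : (σ a = σ c) = (a = c) := by simp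
    have h2 : (∀ b ∈ v.map σ, b = σ c) = (∀ b ∈ v, b = c) := by simp
    have h3 : (σ a ∈ v.map σ) = (a ∈ v) := by simp
    have h4 : (v.map σ).toFinset.card = v.toFinset.card := by
      rw [← Finset.card_map σ.toEmbedding (s := v.toFinset)]
      congr 1
      ext x
      simp only [List.mem_toFinset, List.mem_map, Finset.mem_map, Equiv.coe_toEmbedding]
    simp only [h1, h2, h3, h4]

theorem awProb_trunc (N : ℕ) (p : ℝ) (v : List (Fin (N + 1))) (b : Fin (N + 1))
    (l' : List (Fin (N + 1))) (hl : l'.length % N = 0) (a : Fin (N + 1)) :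
    awProb (N + 1) p (v ++ b :: l') a = awProb (N + 1) p (v ++ [b]) a := by
  cases v with
  | nil => simp [awProb, hl]
  | cons c v =>
    have hlen : (v ++ b :: l').length % N = (v ++ [b]).length % N := by
      simp only [List.length_append, List.length_cons, List.length_nil]
      rw [show v.length + (l'.length + 1) = (v.length + (0 + 1)) + l'.length by ring]
      rw [Nat.add_mod, hl]; simp
    have htake : (c :: (v ++ b :: l')).take ((v ++ [b]).length % N + 1) =
        (c :: (v ++ [b])).take ((v ++ [b]).length % N + 1) := by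
      have h1 : (v ++ [b]).length % N ≤ (v ++ [b]).length := Nat.mod_le _ _
      generalize (v ++ [b]).length % N = k at h1
      simp only [List.take_succ_cons]
      congr 1
      rw [show v ++ b :: l' = (v ++ [b]) ++ l' by simp]
      rw [List.take_append_of_le_length h1]
    simp only [List.cons_append, awProb, Nat.add_sub_cancel, hlen, htake]

theorem awProb_start (N : ℕ) (p : ℝ) (b a : Fin (N + 1)) :
    awProb (N + 1) p [b] a = if a = b then 1 - p else p / N := by
  simp [awProb]

theorem awProb_stay (N : ℕ) (p : ℝ) (b a : Fin (N + 1)) (j : ℕ) (h1 : 1 ≤ j) (h2 : j < N) :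
    awProb (N + 1) p (List.replicate (j + 1) b) a = if a = b then 1 else 0 := by
  rw [List.replicate_succ]
  simp only [awProb, List.length_replicate, Nat.add_sub_cancel, Nat.mod_eq_of_lt h2]
  rw [if_neg (by omega), if_pos]
  intro x hx
  have hx' := List.mem_of_mem_take hx
  rw [← List.replicate_succ] at hx'
  exact List.eq_of_mem_replicate hx'

/-- The index `i` as an element of `Fin (N + 1)`. -/
def ix (N : ℕ) (i : ℕ) : Fin (N + 1) := Fin.ofNat (N + 1) i

theorem ix_val {N i : ℕ} (h : i ≤ N) : (ix N i).val = i := by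
  simp [ix, Fin.ofNat, Nat.mod_eq_of_lt (Nat.lt_succ_of_le h)]

theorem ix_eq {N : ℕ} (a : Fin (N + 1)) : ix N a.val = a := by
  apply Fin.ext
  rw [ix_val (Nat.lt_succ_iff.mp a.isLt)]

/-- The touring history `[y j, ..., y 1, y 0]`. -/
def hist {N : ℕ} (y : Perm (Fin (N + 1))) : ℕ → List (Fin (N + 1))
  | 0 => [y 0]
  | j + 1 => y (ix N (j + 1)) :: hist y j

theorem hist_length {N : ℕ} (y : Perm (Fin (N + 1))) (j : ℕ) : (hist y j).length = j + 1 := by
  induction j with
  | zero => rfl
  | succ j ih => simp [hist, ih]

theorem mem_hist {N : ℕ} (y : Perm (Fin (N + 1))) (b : Fin (N + 1)) (j : ℕ) (hj : j ≤ N) :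
    b ∈ hist y j ↔ (y.symm b).val ≤ j := by
  induction j with
  | zero =>
    simp only [hist, List.mem_singleton, Nat.le_zero]
    constructor
    · rintro rfl; simp
    · intro h
      have : y.symm b = 0 := Fin.ext h
      rw [← this]; simp
  | succ j ih =>
    simp only [hist, List.mem_cons, ih (by omega)]
    constructor
    · rintro (rfl | h)
      · rw [Equiv.symm_apply_apply, ix_val (by omega)]
      · omega
    · intro h
      by_cases h2 : (y.symm b).val ≤ j
      · exact Or.inr h2
      · left
        have h3 : (y.symm b).val = j + 1 := by omega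
        rw [← h3, ix_eq]; simp

theorem hist_toFinset_card {N : ℕ} (y : Perm (Fin (N + 1))) (j : ℕ) (hj : j ≤ N) :
    (hist y j).toFinset.card = j + 1 := by
  induction j with
  | zero => simp [hist]
  | succ j ih =>
    simp only [hist, List.toFinset_cons]
    rw [Finset.card_insert_of_notMem, ih (by omega)]
    rw [List.mem_toFinset, mem_hist _ _ _ (by omega), Equiv.symm_apply_apply,
      ix_val (by omega)]
    omega

theorem hist_congr {N : ℕ} (y y' : Perm (Fin (N + 1))) (j : ℕ) (hj : j ≤ N)
    (h : ∀ i : Fin (N + 1), i.val ≤ j → y i = y' i) : hist y j = hist y' j := by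
  induction j with
  | zero => simp [hist, h 0]
  | succ j ih =>
    simp only [hist]
    rw [ih (by omega) (fun i hi => h i (by omega)), h]
    rw [ix_val (by omega)]

theorem awProb_tour (N : ℕ) (p : ℝ) (y : Perm (Fin (N + 1))) (a : Fin (N + 1)) (j : ℕ)
    (h1 : 1 ≤ j) (h2 : j < N) :
    awProb (N + 1) p (hist y j) a = if a ∈ hist y j then 0 else 1 / ((N : ℝ) - j) := by
  obtain ⟨j, rfl⟩ : ∃ k, j = k + 1 := ⟨j - 1, by omega⟩
  have hmod : (hist y j).length % N = j + 1 := by
    rw [hist_length, Nat.mod_eq_of_lt h2]
  have htake : (y (ix N (j + 1)) :: hist y j).take (j + 1 + 1) = hist y (j + 1) := by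
    rw [List.take_of_length_le]
    · rfl
    · simp [hist_length]
  conv_lhs => unfold hist
  simp only [awProb, Nat.add_sub_cancel, hmod, htake]
  rw [if_neg (by omega), if_neg, hist_toFinset_card _ _ (by omega)]
  · congr 2
    push_cast; ring
  · intro h
    have h3 : y 0 ∈ hist y (j + 1) := by
      rw [mem_hist _ _ _ (by omega)]; simp
    have h4 := h _ h3
    have h5 := y.injective h4
    have h6 := congrArg Fin.val h5
    rw [ix_val (by omega)] at h6
    simp at h6

end Pool.Agent.Rdv
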