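import Pool.Agent.Lib.Rdv.AWFacts

namespace Pool.Agent.Rdv

open Equiv

/-- The expected value of `ψ (final history)` on the event that a player with history `l` who
follows the rule `r` avoids the successive locations in `q`. -/
noncomputable def av {n : ℕ} (r : List (Fin n) → Fin n → ℝ) (ψ : List (Fin n) → ℝ) :
    List (Fin n) → List (Fin n) → ℝ
  | [], l => ψ l
  | c :: q, l => ∑ b, if b = c then 0 else r l b * av r ψ q (b :: l)

/-- `av` for the Anderson-Weber rule and `ψ = 1`. -/
noncomputable abbrev avo (N : ℕ) (p : ℝ) : List (Fin (N + 1)) → List (Fin (N + 1)) → ℝ :=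
  av (awProb (N + 1) p) (fun _ => 1)

theorem avo_map {N : ℕ} (p : ℝ) (σ : Perm (Fin (N + 1))) (q l : List (Fin (N + 1))) :
    avo N p (q.map σ) (l.map σ) = avo N p q l := by
  induction q generalizing l with
  | nil => rfl
  | cons c q ih =>
    simp only [List.map_cons, av]
    rw [← Equiv.sum_comp σ]
    refine Finset.sum_congr rfl fun b _ => ?_
    rw [awProb_map, ← List.map_cons]
    have := ih (b :: l)
    simp only [avo] at this
    rw [this]
    simp

theorem avo_trunc {N : ℕ} (p : ℝ) (q v : List (Fin (N + 1))) (b : Fin (N + 1))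
    (l' : List (Fin (N + 1))) (hl : l'.length % N = 0) :
    avo N p q (v ++ b :: l') = avo N p q (v ++ [b]) := by
  induction q generalizing v with
  | nil => rfl
  | cons c q ih =>
    simp only [av]
    refine Finset.sum_congr rfl fun a _ => ?_
    rw [awProb_trunc N p v b l' hl]
    have := ih (a :: v)
    simp only [avo, List.cons_append] at this
    rw [this]

theorem avo_hist {N : ℕ} (p : ℝ) (q : List (Fin (N + 1))) (y : Perm (Fin (N + 1))) (hN : 1 ≤ N) :
    avo N p q (hist y N) = avo N p q [y (Fin.last N)] := by
  obtain ⟨M, rfl⟩ : ∃ M, N = M + 1 := ⟨N - 1, by omega⟩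
  have h1 : hist y (M + 1) = [] ++ y (ix (M + 1) (M + 1)) :: hist y M := rfl
  rw [h1, avo_trunc _ _ _ _ _ (by rw [hist_length]; simp)]
  have h2 : ix (M + 1) (M + 1) = Fin.last (M + 1) := by
    apply Fin.ext; rw [ix_val (by omega)]; rfl
  rw [h2]; rfl

/-- `[e (j+1), ..., e (j+k)]` -/
def seg {N : ℕ} (e : Perm (Fin (N + 1))) : ℕ → ℕ → List (Fin (N + 1))
  | _, 0 => []
  | j, k + 1 => e (ix N (j + 1)) :: seg e (j + 1) k

theorem seg_length {N : ℕ} (e : Perm (Fin (N + 1))) (j k : ℕ) : (seg e j k).length = k := by
  induction k generalizing j with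
  | zero => rfl
  | succ k ih => simp [seg, ih]

theorem seg_map {N : ℕ} (σ e : Perm (Fin (N + 1))) (j k : ℕ) :
    (seg e j k).map σ = seg (σ * e) j k := by
  induction k generalizing j with
  | zero => rfl
  | succ k ih => simp [seg, ih]

theorem mem_seg {N : ℕ} (e : Perm (Fin (N + 1))) (j k : ℕ) (h : j + k ≤ N) (b : Fin (N + 1)) :
    b ∈ seg e j k ↔ j < (e.symm b).val ∧ (e.symm b).val ≤ j + k := by
  induction k generalizing j with
  | zero => simp [seg]
  | succ k ih =>
    simp only [seg, List.mem_cons, ih (j + 1) (by omega)]
    constructor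
    · rintro (rfl | h1)
      · rw [Equiv.symm_apply_apply, ix_val (by omega)]; omega
      · omega
    · intro h1
      by_cases h2 : (e.symm b).val = j + 1
      · left; rw [← h2, ix_eq]; simp
      · right; omega

theorem av_stay {N : ℕ} (p : ℝ) (q : List (Fin (N + 1))) (b : Fin (N + 1))
    (ψ : List (Fin (N + 1)) → ℝ)
    (r : List (Fin (N + 1))) (j : ℕ) (h1 : 1 ≤ j) (h2 : j + r.length ≤ N) (hb : b ∈ r) :
    av (awProb (N + 1) p) ψ (r ++ q) (List.replicate (j + 1) b) = 0 := by
  induction r generalizing j with
  | nil => simp at hb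
  | cons c r ih =>
    simp only [List.cons_append, av]
    simp only [List.length_cons] at h2
    refine Finset.sum_eq_zero fun a _ => ?_
    rw [awProb_stay N p b a j h1 (by omega)]
    split_ifs with h3 h4
    · rfl
    · subst h4
      have h5 : a ∈ r := by
        rcases List.mem_cons.mp hb with h6 | h6
        · exact absurd h6 h3
        · exact h6
      have := ih (j + 1) (by omega) (by omega) h5
      rw [List.replicate_succ] at this
      rw [this, mul_zero]
    · simp

/-- The touring part of a block. -/
theorem av_tour {N : ℕ} (p : ℝ) (e : Perm (Fin (N + 1))) (q : List (Fin (N + 1))) (k : ℕ) :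
    ∀ (j : ℕ) (y : Perm (Fin (N + 1))), j + k = N → 1 ≤ j →
    avo N p (seg e j k ++ q) (hist y j) = (1 / (k.factorial : ℝ)) *
      ∑ y' : Perm (Fin (N + 1)), if (∀ i, i.val ≤ j → y' i = y i) ∧ (∀ i, j < i.val → y' i ≠ e i)
        then avo N p q [y' (Fin.last N)] else 0 := by
  induction k with
  | zero =>
    intro j y hj h1
    simp only [add_zero] at hj
    subst hj
    simp only [seg, List.nil_append, Nat.factorial_zero, Nat.cast_one, div_one, one_mul]
    rw [Finset.sum_eq_single y, if_pos, avo_hist p q y h1]
    · exact ⟨fun i _ => rfl, fun i hi => absurd i.isLt (by omega)⟩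
    · intro y' _ hy'
      rw [if_neg]
      rintro ⟨h2, -⟩
      exact hy' (Equiv.ext fun i => h2 i (by have := i.isLt; omega))
    · intro h; exact absurd (Finset.mem_univ _) h
  | succ k ih =>
    intro j y hj h1
    have hNj : ((N : ℝ) - j) = (k : ℝ) + 1 := by
      rw [← hj]; push_cast; ring
    simp only [seg, List.cons_append, av]
    have step : ∀ b : Fin (N + 1), (if b = e (ix N (j + 1)) then (0 : ℝ) else
        awProb (N + 1) p (hist y j) b * av (awProb (N + 1) p) (fun _ => 1)
          (seg e (j + 1) k ++ q) (b :: hist y j)) =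
        ∑ y' : Perm (Fin (N + 1)), if b = y' (ix N (j + 1)) then
          ((1 / ((k + 1).factorial : ℝ)) *
            if (∀ i, i.val ≤ j → y' i = y i) ∧ (∀ i, j < i.val → y' i ≠ e i)
              then avo N p q [y' (Fin.last N)] else 0) else 0 := by
      intro b
      by_cases hbe : b = e (ix N (j + 1))
      · rw [if_pos hbe]
        symm
        refine Finset.sum_eq_zero fun y' _ => ?_
        split_ifs with h2 h3
        · exfalso
          exact h3.2 (ix N (j + 1)) (by rw [ix_val (by omega)]; omega) (h2 ▸ hbe)
        · simp
        · rfl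
      rw [if_neg hbe, awProb_tour N p y b j h1 (by omega)]
      by_cases hbh : b ∈ hist y j
      · rw [if_pos hbh, zero_mul]
        symm
        refine Finset.sum_eq_zero fun y' _ => ?_
        split_ifs with h2 h3
        · exfalso
          rw [mem_hist _ _ _ (by omega)] at hbh
          have h4 := h3.1 (y.symm b) hbh
          rw [Equiv.apply_symm_apply] at h4
          have h5 := y'.injective (h4.trans h2)
          rw [h5, ix_val (by omega)] at hbh
          omega
        · simp
        · rfl
      · rw [if_neg hbh]
        have hbh' := hbh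
        rw [mem_hist _ _ _ (by omega), not_le] at hbh'
        set y₁ : Perm (Fin (N + 1)) := Equiv.swap (y (ix N (j + 1))) b * y with hy₁
        have h2 : ∀ i : Fin (N + 1), i.val ≤ j → y₁ i = y i := by
          intro i hi
          rw [hy₁, Equiv.Perm.mul_apply, Equiv.swap_apply_of_ne_of_ne]
          · intro h3
            have := y.injective h3
            rw [this, ix_val (by omega)] at hi
            omega
          · intro h3
            rw [← h3, Equiv.symm_apply_apply] at hbh'
            omega
        have h3 : y₁ (ix N (j + 1)) = b := by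
          rw [hy₁, Equiv.Perm.mul_apply, Equiv.swap_apply_left]
        have h4 : b :: hist y j = hist y₁ (j + 1) := by
          rw [hist, h3, hist_congr y y₁ j (by omega) fun i hi => (h2 i hi).symm]
        have h5 := ih (j + 1) y₁ (by omega) (by omega)
        simp only [avo] at h5
        rw [h4, h5, hNj, ← mul_assoc, Finset.mul_sum]
        refine Finset.sum_congr rfl fun y' _ => ?_
        by_cases hb : b = y' (ix N (j + 1))
        · rw [if_pos hb]
          have h6 : ((∀ i : Fin (N + 1), i.val ≤ j + 1 → y' i = y₁ i) ∧
              (∀ i : Fin (N + 1), j + 1 < i.val → y' i ≠ e i)) ↔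
              ((∀ i : Fin (N + 1), i.val ≤ j → y' i = y i) ∧
              (∀ i : Fin (N + 1), j < i.val → y' i ≠ e i)) := by
            constructor
            · rintro ⟨h7, h8⟩
              refine ⟨fun i hi => (h7 i (by omega)).trans (h2 i hi), fun i hi => ?_⟩
              by_cases h9 : j + 1 < i.val
              · exact h8 i h9
              · have h10 : i = ix N (j + 1) := by
                  apply Fin.ext; rw [ix_val (by omega)]; omega
                rw [h10, ← hb]; exact hbe
            · rintro ⟨h7, h8⟩
              refine ⟨fun i hi => ?_, fun i hi => h8 i (by omega)⟩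
              by_cases h9 : i.val ≤ j
              · rw [h7 i h9, h2 i h9]
              · have h10 : i = ix N (j + 1) := by
                  apply Fin.ext; rw [ix_val (by omega)]; omega
                rw [h10, ← hb, h3]
          simp only [h6]
          have h11 : (1 : ℝ) / ((k : ℝ) + 1) * (1 / (k.factorial : ℝ)) =
              1 / ((k + 1).factorial : ℝ) := by
            rw [Nat.factorial_succ]; push_cast; field_simp
          rw [h11]
        · rw [if_neg hb, if_neg, mul_zero]
          rintro ⟨h7, -⟩
          apply hb
          rw [h7 _ (by rw [ix_val (by omega)]), h3]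
    rw [Finset.sum_congr rfl fun b _ => step b, Finset.sum_comm, Finset.mul_sum]
    refine Finset.sum_congr rfl fun y' _ => ?_
    simp

/-- A whole block, for an opponent who tours in the order `e` and for a start `b ≠ e 0`. -/
theorem av_block {N : ℕ} (hN : 2 ≤ N) (p : ℝ) (e : Perm (Fin (N + 1))) (q : List (Fin (N + 1)))
    (b : Fin (N + 1)) (hb : b ≠ e 0) :
    avo N p (seg e 0 N ++ q) [b] = (p / (N.factorial : ℝ)) *
      ∑ y' : Perm (Fin (N + 1)), if y' 0 = b ∧ (∀ i, i ≠ 0 → y' i ≠ e i)
        then avo N p q [y' (Fin.last N)] else 0 := by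
  obtain ⟨k, rfl⟩ : ∃ k, N = k + 1 := ⟨N - 1, by omega⟩
  simp only [seg, List.cons_append, av, zero_add]
  have step : ∀ a : Fin (k + 1 + 1), (if a = e (ix (k + 1) 1) then (0 : ℝ) else
      awProb (k + 1 + 1) p [b] a * av (awProb (k + 1 + 1) p) (fun _ => 1)
        (seg e 1 k ++ q) [a, b]) =
      ∑ y' : Perm (Fin (k + 1 + 1)), if a = y' (ix (k + 1) 1) then
        ((p / ((k + 1).factorial : ℝ)) *
          if y' 0 = b ∧ (∀ i, i ≠ 0 → y' i ≠ e i)
            then avo (k + 1) p q [y' (Fin.last (k + 1))] else 0) else 0 := by
    intro a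
    have hix0 : ix (k + 1) 1 ≠ 0 := by
      intro h
      have := congrArg Fin.val h
      rw [ix_val (by omega)] at this
      simp at this
    by_cases hae : a = e (ix (k + 1) 1)
    · rw [if_pos hae]
      symm
      refine Finset.sum_eq_zero fun y' _ => ?_
      split_ifs with h2 h3
      · exfalso
        exact h3.2 (ix (k + 1) 1) hix0 (h2 ▸ hae)
      · simp
      · rfl
    rw [if_neg hae, awProb_start]
    by_cases hab : a = b
    · rw [if_pos hab]
      have h1 : av (awProb (k + 1 + 1) p) (fun _ => (1 : ℝ)) (seg e 1 k ++ q) [a, b] = 0 := by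
        have h2 : [a, b] = List.replicate (1 + 1) b := by rw [hab]; rfl
        rw [h2]
        apply av_stay p q b _ _ 1 le_rfl
        · rw [seg_length]; omega
        · rw [mem_seg _ _ _ (by omega)]
          have h3 : (e.symm b).val ≠ 0 := by
            intro h4
            apply hb
            have h5 : e.symm b = 0 := Fin.ext h4
            rw [← h5]; simp
          have h4 : (e.symm b).val ≠ 1 := by
            intro h5
            apply hae
            rw [hab, show ix (k + 1) 1 = e.symm b from by
              apply Fin.ext; rw [ix_val (by omega), h5]]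
            simp
          have h5 := (e.symm b).isLt
          omega
      rw [h1, mul_zero]
      symm
      refine Finset.sum_eq_zero fun y' _ => ?_
      split_ifs with h2 h3
      · exfalso
        have h4 : y' (ix (k + 1) 1) = y' 0 := by rw [← h2, h3.1, hab]
        exact hix0 (y'.injective h4)
      · simp
      · rfl
    · rw [if_neg hab]
      -- choose a permutation with `y 0 = b`, `y 1 = a`
      set y₀ : Perm (Fin (k + 1 + 1)) := Equiv.swap 0 b with hy₀
      set y₁ : Perm (Fin (k + 1 + 1)) := Equiv.swap (y₀ (ix (k + 1) 1)) a * y₀ with hy₁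
      have h0 : y₀ 0 = b := by rw [hy₀]; simp
      have h2 : y₁ 0 = b := by
        rw [hy₁, Equiv.Perm.mul_apply, h0, Equiv.swap_apply_of_ne_of_ne]
        · intro h3
          rw [← h0] at h3
          exact hix0 (y₀.injective h3).symm
        · exact fun h => hab h.symm
      have h3 : y₁ (ix (k + 1) 1) = a := by
        rw [hy₁, Equiv.Perm.mul_apply, Equiv.swap_apply_left]
      have h4 : [a, b] = hist y₁ 1 := by
        simp only [hist, zero_add, h3, h2]
      have h5 := av_tour p e q k 1 y₁ (by omega) le_rfl
      simp only [avo] at h5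
      rw [h4, h5, ← mul_assoc, Finset.mul_sum]
      refine Finset.sum_congr rfl fun y' _ => ?_
      by_cases hb' : a = y' (ix (k + 1) 1)
      · rw [if_pos hb']
        have h6 : ((∀ i : Fin (k + 1 + 1), i.val ≤ 1 → y' i = y₁ i) ∧
            (∀ i : Fin (k + 1 + 1), 1 < i.val → y' i ≠ e i)) ↔
            (y' 0 = b ∧ (∀ i : Fin (k + 1 + 1), i ≠ 0 → y' i ≠ e i)) := by
          constructor
          · rintro ⟨h7, h8⟩
            refine ⟨(h7 0 (by simp)).trans h2, fun i hi => ?_⟩
            by_cases h9 : 1 < i.val
            · exact h8 i h9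
            · have h10 : i = ix (k + 1) 1 := by
                apply Fin.ext; rw [ix_val (by omega)]
                have : i.val ≠ 0 := fun h => hi (Fin.ext h)
                omega
              rw [h10, ← hb']; exact hae
          · rintro ⟨h7, h8⟩
            refine ⟨fun i hi => ?_, fun i hi => h8 i (by rintro rfl; simp at hi)⟩
            by_cases h9 : i.val = 0
            · have : i = 0 := Fin.ext h9
              rw [this, h7, h2]
            · have h10 : i = ix (k + 1) 1 := by
                apply Fin.ext; rw [ix_val (by omega)]; omega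
              rw [h10, ← hb', h3]
        simp only [h6]
        have h11 : p / ((k + 1 : ℕ) : ℝ) * (1 / (k.factorial : ℝ)) =
            p / ((k + 1).factorial : ℝ) := by
          rw [Nat.factorial_succ]; push_cast; field_simp
        rw [h11]
      · rw [if_neg hb', if_neg, mul_zero]
        rintro ⟨h7, -⟩
        apply hb'
        rw [h7 _ (by rw [ix_val (by omega)]), h3]
  rw [Finset.sum_congr rfl fun b _ => step b, Finset.sum_comm, Finset.mul_sum]
  refine Finset.sum_congr rfl fun y' _ => ?_
  simp

end Pool.Agent.Rdv
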