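import Pool.Agent.Lib.Rdv.Defs

namespace Pool.Agent.Rdv

open Equiv

variable {n : ℕ}

/-- The probability that a player using `S` has history `l` after `l.length` days. -/
noncomputable def Strategy.path (S : Strategy n) : List (Fin n) → ℝ
  | [] => 1
  | a :: l => S.path l * S.prob l a

theorem Strategy.path_nonneg (S : Strategy n) (l : List (Fin n)) : 0 ≤ S.path l := by
  induction l with
  | nil => simp [Strategy.path]
  | cons a l ih => exact mul_nonneg ih (S.nonneg l a)

theorem Strategy.path_sum (S : Strategy n) (l : List (Fin n)) : ∑ a, S.path (a :: l) = S.path l := by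
  simp only [Strategy.path]
  rw [← Finset.mul_sum, S.sum_eq_one, mul_one]

/-- The bilinear form behind `miss`. -/
noncomputable def bil (u v : List (Fin n) → ℝ) (σ₁ σ₂ : Perm (Fin n)) :
    ℕ → List (Fin n) → List (Fin n) → ℝ
  | 0, l₁, l₂ => u l₁ * v l₂
  | t + 1, l₁, l₂ => ∑ a, ∑ b, if σ₁ a = σ₂ b then 0 else bil u v σ₁ σ₂ t (a :: l₁) (b :: l₂)

theorem bil_path (S S' : Strategy n) (σ₁ σ₂ : Perm (Fin n)) (t : ℕ) :
    ∀ l₁ l₂, bil S.path S'.path σ₁ σ₂ t l₁ l₂ = S.path l₁ * S'.path l₂ * miss S S' σ₁ σ₂ t l₁ l₂ := by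
  induction t with
  | zero => intro l₁ l₂; simp [bil, miss]
  | succ t ih =>
    intro l₁ l₂
    simp only [bil, miss]
    rw [Finset.mul_sum]
    refine Finset.sum_congr rfl fun a _ => ?_
    rw [Finset.mul_sum]
    refine Finset.sum_congr rfl fun b _ => ?_
    split_ifs
    · simp
    · rw [ih]; simp only [Strategy.path]; ring

theorem bil_add_left (u u' v : List (Fin n) → ℝ) (σ₁ σ₂ : Perm (Fin n)) (t : ℕ) :
    ∀ l₁ l₂, bil (fun l => u l + u' l) v σ₁ σ₂ t l₁ l₂ =
      bil u v σ₁ σ₂ t l₁ l₂ + bil u' v σ₁ σ₂ t l₁ l₂ := by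
  induction t with
  | zero => intro l₁ l₂; simp [bil]; ring
  | succ t ih =>
    intro l₁ l₂
    simp only [bil]
    rw [← Finset.sum_add_distrib]
    refine Finset.sum_congr rfl fun a _ => ?_
    rw [← Finset.sum_add_distrib]
    refine Finset.sum_congr rfl fun b _ => ?_
    split_ifs
    · simp
    · rw [ih]

theorem bil_smul_left (c : ℝ) (u v : List (Fin n) → ℝ) (σ₁ σ₂ : Perm (Fin n)) (t : ℕ) :
    ∀ l₁ l₂, bil (fun l => c * u l) v σ₁ σ₂ t l₁ l₂ = c * bil u v σ₁ σ₂ t l₁ l₂ := by
  induction t with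
  | zero => intro l₁ l₂; simp [bil]; ring
  | succ t ih =>
    intro l₁ l₂
    simp only [bil]
    rw [Finset.mul_sum]
    refine Finset.sum_congr rfl fun a _ => ?_
    rw [Finset.mul_sum]
    refine Finset.sum_congr rfl fun b _ => ?_
    split_ifs
    · simp
    · rw [ih]

theorem bil_swap (u v : List (Fin n) → ℝ) (σ₁ σ₂ : Perm (Fin n)) (t : ℕ) :
    ∀ l₁ l₂, bil u v σ₁ σ₂ t l₁ l₂ = bil v u σ₂ σ₁ t l₂ l₁ := by
  induction t with
  | zero => intro l₁ l₂; simp [bil]; ring
  | succ t ih =>
    intro l₁ l₂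
    simp only [bil]
    rw [Finset.sum_comm]
    refine Finset.sum_congr rfl fun a _ => ?_
    refine Finset.sum_congr rfl fun b _ => ?_
    by_cases h : σ₁ b = σ₂ a
    · rw [if_pos h, if_pos h.symm]
    · rw [if_neg h, if_neg (Ne.symm h), ih]

/-- The bilinear form averaged over the labellings. -/
noncomputable def D (u v : List (Fin n) → ℝ) (t : ℕ) : ℝ :=
  (∑ σ₁ : Perm (Fin n), ∑ σ₂ : Perm (Fin n), bil u v σ₁ σ₂ t [] []) / (n.factorial : ℝ) ^ 2

theorem D_add_left (u u' v : List (Fin n) → ℝ) (t : ℕ) :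
    D (fun l => u l + u' l) v t = D u v t + D u' v t := by
  simp only [D, bil_add_left, Finset.sum_add_distrib]
  ring

theorem D_smul_left (c : ℝ) (u v : List (Fin n) → ℝ) (t : ℕ) :
    D (fun l => c * u l) v t = c * D u v t := by
  simp only [D, bil_smul_left, ← Finset.mul_sum]
  ring

theorem D_comm (u v : List (Fin n) → ℝ) (t : ℕ) : D u v t = D v u t := by
  simp only [D]
  congr 1
  rw [Finset.sum_comm]
  refine Finset.sum_congr rfl fun a _ => ?_
  refine Finset.sum_congr rfl fun b _ => ?_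
  rw [bil_swap]

theorem D_add_right (u v v' : List (Fin n) → ℝ) (t : ℕ) :
    D u (fun l => v l + v' l) t = D u v t + D u v' t := by
  rw [D_comm, D_add_left, D_comm v, D_comm v']

theorem D_smul_right (c : ℝ) (u v : List (Fin n) → ℝ) (t : ℕ) :
    D u (fun l => c * v l) t = c * D u v t := by
  rw [D_comm, D_smul_left, D_comm v]

theorem D_zero_left (v : List (Fin n) → ℝ) (t : ℕ) : D (fun _ => 0) v t = 0 := by
  have := D_smul_left 0 (fun _ => 0) v t
  simpa using this

theorem D_sum_left {ι : Type*} (s : Finset ι) (z : ι → ℝ) (F : ι → List (Fin n) → ℝ)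
    (v : List (Fin n) → ℝ) (t : ℕ) :
    D (fun l => ∑ i ∈ s, z i * F i l) v t = ∑ i ∈ s, z i * D (F i) v t := by
  classical
  induction s using Finset.induction_on with
  | empty => simp [D_zero_left]
  | insert i s hi ih =>
    rw [Finset.sum_insert hi, ← ih, ← D_smul_left, ← D_add_left]
    congr 1
    funext l
    rw [Finset.sum_insert hi]

theorem D_sum_right {ι : Type*} (s : Finset ι) (z : ι → ℝ) (F : ι → List (Fin n) → ℝ)
    (v : List (Fin n) → ℝ) (t : ℕ) :
    D v (fun l => ∑ i ∈ s, z i * F i l) t = ∑ i ∈ s, z i * D v (F i) t := by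
  rw [D_comm, D_sum_left]
  simp only [D_comm v]

theorem survival_eq_D (S : Strategy n) (t : ℕ) : S.survival t = D S.path S.path t := by
  simp only [Strategy.survival, D, bil_path]
  simp [Strategy.path]

/-- A consistent nonnegative family of path weights comes from a strategy. -/
theorem exists_strategy (S₀ : Strategy n) (w : List (Fin n) → ℝ) (h0 : ∀ l, 0 ≤ w l)
    (h1 : w [] = 1) (hs : ∀ l, ∑ a, w (a :: l) = w l) : ∃ S : Strategy n, S.path = w := by
  refine ⟨⟨fun l a => if w l = 0 then S₀.prob l a else w (a :: l) / w l, ?_, ?_⟩, ?_⟩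
  · intro l a
    split_ifs
    · exact S₀.nonneg l a
    · exact div_nonneg (h0 _) (h0 _)
  · intro l
    by_cases h : w l = 0
    · simp only [h, if_true]
      exact S₀.sum_eq_one l
    · simp only [h, if_false]
      rw [← Finset.sum_div, hs, div_self h]
  · funext l
    induction l with
    | nil => simp [Strategy.path, h1]
    | cons a l ih =>
      simp only [Strategy.path]
      rw [ih]
      by_cases h : w l = 0
      · rw [if_pos h, h, zero_mul]
        have h2 := hs l
        rw [h] at h2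
        exact ((Finset.sum_eq_zero_iff_of_nonneg (fun b _ => h0 (b :: l))).mp h2 a
          (Finset.mem_univ a)).symm
      · rw [if_neg h]
        field_simp

/-- The second order expansion of the survival function. -/
theorem perturb {ι : Type*} [Fintype ι] (S₀ : Strategy n) (F : ι → Strategy n) (z : ι → ℝ)
    (hz : ∑ i, z i = 0) (c : ℝ) (hc : 0 < c)
    (hdom : ∀ i l, c * (F i).path l ≤ S₀.path l) :
    ∃ ε : ℝ, 0 < ε ∧ ∃ S : Strategy n, ∀ t, S.survival t = S₀.survival t +
      2 * ε * ∑ i, z i * D (F i).path S₀.path t +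
      ε ^ 2 * ∑ i, ∑ j, z i * z j * D (F i).path (F j).path t := by
  set Z : ℝ := ∑ i, |z i| with hZ
  have hZ0 : 0 ≤ Z := Finset.sum_nonneg fun i _ => abs_nonneg _
  set ε : ℝ := c / (1 + Z) with hε
  have hε0 : 0 < ε := by positivity
  have hεZ : ε * Z ≤ c := by
    rw [hε, div_mul_eq_mul_div, div_le_iff₀ (by positivity)]
    nlinarith
  obtain ⟨S, hS⟩ := exists_strategy S₀ (fun l => S₀.path l + ε * ∑ i, z i * (F i).path l) (by
    intro l
    have h1 : ∀ i, -(|z i| * (S₀.path l / c)) ≤ z i * (F i).path l := by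
      intro i
      have h2 : (F i).path l ≤ S₀.path l / c := by
        rw [le_div_iff₀ hc]; linarith [hdom i l]
      have h3 : -|z i| ≤ z i := neg_abs_le _
      have h4 := (F i).path_nonneg l
      have h5 : |z i| * (F i).path l ≤ |z i| * (S₀.path l / c) :=
        mul_le_mul_of_nonneg_left h2 (abs_nonneg _)
      nlinarith
    have h2 : -(Z * (S₀.path l / c)) ≤ ∑ i, z i * (F i).path l := by
      rw [hZ, Finset.sum_mul, ← Finset.sum_neg_distrib]
      exact Finset.sum_le_sum fun i _ => h1 i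
    have h3 : 0 ≤ S₀.path l / c := div_nonneg (S₀.path_nonneg l) hc.le
    have h4 : ε * Z * (S₀.path l / c) ≤ c * (S₀.path l / c) :=
      mul_le_mul_of_nonneg_right hεZ h3
    have h5 : c * (S₀.path l / c) = S₀.path l := by field_simp
    have h6 : ε * -(Z * (S₀.path l / c)) ≤ ε * ∑ i, z i * (F i).path l :=
      mul_le_mul_of_nonneg_left h2 hε0.le
    nlinarith) (by simp [Strategy.path, hz]) (by
    intro l
    rw [Finset.sum_add_distrib, S₀.path_sum, ← Finset.mul_sum, Finset.sum_comm]
    congr 2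
    refine Finset.sum_congr rfl fun i _ => ?_
    rw [← Finset.mul_sum, (F i).path_sum])
  refine ⟨ε, hε0, S, fun t => ?_⟩
  rw [survival_eq_D, hS, D_add_left, D_add_right, D_add_right, D_smul_left, D_smul_left,
    D_smul_right, D_smul_right, D_sum_left, D_sum_right, D_sum_left, survival_eq_D]
  have h1 : ∑ i, z i * D S₀.path (F i).path t = ∑ i, z i * D (F i).path S₀.path t :=
    Finset.sum_congr rfl fun i _ => by rw [D_comm]
  have h2 : ∑ i, z i * D (F i).path (fun l => ∑ j, z j * (F j).path l) t =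
      ∑ i, ∑ j, z i * z j * D (F i).path (F j).path t := by
    refine Finset.sum_congr rfl fun i _ => ?_
    rw [D_sum_right, Finset.mul_sum]
    exact Finset.sum_congr rfl fun j _ => by ring
  rw [h1, h2]
  ring

end Pool.Agent.Rdv
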