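import Mathlib

/-!
# A lower bound for the number of permutations that avoid a set of cells
-/

namespace Pool.Agent.Rdv

open Equiv

variable {n : ℕ}

/-- One more prescribed value. -/
theorem cnt_step (P : Perm (Fin n) → Prop) [DecidablePred P] (B : Finset (Fin n)) (a b : Fin n)
    (hP : ∀ τ, P τ → τ a ∉ B)
    (hinv : ∀ c c', c ∉ B → c' ∉ B → ∀ τ, P τ → P (Equiv.swap c c' * τ)) (hb : b ∉ B) :
    (Finset.univ.filter fun τ : Perm (Fin n) => P τ ∧ τ a = b).card * (n - B.card) =
      (Finset.univ.filter fun τ : Perm (Fin n) => P τ).card := by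
  have h1 := Finset.card_eq_sum_card_fiberwise (s := Finset.univ.filter fun τ => P τ)
    (t := Bᶜ) (f := fun τ : Perm (Fin n) => τ a) (by
      intro τ hτ
      simp only [Finset.coe_filter, Finset.mem_univ, true_and, Set.mem_setOf_eq] at hτ
      simp only [Finset.coe_compl, Set.mem_compl_iff, Finset.mem_coe]
      exact hP τ hτ)
  rw [h1]
  have h2 : ∀ c ∈ Bᶜ, ((Finset.univ.filter fun τ => P τ).filter fun τ => τ a = c).card =
      (Finset.univ.filter fun τ : Perm (Fin n) => P τ ∧ τ a = b).card := by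
    intro c hc
    rw [Finset.mem_compl] at hc
    refine Finset.card_equiv (Equiv.mulLeft (Equiv.swap b c)) ?_
    intro τ
    simp only [Finset.mem_filter, Finset.mem_univ, true_and, Equiv.coe_mulLeft,
      Equiv.Perm.mul_apply]
    constructor
    · rintro ⟨h3, h4⟩
      refine ⟨hinv b c hb hc τ h3, ?_⟩
      rw [h4, Equiv.swap_apply_right]
    · rintro ⟨h3, h4⟩
      have h5 := hinv b c hb hc _ h3
      rw [← mul_assoc, Equiv.swap_mul_self, one_mul] at h5
      refine ⟨h5, ?_⟩
      have h6 := congrArg (Equiv.swap b c) h4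
      rwa [Equiv.swap_apply_self, Equiv.swap_apply_left] at h6
  rw [Finset.sum_congr rfl h2, Finset.sum_const, Finset.card_compl, Fintype.card_fin,
    smul_eq_mul, mul_comm]

/-- The cell `e` is hit by `τ`. -/
noncomputable def Ihit (τ : Perm (Fin n)) (e : Fin n × Fin n) : ℝ := if τ e.1 = e.2 then 1 else 0

/-- Cells in different rows and columns. -/
def compat (e e' : Fin n × Fin n) : Prop := e.1 ≠ e'.1 ∧ e.2 ≠ e'.2

instance (e e' : Fin n × Fin n) : Decidable (compat e e') := by unfold compat; infer_instance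

theorem cnt1 (hn : 1 ≤ n) (e : Fin n × Fin n) :
    ∑ τ : Perm (Fin n), Ihit τ e = (n.factorial : ℝ) / n := by
  have h := cnt_step (fun _ : Perm (Fin n) => True) ∅ e.1 e.2 (by simp) (by simp) (by simp)
  simp only [true_and, Finset.card_empty, Nat.sub_zero, Finset.filter_true, Finset.card_univ,
    Fintype.card_perm, Fintype.card_fin] at h
  simp only [Ihit, Finset.sum_boole]
  have hn0 : (n : ℝ) ≠ 0 := by positivity
  rw [eq_div_iff hn0]
  exact_mod_cast h

theorem cnt2 (hn : 2 ≤ n) (e e' : Fin n × Fin n) (h1 : compat e e') :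
    ∑ τ : Perm (Fin n), Ihit τ e * Ihit τ e' = (n.factorial : ℝ) / (n * ((n : ℝ) - 1)) := by
  have h := cnt_step (fun τ : Perm (Fin n) => τ e.1 = e.2) {e.2} e'.1 e'.2 (by
    intro τ hτ
    simp only [Finset.mem_singleton]
    intro h2
    exact h1.1 (τ.injective (hτ.trans h2.symm))) (by
    intro c c' hc hc' τ hτ
    simp only [Finset.mem_singleton] at hc hc'
    rw [Equiv.Perm.mul_apply, hτ, Equiv.swap_apply_of_ne_of_ne (Ne.symm hc) (Ne.symm hc')])
    (by simp only [Finset.mem_singleton]; exact fun h2 => h1.2 h2.symm)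
  have h3 := cnt1 (by omega) e
  simp only [Ihit, Finset.sum_boole] at h3
  have h4 : ∀ τ : Perm (Fin n), Ihit τ e * Ihit τ e' =
      if (τ e.1 = e.2 ∧ τ e'.1 = e'.2) then 1 else 0 := by
    intro τ
    unfold Ihit
    split_ifs <;> simp_all
  simp only [h4, Finset.sum_boole]
  rw [Finset.card_singleton] at h
  have h5 : (((Finset.univ.filter fun τ : Perm (Fin n) => τ e.1 = e.2 ∧ τ e'.1 = e'.2).card : ℕ) : ℝ) *
      ((n : ℝ) - 1) = (n.factorial : ℝ) / n := by
    rw [← h3, ← h]
    push_cast [Nat.cast_sub (show 1 ≤ n by omega)]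
    ring
  have hn0 : (0 : ℝ) < n := by positivity
  have hn1 : (0 : ℝ) < (n : ℝ) - 1 := by
    have : (2 : ℝ) ≤ n := by exact_mod_cast hn
    linarith
  rw [eq_div_iff (by positivity)]
  rw [eq_div_iff (by positivity)] at h5
  linarith

theorem cnt2_zero (e e' : Fin n × Fin n) (hne : e ≠ e') (h1 : ¬ compat e e') (τ : Perm (Fin n)) :
    Ihit τ e * Ihit τ e' = 0 := by
  unfold Ihit
  by_cases h2 : τ e.1 = e.2
  · by_cases h3 : τ e'.1 = e'.2
    · exfalso
      apply h1
      constructor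
      · intro h4
        apply hne
        refine Prod.ext h4 ?_
        rw [← h2, ← h3, h4]
      · intro h4
        apply hne
        refine Prod.ext ?_ h4
        apply τ.injective
        rw [h2, h3, h4]
    · simp [h3]
  · simp [h2]

theorem cnt3_le (hn : 3 ≤ n) (e e' e'' : Fin n × Fin n) (h1 : compat e e') (hne : e'' ≠ e)
    (hne' : e'' ≠ e') :
    ∑ τ : Perm (Fin n), Ihit τ e * Ihit τ e' * Ihit τ e'' ≤
      (n.factorial : ℝ) / (n * ((n : ℝ) - 1) * ((n : ℝ) - 2)) := by
  have hn2 : (3 : ℝ) ≤ n := by exact_mod_cast hn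
  have hn0 : (0 : ℝ) < n := by positivity
  have hn1 : (0 : ℝ) < (n : ℝ) - 1 := by linarith
  have hn3 : (0 : ℝ) < (n : ℝ) - 2 := by linarith
  have hpos : 0 ≤ (n.factorial : ℝ) / (n * ((n : ℝ) - 1) * ((n : ℝ) - 2)) := by positivity
  by_cases hc : compat e e''
  · by_cases hc' : compat e' e''
    · have h := cnt_step (fun τ : Perm (Fin n) => τ e.1 = e.2 ∧ τ e'.1 = e'.2) {e.2, e'.2}
        e''.1 e''.2 (by
          rintro τ ⟨hτ, hτ'⟩
          simp only [Finset.mem_insert, Finset.mem_singleton, not_or]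
          exact ⟨fun h2 => hc.1 (τ.injective (hτ.trans h2.symm)),
            fun h2 => hc'.1 (τ.injective (hτ'.trans h2.symm))⟩) (by
          rintro c c' hc1 hc2 τ ⟨hτ, hτ'⟩
          simp only [Finset.mem_insert, Finset.mem_singleton, not_or] at hc1 hc2
          rw [Equiv.Perm.mul_apply, Equiv.Perm.mul_apply, hτ, hτ',
            Equiv.swap_apply_of_ne_of_ne (Ne.symm hc1.1) (Ne.symm hc2.1),
            Equiv.swap_apply_of_ne_of_ne (Ne.symm hc1.2) (Ne.symm hc2.2)]
          exact ⟨rfl, rfl⟩)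
          (by
            simp only [Finset.mem_insert, Finset.mem_singleton, not_or]
            exact ⟨fun h2 => hc.2 h2.symm, fun h2 => hc'.2 h2.symm⟩)
      have h3 := cnt2 (by omega) e e' h1
      have h4 : ∀ τ : Perm (Fin n), Ihit τ e * Ihit τ e' =
          if (τ e.1 = e.2 ∧ τ e'.1 = e'.2) then 1 else 0 := by
        intro τ
        unfold Ihit
        split_ifs <;> simp_all
      have h4' : ∀ τ : Perm (Fin n), Ihit τ e * Ihit τ e' * Ihit τ e'' =
          if ((τ e.1 = e.2 ∧ τ e'.1 = e'.2) ∧ τ e''.1 = e''.2) then 1 else 0 := by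
        intro τ
        rw [h4]
        unfold Ihit
        split_ifs <;> simp_all
      simp only [h4, Finset.sum_boole] at h3
      simp only [h4', Finset.sum_boole]
      rw [Finset.card_pair h1.2] at h
      have h5 : (((Finset.univ.filter fun τ : Perm (Fin n) =>
          (τ e.1 = e.2 ∧ τ e'.1 = e'.2) ∧ τ e''.1 = e''.2).card : ℕ) : ℝ) *
          ((n : ℝ) - 2) = (n.factorial : ℝ) / (n * ((n : ℝ) - 1)) := by
        rw [← h3, ← h]
        push_cast [Nat.cast_sub (show 2 ≤ n by omega)]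
        ring
      apply le_of_eq
      rw [eq_div_iff (by positivity)]
      rw [eq_div_iff (by positivity)] at h5
      linarith
    · have : ∀ τ : Perm (Fin n), Ihit τ e * Ihit τ e' * Ihit τ e'' = 0 := by
        intro τ
        rw [mul_assoc, cnt2_zero e' e'' (Ne.symm hne') hc', mul_zero]
      simp only [this, Finset.sum_const_zero]
      exact hpos
  · have : ∀ τ : Perm (Fin n), Ihit τ e * Ihit τ e' * Ihit τ e'' = 0 := by
      intro τ
      rw [mul_right_comm, cnt2_zero e e'' (Ne.symm hne) hc, zero_mul]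
    simp only [this, Finset.sum_const_zero]
    exact hpos

/-- Third order Bonferroni inequality for a natural number. -/
theorem bonf_nat (Z : ℕ) : 1 - (Z : ℝ) + (Z : ℝ) * ((Z : ℝ) - 1) / 2 -
    (Z : ℝ) * ((Z : ℝ) - 1) * ((Z : ℝ) - 2) / 6 ≤ if Z = 0 then 1 else 0 := by
  rcases Z with _ | k
  · simp
  · rw [if_neg (by omega)]
    push_cast
    have h : 0 ≤ (k : ℝ) * ((k : ℝ) - 1) * ((k : ℝ) - 2) := by
      rcases k with _ | _ | k
      · simp
      · simp
      · push_cast
        have : (0 : ℝ) ≤ k := Nat.cast_nonneg k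
        have h1 : (k : ℝ) + 1 + 1 - 1 = (k : ℝ) + 1 := by ring
        have h2 : (k : ℝ) + 1 + 1 - 2 = (k : ℝ) := by ring
        rw [h1, h2]
        positivity
    nlinarith

/-- Number of ordered pairs of compatible cells. -/
noncomputable def P2o (E : Finset (Fin n × Fin n)) : ℝ :=
  ∑ e ∈ E, ∑ e' ∈ E, if compat e e' then 1 else 0

/-- The proportion of permutations that avoid all cells of `E`. -/
noncomputable def avE (E : Finset (Fin n × Fin n)) : ℝ :=
  (∑ τ : Perm (Fin n), if ∀ e ∈ E, τ e.1 ≠ e.2 then (1 : ℝ) else 0) / (n.factorial : ℝ)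

theorem bonf_avE (hn : 3 ≤ n) (E : Finset (Fin n × Fin n)) :
    1 - (E.card : ℝ) / n + P2o E / (2 * (n * ((n : ℝ) - 1))) -
      P2o E * ((E.card : ℝ) - 2) / (6 * (n * ((n : ℝ) - 1) * ((n : ℝ) - 2))) ≤ avE E := by
  classical
  have hn2 : (3 : ℝ) ≤ n := by exact_mod_cast hn
  have hn0 : (0 : ℝ) < n := by positivity
  have hn1 : (0 : ℝ) < (n : ℝ) - 1 := by linarith
  have hn3 : (0 : ℝ) < (n : ℝ) - 2 := by linarith
  have hf : (0 : ℝ) < (n.factorial : ℝ) := by positivity
  -- indicator algebra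
  have hI : ∀ (τ : Perm (Fin n)) e, Ihit τ e * Ihit τ e = Ihit τ e := by
    intro τ e; unfold Ihit; split_ifs <;> simp
  have hZ : ∀ τ : Perm (Fin n), ((E.filter fun e => τ e.1 = e.2).card : ℝ) =
      ∑ e ∈ E, Ihit τ e := by
    intro τ; simp only [Ihit, Finset.sum_boole]
  set Z : Perm (Fin n) → ℝ := fun τ => ∑ e ∈ E, Ihit τ e with hZdef
  have hS2 : ∀ τ, Z τ * (Z τ - 1) = ∑ e ∈ E, ∑ e' ∈ E.erase e, Ihit τ e * Ihit τ e' := by
    intro τ
    rw [hZdef]
    simp only
    rw [Finset.sum_mul]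
    refine Finset.sum_congr rfl fun e he => ?_
    rw [← Finset.mul_sum, ← Finset.add_sum_erase E _ he, mul_sub, mul_add, hI]
    ring
  have hS3 : ∀ τ, Z τ * (Z τ - 1) * (Z τ - 2) = ∑ e ∈ E, ∑ e' ∈ E.erase e,
      ∑ e'' ∈ (E.erase e).erase e', Ihit τ e * Ihit τ e' * Ihit τ e'' := by
    intro τ
    rw [hS2, Finset.sum_mul]
    refine Finset.sum_congr rfl fun e he => ?_
    rw [Finset.sum_mul]
    refine Finset.sum_congr rfl fun e' he' => ?_
    rw [← Finset.mul_sum]
    have h1 : Z τ = Ihit τ e + (Ihit τ e' + ∑ e'' ∈ (E.erase e).erase e', Ihit τ e'') := by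
      rw [Finset.add_sum_erase _ _ he', Finset.add_sum_erase _ _ he]
    rw [h1]
    have h2 := hI τ e
    have h3 := hI τ e'
    set A := Ihit τ e
    set B := Ihit τ e'
    set C := ∑ e'' ∈ (E.erase e).erase e', Ihit τ e''
    have h4 : A * B * (A + (B + C) - 2) = (A * A) * B + A * (B * B) + A * B * C - 2 * (A * B) := by
      ring
    rw [h4, h2, h3]
    ring
  -- pointwise Bonferroni
  have hpt : ∀ τ : Perm (Fin n), 1 - Z τ + Z τ * (Z τ - 1) / 2 - Z τ * (Z τ - 1) * (Z τ - 2) / 6 ≤
      if ∀ e ∈ E, τ e.1 ≠ e.2 then (1 : ℝ) else 0 := by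
    intro τ
    have h1 := bonf_nat (E.filter fun e => τ e.1 = e.2).card
    rw [hZ τ] at h1
    refine h1.trans (le_of_eq ?_)
    congr 1
    rw [Finset.card_eq_zero, Finset.filter_eq_empty_iff]
  have hsum1 : ∑ τ : Perm (Fin n), Z τ = (n.factorial : ℝ) * ((E.card : ℝ) / n) := by
    rw [hZdef]
    simp only
    rw [Finset.sum_comm]
    simp only [cnt1 (by omega : 1 ≤ n), Finset.sum_const, nsmul_eq_mul]
    ring
  have hP2 : P2o E = ∑ e ∈ E, ∑ e' ∈ E.erase e, if compat e e' then (1 : ℝ) else 0 := by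
    unfold P2o
    refine Finset.sum_congr rfl fun e he => ?_
    rw [← Finset.add_sum_erase E _ he, if_neg, zero_add]
    exact fun h => h.1 rfl
  have hsum2 : ∑ τ : Perm (Fin n), Z τ * (Z τ - 1) =
      (n.factorial : ℝ) * (P2o E / (n * ((n : ℝ) - 1))) := by
    simp only [hS2]
    rw [Finset.sum_comm, hP2, Finset.sum_div, Finset.mul_sum]
    refine Finset.sum_congr rfl fun e _ => ?_
    rw [Finset.sum_comm, Finset.sum_div, Finset.mul_sum]
    refine Finset.sum_congr rfl fun e' he' => ?_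
    by_cases hc : compat e e'
    · rw [cnt2 (by omega) e e' hc, if_pos hc]
      ring
    · rw [if_neg hc]
      simp only [cnt2_zero e e' (Finset.ne_of_mem_erase he').symm hc, Finset.sum_const_zero]
      ring
  have hsum3 : ∑ τ : Perm (Fin n), Z τ * (Z τ - 1) * (Z τ - 2) ≤
      (n.factorial : ℝ) * (P2o E * ((E.card : ℝ) - 2) / (n * ((n : ℝ) - 1) * ((n : ℝ) - 2))) := by
    simp only [hS3]
    rw [Finset.sum_comm, hP2, Finset.sum_mul, Finset.sum_div, Finset.mul_sum]
    refine Finset.sum_le_sum fun e he => ?_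
    rw [Finset.sum_comm, Finset.sum_mul, Finset.sum_div, Finset.mul_sum]
    refine Finset.sum_le_sum fun e' he' => ?_
    rw [Finset.sum_comm]
    by_cases hc : compat e e'
    · rw [if_pos hc]
      calc _ ≤ ∑ _e'' ∈ (E.erase e).erase e',
            (n.factorial : ℝ) / (n * ((n : ℝ) - 1) * ((n : ℝ) - 2)) := by
            refine Finset.sum_le_sum fun e'' he'' => ?_
            apply cnt3_le hn e e' e'' hc
            · exact Finset.ne_of_mem_erase (Finset.mem_of_mem_erase he'')
            · exact Finset.ne_of_mem_erase he''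
        _ = _ := by
            rw [Finset.sum_const, Finset.card_erase_of_mem he', Finset.card_erase_of_mem he,
              nsmul_eq_mul]
            have h2 : 2 ≤ E.card := by
              have h3 := Finset.card_pos.mpr ⟨e', he'⟩
              rw [Finset.card_erase_of_mem he] at h3
              omega
            have h4 : ((E.card - 1 - 1 : ℕ) : ℝ) = (E.card : ℝ) - 2 := by
              rw [Nat.sub_sub, Nat.cast_sub (by omega)]; norm_num
            rw [h4]
            ring
    · rw [if_neg hc]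
      have h0 : ∀ (e'' : Fin n × Fin n) (τ : Perm (Fin n)),
          Ihit τ e * Ihit τ e' * Ihit τ e'' = 0 := by
        intro e'' τ
        rw [cnt2_zero e e' (Finset.ne_of_mem_erase he').symm hc, zero_mul]
      simp only [h0, Finset.sum_const_zero]
      simp
  have htot := Finset.sum_le_sum (s := (Finset.univ : Finset (Perm (Fin n)))) fun τ _ => hpt τ
  rw [Finset.sum_sub_distrib, Finset.sum_add_distrib, Finset.sum_sub_distrib,
    ← Finset.sum_div, ← Finset.sum_div, hsum1, hsum2] at htot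
  simp only [Finset.sum_const, Finset.card_univ, Fintype.card_perm, Fintype.card_fin,
    nsmul_eq_mul, mul_one] at htot
  unfold avE
  rw [le_div_iff₀ hf]
  have h6 : (n.factorial : ℝ) * (P2o E * ((E.card : ℝ) - 2) /
      (n * ((n : ℝ) - 1) * ((n : ℝ) - 2))) / 6 = (n.factorial : ℝ) *
      (P2o E * ((E.card : ℝ) - 2) / (6 * (n * ((n : ℝ) - 1) * ((n : ℝ) - 2)))) := by
    field_simp
  have h7 : (n.factorial : ℝ) * (P2o E / (n * ((n : ℝ) - 1))) / 2 =
      (n.factorial : ℝ) * (P2o E / (2 * (n * ((n : ℝ) - 1)))) := by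
    field_simp
  rw [h7] at htot
  have h8 : (∑ τ : Perm (Fin n), Z τ * (Z τ - 1) * (Z τ - 2)) / 6 ≤ (n.factorial : ℝ) *
      (P2o E * ((E.card : ℝ) - 2) / (6 * (n * ((n : ℝ) - 1) * ((n : ℝ) - 2)))) := by
    rw [← h6]
    exact div_le_div_of_nonneg_right hsum3 (by norm_num)
  refine le_trans ?_ htot
  have h9 : (1 - (E.card : ℝ) / n + P2o E / (2 * (n * ((n : ℝ) - 1))) -
      P2o E * ((E.card : ℝ) - 2) / (6 * (n * ((n : ℝ) - 1) * ((n : ℝ) - 2)))) *
      (n.factorial : ℝ) = (n.factorial : ℝ) - (n.factorial : ℝ) * ((E.card : ℝ) / n) +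
      (n.factorial : ℝ) * (P2o E / (2 * (n * ((n : ℝ) - 1)))) - (n.factorial : ℝ) *
      (P2o E * ((E.card : ℝ) - 2) / (6 * (n * ((n : ℝ) - 1) * ((n : ℝ) - 2)))) := by
    ring
  rw [h9]
  linarith

end Pool.Agent.Rdv
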