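import Pool.Agent.Lib.Rdv.Pair

namespace Pool.Agent.Rdv

open Equiv

variable {n : ℕ}

/-- The first sum: orders `012` (sign `+`) and `102` (sign `-`). -/
noncomputable def Phi (τ : Perm (Fin n)) (x y w : Fin n) : ℝ :=
  nm ([x, y, w].map τ) [x, y, w] - nm ([x, y, w].map τ) [y, x, w]
    - nm ([y, x, w].map τ) [x, y, w] + nm ([y, x, w].map τ) [y, x, w]

/-- The orders of the second sum. -/
def kl (x y w : Fin n) : Fin 4 → List (Fin n) := ![[x, y, w], [y, x, w], [x, w, y], [y, w, x]]

/-- The signs of the second sum. -/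
def gs : Fin 4 → ℝ := ![1, 1, -1, -1]

/-- The second sum, over the first `m` entries of the orders. -/
noncomputable def Gam (τ : Perm (Fin n)) (x y w : Fin n) (m : ℕ) : ℝ :=
  ∑ k, ∑ k', gs k * gs k' * nm (((kl x y w k).take m).map τ) ((kl x y w k').take m)

/-- The permutations with a 3-cycle on the special points. -/
def BadC (τ : Perm (Fin n)) (x y w : Fin n) : Prop :=
  (τ x = y ∧ τ y = w ∧ τ w = x) ∨ (τ y = x ∧ τ x = w ∧ τ w = y)

/-- The permutations with exactly one special transition, from `x` to `y` or from `y` to `x`. -/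
def GoodC (τ : Perm (Fin n)) (x y w : Fin n) : Prop :=
  (τ x = y ∧ τ y ≠ x ∧ τ y ≠ w ∧ τ w ≠ x) ∨ (τ y = x ∧ τ x ≠ y ∧ τ x ≠ w ∧ τ w ≠ y)

instance (τ : Perm (Fin n)) (x y w : Fin n) : Decidable (BadC τ x y w) := by
  unfold BadC; infer_instance

instance (τ : Perm (Fin n)) (x y w : Fin n) : Decidable (GoodC τ x y w) := by
  unfold GoodC; infer_instance

theorem Gam_zero (τ : Perm (Fin n)) (x y w : Fin n) : Gam τ x y w 0 = 0 := by
  simp [Gam, Fin.sum_univ_four, gs, nm]

theorem Gam_one (τ : Perm (Fin n)) (x y w : Fin n) : Gam τ x y w 1 = 0 := by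
  have h1 : ∀ a b : Fin n, (if a = τ b then (0 : ℝ) else -1) = - (if a = τ b then (0 : ℝ) else 1) := by
    intro a b; split_ifs <;> simp
  simp only [Gam, Fin.sum_univ_four, gs, kl]
  simp [nm, h1]

theorem table (τ : Perm (Fin n)) (x y w : Fin n) (hxy : x ≠ y) (hxw : x ≠ w) (hyw : y ≠ w)
    (hx : τ x ≠ x) (hy : τ y ≠ y) (hw : τ w ≠ w) :
    Phi τ x y w * Gam τ x y w 2 =
      2 * ((if BadC τ x y w then 1 else 0) - (if GoodC τ x y w then 1 else 0)) ∧
    Phi τ x y w * Gam τ x y w 3 =
      4 * ((if BadC τ x y w then 1 else 0) - (if GoodC τ x y w then 1 else 0)) := by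
  have hx' := hx.symm
  have hy' := hy.symm
  have hw' := hw.symm
  have hyx := hxy.symm
  have hwx := hxw.symm
  have hwy := hyw.symm
  have i1 : τ x = y → τ x ≠ w := fun h h' => hyw (h.symm.trans h')
  have i2 : τ y = x → τ y ≠ w := fun h h' => hxw (h.symm.trans h')
  have i3 : τ w = x → τ w ≠ y := fun h h' => hxy (h.symm.trans h')
  have i4 : τ x = y → τ w ≠ y := fun h h' => hxw (τ.injective (h.trans h'.symm))
  have i5 : τ y = x → τ w ≠ x := fun h h' => hyw (τ.injective (h.trans h'.symm))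
  have i6 : τ x = w → τ y ≠ w := fun h h' => hxy (τ.injective (h.trans h'.symm))
  have c1 : (y = τ x) = (τ x = y) := propext eq_comm
  have c2 : (x = τ y) = (τ y = x) := propext eq_comm
  have c3 : (w = τ x) = (τ x = w) := propext eq_comm
  have c4 : (w = τ y) = (τ y = w) := propext eq_comm
  have c5 : (x = τ w) = (τ w = x) := propext eq_comm
  have c6 : (y = τ w) = (τ w = y) := propext eq_comm
  simp only [Phi, Gam, Fin.sum_univ_four, gs, kl, BadC, GoodC]
  by_cases h1 : τ x = y
  · have h3 := i1 h1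
    have h6 := i4 h1
    by_cases h2 : τ y = x
    · have h4 := i2 h2
      have h5 := i5 h2
      simp [nm, h1, h2, h3, h4, h5, h6, c1, c2, c3, c4, c5, c6, hx, hy, hw, hx', hy', hw',
        hxy, hxw, hyw, hyx, hwx, hwy]
      try norm_num
    · by_cases h4 : τ y = w
      · by_cases h5 : τ w = x
        · simp [nm, h1, h2, h3, h4, h5, h6, c1, c2, c3, c4, c5, c6, hx, hy, hw, hx', hy', hw',
            hxy, hxw, hyw, hyx, hwx, hwy]
          try norm_num
        · simp [nm, h1, h2, h3, h4, h5, h6, c1, c2, c3, c4, c5, c6, hx, hy, hw, hx', hy', hw',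
            hxy, hxw, hyw, hyx, hwx, hwy]
          try norm_num
      · by_cases h5 : τ w = x
        · simp [nm, h1, h2, h3, h4, h5, h6, c1, c2, c3, c4, c5, c6, hx, hy, hw, hx', hy', hw',
            hxy, hxw, hyw, hyx, hwx, hwy]
          try norm_num
        · simp [nm, h1, h2, h3, h4, h5, h6, c1, c2, c3, c4, c5, c6, hx, hy, hw, hx', hy', hw',
            hxy, hxw, hyw, hyx, hwx, hwy]
          try norm_num
  · by_cases h2 : τ y = x
    · have h4 := i2 h2
      have h5 := i5 h2
      by_cases h3 : τ x = w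
      · by_cases h6 : τ w = y
        · simp [nm, h1, h2, h3, h4, h5, h6, c1, c2, c3, c4, c5, c6, hx, hy, hw, hx', hy', hw',
            hxy, hxw, hyw, hyx, hwx, hwy]
          try norm_num
        · simp [nm, h1, h2, h3, h4, h5, h6, c1, c2, c3, c4, c5, c6, hx, hy, hw, hx', hy', hw',
            hxy, hxw, hyw, hyx, hwx, hwy]
          try norm_num
      · by_cases h6 : τ w = y
        · simp [nm, h1, h2, h3, h4, h5, h6, c1, c2, c3, c4, c5, c6, hx, hy, hw, hx', hy', hw',
            hxy, hxw, hyw, hyx, hwx, hwy]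
          try norm_num
        · simp [nm, h1, h2, h3, h4, h5, h6, c1, c2, c3, c4, c5, c6, hx, hy, hw, hx', hy', hw',
            hxy, hxw, hyw, hyx, hwx, hwy]
          try norm_num
    · simp [nm, h1, h2, c1, c2, hx, hy, hw, hx', hy', hw', hxy, hxw, hyw, hyx, hwx, hwy]

end Pool.Agent.Rdv
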