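import Pool.Agent.Lib.Rdv.Comb

namespace Pool.Agent.Rdv

open Equiv

variable {N : ℕ}

theorem ix_inj {i j : ℕ} (hi : i ≤ N) (hj : j ≤ N) (h : i ≠ j) : ix N i ≠ ix N j := by
  intro h'
  have := congrArg Fin.val h'
  rw [ix_val hi, ix_val hj] at this
  exact h this

theorem rot_ix {j : ℕ} (h : j < N) : finRotate (N + 1) (ix N j) = ix N (j + 1) := by
  rw [finRotate_apply]
  apply Fin.ext
  rw [Fin.val_add_one, if_neg, ix_val (by omega), ix_val (by omega)]
  intro h'
  have := congrArg Fin.val h'
  rw [ix_val (by omega)] at this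
  simp at this
  omega

theorem rot_last : finRotate (N + 1) (ix N N) = ix N 0 := by
  rw [finRotate_apply]
  apply Fin.ext
  rw [Fin.val_add_one, if_pos, ix_val (by omega)]
  apply Fin.ext
  rw [ix_val le_rfl]
  simp

/-- Derangements with a special 3-cycle are fewer than those with one special transition. -/
theorem bad_lt_good (hN : 4 ≤ N) :
    (Finset.univ.filter fun τ : Perm (Fin (N + 1)) =>
      (∀ i, τ i ≠ i) ∧ BadC τ (ix N 0) (ix N 1) (ix N 2)).card <
    (Finset.univ.filter fun τ : Perm (Fin (N + 1)) =>
      (∀ i, τ i ≠ i) ∧ GoodC τ (ix N 0) (ix N 1) (ix N 2)).card := by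
  have h01 : ix N 0 ≠ ix N 1 := ix_inj (by omega) (by omega) (by omega)
  have h02 : ix N 0 ≠ ix N 2 := ix_inj (by omega) (by omega) (by omega)
  have h03 : ix N 0 ≠ ix N 3 := ix_inj (by omega) (by omega) (by omega)
  have h04 : ix N 0 ≠ ix N 4 := ix_inj (by omega) (by omega) (by omega)
  have h12 : ix N 1 ≠ ix N 2 := ix_inj (by omega) (by omega) (by omega)
  have h13 : ix N 1 ≠ ix N 3 := ix_inj (by omega) (by omega) (by omega)
  have h14 : ix N 1 ≠ ix N 4 := ix_inj (by omega) (by omega) (by omega)
  have h23 : ix N 2 ≠ ix N 3 := ix_inj (by omega) (by omega) (by omega)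
  have h24 : ix N 2 ≠ ix N 4 := ix_inj (by omega) (by omega) (by omega)
  have h34 : ix N 3 ≠ ix N 4 := ix_inj (by omega) (by omega) (by omega)
  set c : Perm (Fin (N + 1)) := Equiv.swap (ix N 2) (ix N 3) with hc
  have c0 : c (ix N 0) = ix N 0 := Equiv.swap_apply_of_ne_of_ne h02 h03
  have c1 : c (ix N 1) = ix N 1 := Equiv.swap_apply_of_ne_of_ne h12 h13
  have c2 : c (ix N 2) = ix N 3 := Equiv.swap_apply_left _ _
  have c3 : c (ix N 3) = ix N 2 := Equiv.swap_apply_right _ _
  have c4 : c (ix N 4) = ix N 4 := Equiv.swap_apply_of_ne_of_ne h24.symm h34.symm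
  have cc : ∀ i, c (c i) = i := fun i => by rw [hc]; simp
  have hcc : c * c = 1 := Equiv.ext fun i => cc i
  have hinj : Function.Injective (fun τ : Perm (Fin (N + 1)) => c * τ * c) := by
    intro τ τ' h
    have h1 : c * (c * τ * c) * c = c * (c * τ' * c) * c := by
      simp only at h; rw [h]
    simpa [mul_assoc, hcc, ← mul_assoc c c] using h1
  rw [← Finset.card_image_of_injective _ hinj]
  apply Finset.card_lt_card
  set g : Perm (Fin (N + 1)) := Equiv.swap (ix N 2) (ix N 4) * finRotate (N + 1) with hg
  have g0 : g (ix N 0) = ix N 1 := by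
    rw [hg, Equiv.Perm.mul_apply, rot_ix (by omega), zero_add,
      Equiv.swap_apply_of_ne_of_ne h12 h14]
  have g1 : g (ix N 1) = ix N 4 := by
    rw [hg, Equiv.Perm.mul_apply, rot_ix (by omega)]
    exact Equiv.swap_apply_left _ _
  have g2 : g (ix N 2) = ix N 3 := by
    rw [hg, Equiv.Perm.mul_apply, rot_ix (by omega)]
    exact Equiv.swap_apply_of_ne_of_ne h23.symm h34
  rw [Finset.ssubset_iff_of_subset]
  · refine ⟨g, ?_, ?_⟩
    · simp only [Finset.mem_filter, Finset.mem_univ, true_and]
      refine ⟨?_, Or.inl ⟨g0, ?_, ?_, ?_⟩⟩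
      · intro i hi
        have hiN : i.val ≤ N := Nat.lt_succ_iff.mp i.isLt
        have hir : i = ix N i.val := (ix_eq i).symm
        by_cases hlast : i.val = N
        · rw [hir, hlast, hg, Equiv.Perm.mul_apply, rot_last,
            Equiv.swap_apply_of_ne_of_ne h02 h04] at hi
          exact ix_inj (by omega) le_rfl (by omega) hi
        · have h5 : finRotate (N + 1) i = ix N (i.val + 1) := by
            conv_lhs => rw [hir]
            exact rot_ix (by omega)
          rw [hg, Equiv.Perm.mul_apply, h5] at hi
          by_cases h6 : i.val + 1 = 2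
          · rw [h6, Equiv.swap_apply_left] at hi
            have h7 := congrArg Fin.val hi
            rw [ix_val (by omega)] at h7
            omega
          · by_cases h7 : i.val + 1 = 4
            · rw [h7, Equiv.swap_apply_right] at hi
              have h8 := congrArg Fin.val hi
              rw [ix_val (by omega)] at h8
              omega
            · rw [Equiv.swap_apply_of_ne_of_ne (ix_inj (by omega) (by omega) h6)
                (ix_inj (by omega) (by omega) h7)] at hi
              have h8 := congrArg Fin.val hi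
              rw [ix_val (by omega)] at h8
              omega
      · rw [g1]; exact h04.symm
      · rw [g1]; exact h24.symm
      · rw [g2]; exact h03.symm
    · simp only [Finset.mem_image, Finset.mem_filter, Finset.mem_univ, true_and, not_exists,
        not_and, and_imp]
      intro τ hτ hbad hτg
      have h1 : τ = c * g * c := by
        rw [← hτg]
        simp [mul_assoc, hcc, ← mul_assoc c c]
      have t1 : τ (ix N 1) = ix N 4 := by
        rw [h1, Equiv.Perm.mul_apply, Equiv.Perm.mul_apply, c1, g1, c4]
      rcases hbad with h | h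
      · rw [t1] at h; exact h24.symm h.2.1
      · rw [t1] at h; exact h04.symm h.1
  · intro τ' hτ'
    simp only [Finset.mem_image, Finset.mem_filter, Finset.mem_univ, true_and] at hτ' ⊢
    obtain ⟨τ, ⟨hd, hbad⟩, rfl⟩ := hτ'
    refine ⟨?_, ?_⟩
    · intro i hi
      rw [Equiv.Perm.mul_apply, Equiv.Perm.mul_apply] at hi
      apply hd (c i)
      have := congrArg c hi
      rwa [cc] at this
    · rcases hbad with ⟨b1, b2, b3⟩ | ⟨b1, b2, b3⟩
      · left
        simp only [Equiv.Perm.mul_apply, c0, c1, c2, b1, b2]
        refine ⟨trivial, h03.symm, h23.symm, ?_⟩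
        intro h
        have h5 : τ (ix N 3) = ix N 0 := by
          have := congrArg c h
          rwa [cc, c0] at this
        exact h23.symm (τ.injective (h5.trans b3.symm))
      · right
        simp only [Equiv.Perm.mul_apply, c0, c1, c2, b1, b2]
        refine ⟨trivial, h13.symm, h23.symm, ?_⟩
        intro h
        have h5 : τ (ix N 3) = ix N 1 := by
          have := congrArg c h
          rwa [cc, c1] at this
        exact h23.symm (τ.injective (h5.trans b3.symm))

end Pool.Agent.Rdv
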