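import Mathlib

/-!
# Symmetric rendezvous on `n` indistinguishable locations: definitions

Labels and locations are both `Fin n`. A history is the list of the labels a player has chosen
so far, most recent first.
-/

namespace Pool.Agent.Rdv

open Equiv
open scoped ENNReal

/-- A strategy on `n` labels: given the history `l` (labels chosen on the earlier days, most recent
first), the label `a` is chosen on the next day with probability `prob l a`. -/
structure Strategy (n : ℕ) where
  prob : List (Fin n) → Fin n → ℝ
  nonneg : ∀ l a, 0 ≤ prob l a
  sum_eq_one : ∀ l, ∑ a, prob l a = 1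

/-- The probability that two players, the first using `S` with labelling `σ₁` and history `l₁`, the
second using `S'` with labelling `σ₂` and history `l₂`, with independent randomisation, are at
different locations on each of the next `t` days. -/
noncomputable def miss {n : ℕ} (S S' : Strategy n) (σ₁ σ₂ : Perm (Fin n)) :
    ℕ → List (Fin n) → List (Fin n) → ℝ
  | 0, _, _ => 1
  | t + 1, l₁, l₂ => ∑ a, ∑ b, if σ₁ a = σ₂ b then 0 else
      S.prob l₁ a * S'.prob l₂ b * miss S S' σ₁ σ₂ t (a :: l₁) (b :: l₂)

/-- `P(T > t)` when both players use the strategy `S`: the labellings `σ₁`, `σ₂` are independent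
and uniformly random. -/
noncomputable def Strategy.survival {n : ℕ} (S : Strategy n) (t : ℕ) : ℝ :=
  (∑ σ₁ : Perm (Fin n), ∑ σ₂ : Perm (Fin n), miss S S σ₁ σ₂ t [] []) / (n.factorial : ℝ) ^ 2

/-- `E[T] = ∑_{t ≥ 0} P(T > t)` when both players use `S`. -/
noncomputable def Strategy.expectedTime {n : ℕ} (S : Strategy n) : ℝ≥0∞ :=
  ∑' t : ℕ, ENNReal.ofReal (S.survival t)

/-- The choice probabilities of the Anderson-Weber strategy. On day 1 (empty history) the label is
uniform. Afterwards let `c` be the current label, `j` the number of days already spent in the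
current block of `n - 1` days and `v` the list of the `j + 1` labels of the current block, base
label included.
* If `j = 0`, a block starts: stay at `c` with probability `1 - p`, go to each other label with
  probability `p / (n - 1)`.
* If `j > 0` and all labels in `v` are equal, the player is staying during this block: stay.
* Otherwise the player is touring: the next label is uniform among the labels not in `v`. -/
noncomputable def awProb (n : ℕ) (p : ℝ) : List (Fin n) → Fin n → ℝ
  | [], _ => 1 / n
  | c :: l, a =>
    let j := l.length % (n - 1)
    let v := (c :: l).take (j + 1)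
    if j = 0 then (if a = c then 1 - p else p / ((n : ℝ) - 1))
    else if ∀ b ∈ v, b = c then (if a = c then 1 else 0)
    else if a ∈ v then 0 else 1 / ((n : ℝ) - v.toFinset.card)

theorem awProb_nonneg (n : ℕ) (hn : 2 ≤ n) (p : ℝ) (hp0 : 0 ≤ p) (hp1 : p ≤ 1)
    (l : List (Fin n)) (a : Fin n) : 0 ≤ awProb n p l a := by
  have hn' : (2 : ℝ) ≤ n := by exact_mod_cast hn
  cases l with
  | nil => simp only [awProb]; positivity
  | cons c l =>
    simp only [awProb]
    split_ifs
    · linarith
    · apply div_nonneg hp0; linarith
    · norm_num
    · norm_num
    · exact le_rfl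
    · apply div_nonneg zero_le_one
      have : ((c :: l).take (l.length % (n - 1) + 1)).toFinset.card ≤ n := by
        simpa using Finset.card_le_univ ((c :: l).take (l.length % (n - 1) + 1)).toFinset
      have h' : ((((c :: l).take (l.length % (n - 1) + 1)).toFinset.card : ℕ) : ℝ) ≤ n := by
        exact_mod_cast this
      linarith

theorem awProb_sum (n : ℕ) (hn : 2 ≤ n) (p : ℝ)
    (l : List (Fin n)) : ∑ a, awProb n p l a = 1 := by
  have hn' : (2 : ℝ) ≤ n := by exact_mod_cast hn
  cases l with
  | nil => simp only [awProb]; simp; field_simp
  | cons c l =>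
    simp only [awProb]
    split_ifs with h1 h2
    · rw [← Finset.add_sum_erase _ _ (Finset.mem_univ c), if_pos rfl]
      rw [Finset.sum_congr rfl (g := fun _ => p / ((n : ℝ) - 1))]
      · rw [Finset.sum_const, Finset.card_erase_of_mem (Finset.mem_univ c)]
        simp only [Finset.card_univ, Fintype.card_fin, nsmul_eq_mul]
        rw [Nat.cast_sub (by omega)]
        have : (n : ℝ) - 1 ≠ 0 := by linarith
        push_cast
        field_simp
        ring
      · intro x hx
        rw [if_neg (Finset.ne_of_mem_erase hx)]
    · simp
    · set v := (c :: l).take (l.length % (n - 1) + 1) with hv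
      have hlen : v.toFinset.card ≤ n - 1 := by
        refine (List.toFinset_card_le v).trans ?_
        rw [hv]
        refine (List.length_take_le _ _).trans ?_
        have := Nat.mod_lt l.length (show 0 < n - 1 by omega)
        omega
      have hcard : (v.toFinsetᶜ).card = n - v.toFinset.card := by
        rw [Finset.card_compl]; simp
      have h3 : ∑ a, (if a ∈ v then 0 else 1 / ((n : ℝ) - v.toFinset.card)) =
          ∑ a ∈ v.toFinsetᶜ, 1 / ((n : ℝ) - v.toFinset.card) := by
        rw [← Finset.sum_filter_add_sum_filter_not Finset.univ (fun a => a ∈ v)]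
        rw [Finset.sum_eq_zero (s := Finset.univ.filter (fun a => a ∈ v)), zero_add]
        · apply Finset.sum_congr
          · ext a; simp
          · intro x hx
            simp at hx
            rw [if_neg hx]
        · intro x hx
          simp at hx
          rw [if_pos hx]
      rw [h3, Finset.sum_const, hcard, nsmul_eq_mul, Nat.cast_sub (by omega)]
      have : (n : ℝ) - v.toFinset.card ≠ 0 := by
        have h5 : ((v.toFinset.card : ℕ) : ℝ) ≤ ((n - 1 : ℕ) : ℝ) := by exact_mod_cast hlen
        rw [Nat.cast_sub (by omega)] at h5
        push_cast at h5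
        linarith
      field_simp

/-- The Anderson-Weber strategy `AW(n)` with parameter `p`. -/
noncomputable def AW (n : ℕ) (hn : 2 ≤ n) (p : ℝ) (hp0 : 0 ≤ p) (hp1 : p ≤ 1) : Strategy n where
  prob := awProb n p
  nonneg := awProb_nonneg n hn p hp0 hp1
  sum_eq_one := awProb_sum n hn p

end Pool.Agent.Rdv
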