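import Pool.Agent.Lib.Rdv.Paths

namespace Pool.Agent.Rdv

open Equiv
open scoped ENNReal

variable {N : ℕ}

/-! ### The paths are tours -/

theorem Rp_succ {j : ℕ} (h : j < N) : Rp N (ix N (j + 1)) = ix N j := by
  rw [Rp, ← rot_ix h]; simp

theorem Rp_zero : Rp N (ix N 0) = ix N N := by
  rw [Rp, ← rot_last]; simp

theorem Sp_succ {j : ℕ} (h : j + 1 < N) : Sp N (ix N (j + 1)) = ix N j := by
  rw [Sp, Equiv.Perm.mul_apply, Rp_succ (by omega), Equiv.swap_apply_of_ne_of_ne]
  · exact ix_inj (by omega) (by omega) (by omega)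
  · exact ix_inj (by omega) (by omega) (by omega)

theorem Sp_last (hN : 1 ≤ N) : Sp N (ix N N) = ix N N := by
  obtain ⟨M, rfl⟩ : ∃ M, N = M + 1 := ⟨N - 1, by omega⟩
  rw [Sp, Equiv.Perm.mul_apply, Rp_succ (by omega)]
  exact Equiv.swap_apply_left _ _

theorem Sp_zero : Sp N (ix N 0) = ix N (N - 1) := by
  rw [Sp, Equiv.Perm.mul_apply, Rp_zero]
  exact Equiv.swap_apply_right _ _

/-- The permutations of the special points in block 2. -/
def rhoP (N : ℕ) : Fin 2 → Perm (Fin (N + 1)) := ![1, Equiv.swap (ix N 0) (ix N 1)]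

/-- The permutations of the special points in block 3. -/
def kapP (N : ℕ) : Fin 4 → Perm (Fin (N + 1)) :=
  ![1, Equiv.swap (ix N 0) (ix N 1), Equiv.swap (ix N 1) (ix N 2),
    Equiv.swap (ix N 0) (ix N 1) * Equiv.swap (ix N 1) (ix N 2)]

theorem rhoP_fix (i : Fin 2) (j : ℕ) (h3 : 3 ≤ j) (hj : j ≤ N) :
    rhoP N i (ix N j) = ix N j := by
  fin_cases i
  · rfl
  · exact Equiv.swap_apply_of_ne_of_ne (ix_inj hj (by omega) (by omega))
      (ix_inj hj (by omega) (by omega))

theorem kapP_fix (k : Fin 4) (j : ℕ) (h3 : 3 ≤ j) (hj : j ≤ N) :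
    kapP N k (ix N j) = ix N j := by
  have h0 : ix N j ≠ ix N 0 := ix_inj hj (by omega) (by omega)
  have h1 : ix N j ≠ ix N 1 := ix_inj hj (by omega) (by omega)
  have h2 : ix N j ≠ ix N 2 := ix_inj hj (by omega) (by omega)
  fin_cases k
  · rfl
  · exact Equiv.swap_apply_of_ne_of_ne h0 h1
  · exact Equiv.swap_apply_of_ne_of_ne h1 h2
  · change (Equiv.swap (ix N 0) (ix N 1) * Equiv.swap (ix N 1) (ix N 2)) (ix N j) = ix N j
    rw [Equiv.Perm.mul_apply, Equiv.swap_apply_of_ne_of_ne h1 h2,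
      Equiv.swap_apply_of_ne_of_ne h0 h1]

theorem seg_congr (e e' : Perm (Fin (N + 1))) (k : ℕ) : ∀ j,
    (∀ i, j < i → i ≤ j + k → e (ix N i) = e' (ix N i)) → seg e j k = seg e' j k := by
  induction k with
  | zero => intro j _; rfl
  | succ k ih =>
    intro j h
    simp only [seg]
    rw [h (j + 1) (by omega) (by omega), ih (j + 1) (fun i h1 h2 => h i (by omega) (by omega))]

theorem seg_three (hN : 3 ≤ N) (e : Perm (Fin (N + 1))) :
    seg e 0 N = [e (ix N 1), e (ix N 2), e (ix N 3)] ++ seg e 3 (N - 3) := by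
  have : seg e 0 N = seg e 0 ((N - 3) + 3) := by rw [Nat.sub_add_cancel hN]
  rw [this]
  rfl

theorem seg_rho (hN : 4 ≤ N) (i : Fin 2) :
    rl (ix N 0) (ix N 1) (ix N 2) i ++ Bpart N = seg (rhoP N i * Rp N) 0 N := by
  have h01 : ix N 0 ≠ ix N 1 := ix_inj (by omega) (by omega) (by omega)
  have h02 : ix N 0 ≠ ix N 2 := ix_inj (by omega) (by omega) (by omega)
  have h12 : ix N 1 ≠ ix N 2 := ix_inj (by omega) (by omega) (by omega)
  rw [seg_three (by omega)]
  congr 1
  · simp only [Equiv.Perm.mul_apply]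
    rw [Rp_succ (j := 0) (by omega), Rp_succ (j := 1) (by omega), Rp_succ (j := 2) (by omega)]
    fin_cases i
    · rfl
    · simp [rl, rhoP, Equiv.swap_apply_of_ne_of_ne h02.symm h12.symm]
  · rw [Bpart]
    apply seg_congr
    intro j h1 h2
    obtain ⟨m, rfl⟩ : ∃ m, j = m + 1 := ⟨j - 1, by omega⟩
    rw [Equiv.Perm.mul_apply, Rp_succ (by omega), rhoP_fix i m (by omega) (by omega)]

theorem seg_kap (hN : 4 ≤ N) (k : Fin 4) :
    kl (ix N 0) (ix N 1) (ix N 2) k ++ Cpart N = seg (kapP N k * Sp N) 0 N := by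
  have h01 : ix N 0 ≠ ix N 1 := ix_inj (by omega) (by omega) (by omega)
  have h02 : ix N 0 ≠ ix N 2 := ix_inj (by omega) (by omega) (by omega)
  have h12 : ix N 1 ≠ ix N 2 := ix_inj (by omega) (by omega) (by omega)
  rw [seg_three (by omega)]
  congr 1
  · simp only [Equiv.Perm.mul_apply]
    rw [Sp_succ (j := 0) (by omega), Sp_succ (j := 1) (by omega), Sp_succ (j := 2) (by omega)]
    fin_cases k
    · rfl
    · simp [kl, kapP, Equiv.swap_apply_of_ne_of_ne h02.symm h12.symm]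
    · simp [kl, kapP, Equiv.swap_apply_of_ne_of_ne h01 h02]
    · simp [kl, kapP, Equiv.swap_apply_of_ne_of_ne h01 h02,
        Equiv.swap_apply_of_ne_of_ne h02.symm h12.symm]
  · rw [Cpart]
    apply seg_congr
    intro j h1 h2
    obtain ⟨m, rfl⟩ : ∃ m, j = m + 1 := ⟨j - 1, by omega⟩
    rw [Equiv.Perm.mul_apply]
    by_cases hm : m + 1 = N
    · rw [hm, Sp_last (by omega), kapP_fix k N (by omega) le_rfl]
    · rw [Sp_succ (by omega), kapP_fix k m (by omega) (by omega)]

theorem qp_eq (hN : 4 ≤ N) (i : Fin 2 × Fin 4) :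
    qp N i = ix N 0 :: (seg 1 0 N ++ (seg (rhoP N i.1 * Rp N) 0 N ++
      (seg (kapP N i.2 * Sp N) 0 N ++ []))) := by
  rw [qp, seg_rho hN, seg_kap hN, Apart]
  simp

theorem zero_eq_ix : (0 : Fin (N + 1)) = ix N 0 := by
  apply Fin.ext; rw [ix_val (by omega)]; simp

theorem last_eq_ix : Fin.last N = ix N N := by
  apply Fin.ext; rw [ix_val (by omega)]; simp

theorem chain_one (hN : 4 ≤ N) (i : Fin 2) :
    (rhoP N i * Rp N) 0 = (1 : Perm (Fin (N + 1))) (Fin.last N) := by
  rw [zero_eq_ix, last_eq_ix, Equiv.Perm.mul_apply, Rp_zero, rhoP_fix i N (by omega) le_rfl]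
  rfl

theorem chain_two (hN : 4 ≤ N) (i : Fin 2) (k : Fin 4) :
    (kapP N k * Sp N) 0 = (rhoP N i * Rp N) (Fin.last N) := by
  obtain ⟨M, rfl⟩ : ∃ M, N = M + 1 := ⟨N - 1, by omega⟩
  rw [zero_eq_ix, last_eq_ix, Equiv.Perm.mul_apply, Equiv.Perm.mul_apply, Sp_zero,
    Rp_succ (by omega), Nat.add_sub_cancel, kapP_fix k M (by omega) (by omega),
    rhoP_fix i M (by omega) (by omega)]

/-! ### First order -/

theorem avo_take_const (hN : 4 ≤ N) (p : ℝ) (t : ℕ) (i j : Fin 2 × Fin 4) :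
    avo N p ((qp N i).take t) [] = avo N p ((qp N j).take t) [] := by
  cases t with
  | zero => simp
  | succ t =>
    rw [qp_eq hN, qp_eq hN, List.take_succ_cons, List.take_succ_cons]
    have h1 : ∀ r : List (Fin (N + 1)), avo N p (ix N 0 :: r) [] =
        1 / ((N + 1 : ℕ) : ℝ) * Msum N p r (ix N 0) := by
      intro r
      simp only [avo, av, Msum, Finset.mul_sum, awProb]
      refine Finset.sum_congr rfl fun b _ => ?_
      split_ifs <;> simp
    rw [h1, h1]
    congr 1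
    have h2 := Msum_three (by omega) p 1 (rhoP N i.1 * Rp N) (kapP N i.2 * Sp N) 1
      (rhoP N j.1 * Rp N) (kapP N j.2 * Sp N) (chain_one hN _) (chain_two hN _ _)
      (chain_one hN _) (chain_two hN _ _) t
    rw [Equiv.Perm.one_apply, zero_eq_ix] at h2
    exact h2

theorem qp_length (hN : 4 ≤ N) (i : Fin 2 × Fin 4) : (qp N i).length = 3 * N + 1 := by
  rw [qp_eq hN]
  simp [seg_length]
  ring

theorem qp_ne_nil (hN : 4 ≤ N) (i : Fin 2 × Fin 4) : qp N i ≠ [] := by
  intro h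
  have := qp_length hN i
  rw [h] at this
  simp at this

theorem qp_dropLast_length (hN : 4 ≤ N) (i : Fin 2 × Fin 4) :
    (qp N i).dropLast.length = 3 * N := by
  rw [List.length_dropLast, qp_length hN]; omega

theorem D_first_const (hN : 4 ≤ N) (hN' : 2 ≤ N + 1) (p : ℝ) (hp0 : 0 ≤ p) (hp1 : p ≤ 1) (t : ℕ)
    (i j : Fin 2 × Fin 4) :
    D (follow (qp N i) (AW (N + 1) hN' p hp0 hp1)).path (AW (N + 1) hN' p hp0 hp1).path t =
    D (follow (qp N j) (AW (N + 1) hN' p hp0 hp1)).path (AW (N + 1) hN' p hp0 hp1).path t := by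
  rcases Nat.lt_or_ge (3 * N + 1) t with h | h
  · obtain ⟨s, rfl⟩ : ∃ s, t = 3 * N + 1 + s := ⟨t - (3 * N + 1), by omega⟩
    have h1 : ∀ i, D (follow (qp N i) (AW (N + 1) hN' p hp0 hp1)).path
        (AW (N + 1) hN' p hp0 hp1).path (3 * N + 1 + s) =
        qs hN' p hp0 hp1 s * avo N p (qp N i) [] := by
      intro i
      have h2 := D_follow_AW_ge hN' p hp0 hp1 (qp N i).dropLast ((qp N i).getLast (qp_ne_nil hN i))
        (by rw [qp_dropLast_length hN]; simp) s
      rw [List.dropLast_append_getLast (qp_ne_nil hN i), qp_dropLast_length hN] at h2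
      exact h2
    rw [h1, h1]
    have h3 := avo_take_const hN p (3 * N + 1) i j
    rw [List.take_of_length_le (by rw [qp_length hN]),
      List.take_of_length_le (by rw [qp_length hN])] at h3
    rw [h3]
  · rw [D_follow_AW_le hN' p hp0 hp1 _ t (by rw [qp_length hN]; exact h),
      D_follow_AW_le hN' p hp0 hp1 _ t (by rw [qp_length hN]; exact h)]
    exact avo_take_const hN p t i j

/-! ### Second order -/

/-- The weights of the perturbation. -/
noncomputable def zw (i : Fin 2 × Fin 4) : ℝ := fs i.1 * gs i.2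

theorem zw_sum : ∑ i, zw i = 0 := by
  simp only [zw, Fintype.sum_prod_type, Fin.sum_univ_two, Fin.sum_univ_four, fs, gs]
  simp

theorem quad_le (hN : 4 ≤ N) (S : Strategy (N + 1)) (t : ℕ) (ht : t ≤ 3 * N + 1) :
    ∑ i, ∑ j, zw i * zw j * D (follow (qp N i) S).path (follow (qp N j) S).path t =
      (∑ τ : Perm (Fin (N + 1)), W N t τ) / ((N + 1).factorial : ℝ) := by
  have h1 : ∀ i j, D (follow (qp N i) S).path (follow (qp N j) S).path t =
      (∑ τ : Perm (Fin (N + 1)), nm (((qp N i).take t).map τ) ((qp N j).take t)) /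
        ((N + 1).factorial : ℝ) := fun i j =>
    D_follow_follow_le S _ _ (by rw [qp_length hN, qp_length hN]) t
      (by rw [qp_length hN]; exact ht)
  simp only [h1, W]
  rw [Finset.sum_comm (s := (Finset.univ : Finset (Perm (Fin (N + 1)))))]
  rw [Finset.sum_div]
  refine Finset.sum_congr rfl fun i _ => ?_
  rw [Finset.sum_comm (s := (Finset.univ : Finset (Perm (Fin (N + 1)))))]
  rw [Finset.sum_div]
  refine Finset.sum_congr rfl fun j _ => ?_
  rw [← Finset.mul_sum, mul_div_assoc]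
  rfl

theorem quad_ge (hN : 4 ≤ N) (hN' : 2 ≤ N + 1) (p : ℝ) (hp0 : 0 ≤ p) (hp1 : p ≤ 1) (s : ℕ) :
    ∑ i, ∑ j, zw i * zw j * D (follow (qp N i) (AW (N + 1) hN' p hp0 hp1)).path
      (follow (qp N j) (AW (N + 1) hN' p hp0 hp1)).path (3 * N + 1 + s) =
      qs hN' p hp0 hp1 s *
        ((∑ τ : Perm (Fin (N + 1)), W N (3 * N + 1) τ) / ((N + 1).factorial : ℝ)) := by
  rw [← quad_le hN (AW (N + 1) hN' p hp0 hp1) (3 * N + 1) le_rfl, Finset.mul_sum]
  refine Finset.sum_congr rfl fun i _ => ?_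
  rw [Finset.mul_sum]
  refine Finset.sum_congr rfl fun j _ => ?_
  have h1 := D_follow_follow_ge hN' p hp0 hp1 (qp N i).dropLast (qp N j).dropLast
    ((qp N i).getLast (qp_ne_nil hN i)) ((qp N j).getLast (qp_ne_nil hN j))
    (by rw [qp_dropLast_length hN]; simp)
    (by rw [qp_dropLast_length hN, qp_dropLast_length hN]) s
  rw [List.dropLast_append_getLast (qp_ne_nil hN i),
    List.dropLast_append_getLast (qp_ne_nil hN j), qp_dropLast_length hN] at h1
  rw [h1, D_follow_follow_le _ _ _ (by rw [qp_length hN, qp_length hN]) _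
    (by rw [qp_length hN]), List.take_of_length_le (by rw [qp_length hN]),
    List.take_of_length_le (by rw [qp_length hN])]
  ring

theorem cm_nonneg (m : ℕ) : 0 ≤ cm m := by
  unfold cm; split_ifs <;> norm_num

theorem sumW_le (hN : 4 ≤ N) (t : ℕ) :
    ∑ τ : Perm (Fin (N + 1)), W N t τ ≤ 0 := by
  rcases Nat.lt_or_ge (N + 1) t with h | h
  · rcases Nat.lt_or_ge (2 * N + 1) t with h2 | h2
    · obtain ⟨m, rfl⟩ : ∃ m, t = 2 * N + 1 + m := ⟨t - (2 * N + 1), by omega⟩
      rw [sum_W_late hN]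
      exact mul_nonpos_of_nonneg_of_nonpos (cm_nonneg m) (defect_neg hN).le
    · obtain ⟨m, rfl⟩ : ∃ m, t = N + 1 + m := ⟨t - (N + 1), by omega⟩
      simp [W_mid hN _ m (by omega)]
  · simp [W_early _ t h]

theorem quad_nonpos (hN : 4 ≤ N) (hN' : 2 ≤ N + 1) (p : ℝ) (hp0 : 0 ≤ p) (hp1 : p ≤ 1) (t : ℕ) :
    ∑ i, ∑ j, zw i * zw j * D (follow (qp N i) (AW (N + 1) hN' p hp0 hp1)).path
      (follow (qp N j) (AW (N + 1) hN' p hp0 hp1)).path t ≤ 0 := by
  rcases Nat.lt_or_ge (3 * N + 1) t with h | h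
  · obtain ⟨s, rfl⟩ : ∃ s, t = 3 * N + 1 + s := ⟨t - (3 * N + 1), by omega⟩
    rw [quad_ge hN]
    exact mul_nonpos_of_nonneg_of_nonpos (qs_nonneg _ _ _ _ _)
      (div_nonpos_of_nonpos_of_nonneg (sumW_le hN _) (by positivity))
  · rw [quad_le hN _ t h]
    exact div_nonpos_of_nonpos_of_nonneg (sumW_le hN _) (by positivity)

theorem quad_neg (hN : 4 ≤ N) (hN' : 2 ≤ N + 1) (p : ℝ) (hp0 : 0 ≤ p) (hp1 : p ≤ 1) :
    ∑ i, ∑ j, zw i * zw j * D (follow (qp N i) (AW (N + 1) hN' p hp0 hp1)).path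
      (follow (qp N j) (AW (N + 1) hN' p hp0 hp1)).path (2 * N + 3) < 0 := by
  rw [quad_le hN _ _ (by omega), show 2 * N + 3 = 2 * N + 1 + 2 by ring, sum_W_late hN]
  apply div_neg_of_neg_of_pos _ (by positivity)
  have := defect_neg hN
  have h2 : cm 2 = 2 := by simp [cm]
  rw [h2]
  linarith

/-! ### Domination -/

theorem seg_reverse_last (hN : 1 ≤ N) (e : Perm (Fin (N + 1))) :
    (seg e 0 N).reverse = e (Fin.last N) :: (seg e 0 (N - 1)).reverse := by
  have seg_snoc : ∀ (k i : ℕ), seg e i (k + 1) = seg e i k ++ [e (ix N (i + k + 1))] := by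
    intro k
    induction k with
    | zero => intro i; simp [seg]
    | succ k ih =>
      intro i
      rw [seg, ih (i + 1)]
      rw [show i + 1 + k + 1 = i + (k + 1) + 1 by ring]
      simp [seg]
  obtain ⟨M, rfl⟩ : ∃ M, N = M + 1 := ⟨N - 1, by omega⟩
  rw [seg_snoc M 0, List.reverse_append, List.reverse_singleton, List.singleton_append, zero_add,
    Nat.add_sub_cancel, last_eq_ix]

theorem path_qp_pos (hN : 4 ≤ N) (hN' : 2 ≤ N + 1) (p : ℝ) (hp0 : 0 ≤ p) (hp1 : p ≤ 1)
    (hp : 0 < p) (i : Fin 2 × Fin 4) :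
    0 < (AW (N + 1) hN' p hp0 hp1).path (qp N i).reverse := by
  rw [qp_eq hN]
  set e₁ : Perm (Fin (N + 1)) := 1 with he₁
  set e₂ : Perm (Fin (N + 1)) := rhoP N i.1 * Rp N with he₂
  set e₃ : Perm (Fin (N + 1)) := kapP N i.2 * Sp N with he₃
  have h0 : 0 < (AW (N + 1) hN' p hp0 hp1).path (e₁ 0 :: []) := by
    simp only [Strategy.path, AW, awProb]
    positivity
  have h1 := path_seg_pos (by omega) p hp0 hp1 hp e₁ [] (by simp) h0 N le_rfl
  rw [seg_reverse_last (by omega), List.cons_append, ← chain_one hN i.1, ← he₂] at h1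
  have h2 := path_seg_pos (by omega) p hp0 hp1 hp e₂ _ (by
    simp only [List.length_append, List.length_reverse, seg_length, List.length_cons,
      List.length_nil]
    rw [show N - 1 + (0 + 1) = N by omega]; simp) h1 N le_rfl
  rw [seg_reverse_last (by omega), List.cons_append, ← chain_two hN i.1 i.2, ← he₃] at h2
  have h3 := path_seg_pos (by omega) p hp0 hp1 hp e₃ _ (by
    simp only [List.length_append, List.length_reverse, seg_length, List.length_cons,
      List.length_nil]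
    rw [show N - 1 + (N - 1 + (0 + 1) + 1) = 2 * N by omega]; simp) h2 N le_rfl
  have h4 : (ix N 0 :: (seg e₁ 0 N ++ (seg e₂ 0 N ++ (seg e₃ 0 N ++ [])))).reverse =
      (seg e₃ 0 N).reverse ++ e₃ 0 :: ((seg e₂ 0 (N - 1)).reverse ++ e₂ 0 ::
        ((seg e₁ 0 (N - 1)).reverse ++ e₁ 0 :: [])) := by
    have h5 : (seg e₁ 0 N).reverse = e₂ 0 :: (seg e₁ 0 (N - 1)).reverse := by
      rw [seg_reverse_last (by omega), ← chain_one hN i.1]
    have h6 : (seg e₂ 0 N).reverse = e₃ 0 :: (seg e₂ 0 (N - 1)).reverse := by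
      rw [seg_reverse_last (by omega), ← chain_two hN i.1 i.2]
    simp only [List.append_nil, List.reverse_cons, List.reverse_append, h5, h6]
    simp [he₁, zero_eq_ix]
  rw [h4]
  exact h3

/-- The improved strategy. -/
theorem exists_better (hN : 4 ≤ N) (hN' : 2 ≤ N + 1) (p : ℝ) (hp0 : 0 ≤ p) (hp1 : p ≤ 1)
    (hp : 0 < p) : ∃ S : Strategy (N + 1),
      (∀ t, S.survival t ≤ (AW (N + 1) hN' p hp0 hp1).survival t) ∧
      S.survival (2 * N + 3) < (AW (N + 1) hN' p hp0 hp1).survival (2 * N + 3) := by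
  set c : ℝ := Finset.univ.inf' Finset.univ_nonempty
    (fun i : Fin 2 × Fin 4 => (AW (N + 1) hN' p hp0 hp1).path (qp N i).reverse) with hc
  have hc0 : 0 < c := by
    rw [hc, Finset.lt_inf'_iff]
    intro i _
    exact path_qp_pos hN hN' p hp0 hp1 hp i
  obtain ⟨ε, hε, S, hS⟩ := perturb (AW (N + 1) hN' p hp0 hp1)
    (fun i => follow (qp N i) (AW (N + 1) hN' p hp0 hp1)) zw zw_sum c hc0 (by
      intro i l
      refine le_trans ?_ (follow_dom (qp N i) (AW (N + 1) hN' p hp0 hp1) l)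
      apply mul_le_mul_of_nonneg_right _ (Strategy.path_nonneg _ _)
      exact Finset.inf'_le _ (Finset.mem_univ i))
  have hfirst : ∀ t, ∑ i, zw i * D (follow (qp N i) (AW (N + 1) hN' p hp0 hp1)).path
      (AW (N + 1) hN' p hp0 hp1).path t = 0 := by
    intro t
    rw [Finset.sum_congr rfl fun i _ => by
      rw [D_first_const hN hN' p hp0 hp1 t i (0, 0)], ← Finset.sum_mul, zw_sum, zero_mul]
  refine ⟨S, fun t => ?_, ?_⟩
  · rw [hS, hfirst]
    have := quad_nonpos hN hN' p hp0 hp1 t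
    have h2 : 0 < ε ^ 2 := by positivity
    nlinarith
  · rw [hS, hfirst]
    have := quad_neg hN hN' p hp0 hp1
    have h2 : 0 < ε ^ 2 := by positivity
    nlinarith

theorem survival_nonneg {n : ℕ} (S : Strategy n) (t : ℕ) : 0 ≤ S.survival t := by
  unfold Strategy.survival
  apply div_nonneg _ (by positivity)
  exact Finset.sum_nonneg fun _ _ => Finset.sum_nonneg fun _ _ => miss_nonneg _ _ _ _ _ _ _

/-! ### Finiteness of the value -/

/-- The strategy that chooses a uniform label every day. -/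
noncomputable def unif (n : ℕ) (hn : 1 ≤ n) : Strategy n where
  prob _ _ := 1 / n
  nonneg _ _ := by positivity
  sum_eq_one _ := by
    have : (n : ℝ) ≠ 0 := by positivity
    simp [this]

theorem miss_const_sum {n : ℕ} (σ₁ σ₂ : Perm (Fin n)) (x : ℝ) :
    ∑ a : Fin n, ∑ b : Fin n, (if σ₁ a = σ₂ b then 0 else x) = (n : ℝ) * ((n : ℝ) - 1) * x := by
  have h1 : ∀ a : Fin n, ∑ b : Fin n, (if σ₁ a = σ₂ b then 0 else x) = ((n : ℝ) - 1) * x := by
    intro a
    have h2 : ∀ b : Fin n, (if σ₁ a = σ₂ b then 0 else x) =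
        x - (if b = σ₂⁻¹ (σ₁ a) then x else 0) := by
      intro b
      by_cases h : σ₁ a = σ₂ b
      · rw [if_pos h, if_pos (by rw [h]; simp)]; ring
      · rw [if_neg h, if_neg (by rintro rfl; simp at h)]; ring
    rw [Finset.sum_congr rfl fun b _ => h2 b, Finset.sum_sub_distrib]
    simp
    ring
  rw [Finset.sum_congr rfl fun a _ => h1 a]
  simp
  ring

theorem unif_survival (n : ℕ) (hn : 1 ≤ n) (t : ℕ) :
    (unif n hn).survival t = (1 - 1 / (n : ℝ)) ^ t := by
  have hn0 : (n : ℝ) ≠ 0 := by positivity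
  have h : ∀ σ₁ σ₂ : Perm (Fin n), ∀ l₁ l₂,
      miss (unif n hn) (unif n hn) σ₁ σ₂ t l₁ l₂ = (1 - 1 / (n : ℝ)) ^ t := by
    intro σ₁ σ₂
    induction t with
    | zero => intro l₁ l₂; simp [miss]
    | succ t ih =>
      intro l₁ l₂
      have hprob : ∀ l a, (unif n hn).prob l a = 1 / n := fun _ _ => rfl
      simp only [miss, ih, hprob]
      rw [miss_const_sum, pow_succ]
      generalize (1 - 1 / (n : ℝ)) ^ t = X
      field_simp
  unfold Strategy.survival
  simp only [h]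
  exact sum_perm_const _

/-! ### The case `p = 0` -/

theorem awProb_zero_replicate (N k : ℕ) (a b : Fin (N + 1)) :
    awProb (N + 1) 0 (List.replicate (k + 1) a) b = if b = a then 1 else 0 := by
  rw [List.replicate_succ]
  simp only [awProb]
  split_ifs with h1 h2 h3 h4 h5 h6
  · norm_num
  · simp
  · rfl
  · rfl
  all_goals
    exfalso
    apply h3
    intro x hx
    have hx' := List.mem_of_mem_take hx
    rw [← List.replicate_succ] at hx'
    exact List.eq_of_mem_replicate hx'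

theorem miss_zero (N : ℕ) (hN' : 2 ≤ N + 1) (σ₁ σ₂ : Perm (Fin (N + 1))) (a b : Fin (N + 1))
    (hab : σ₁ a ≠ σ₂ b) (t : ℕ) : ∀ k,
    miss (AW (N + 1) hN' 0 le_rfl zero_le_one) (AW (N + 1) hN' 0 le_rfl zero_le_one) σ₁ σ₂ t
      (List.replicate (k + 1) a) (List.replicate (k + 1) b) = 1 := by
  induction t with
  | zero => intro k; simp [miss]
  | succ t ih =>
    intro k
    simp only [miss]
    rw [Finset.sum_eq_single a, Finset.sum_eq_single b]
    · rw [if_neg hab]
      have h1 : miss (AW (N + 1) hN' 0 le_rfl zero_le_one) (AW (N + 1) hN' 0 le_rfl zero_le_one)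
          σ₁ σ₂ t (a :: List.replicate (k + 1) a) (b :: List.replicate (k + 1) b) = 1 :=
        ih (k + 1)
      rw [h1]
      simp [AW, awProb_zero_replicate]
    · intro b' _ hb'
      simp [AW, awProb_zero_replicate, hb']
    · intro h; exact absurd (Finset.mem_univ _) h
    · intro a' _ ha'
      simp [AW, awProb_zero_replicate, ha']
    · intro h; exact absurd (Finset.mem_univ _) h

theorem expectedTime_zero (N : ℕ) (hN : 1 ≤ N) (hN' : 2 ≤ N + 1) :
    (AW (N + 1) hN' 0 le_rfl zero_le_one).expectedTime = ⊤ := by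
  have hn2 : (1 : ℝ) ≤ N := by exact_mod_cast hN
  have h1 : ∀ t, (AW (N + 1) hN' 0 le_rfl zero_le_one).survival (t + 1) =
      (N : ℝ) / ((N : ℝ) + 1) := by
    intro t
    have h2 : ∀ σ₁ σ₂ : Perm (Fin (N + 1)),
        miss (AW (N + 1) hN' 0 le_rfl zero_le_one) (AW (N + 1) hN' 0 le_rfl zero_le_one) σ₁ σ₂
          (t + 1) [] [] = (N : ℝ) / ((N : ℝ) + 1) := by
      intro σ₁ σ₂
      simp only [miss]
      have h3 : ∀ a b : Fin (N + 1), (if σ₁ a = σ₂ b then 0 else
          (AW (N + 1) hN' 0 le_rfl zero_le_one).prob [] a *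
          (AW (N + 1) hN' 0 le_rfl zero_le_one).prob [] b *
          miss (AW (N + 1) hN' 0 le_rfl zero_le_one) (AW (N + 1) hN' 0 le_rfl zero_le_one) σ₁ σ₂
            t [a] [b]) = if σ₁ a = σ₂ b then 0 else
              (1 / ((N + 1 : ℕ) : ℝ)) * (1 / ((N + 1 : ℕ) : ℝ)) := by
        intro a b
        split_ifs with h
        · rfl
        · have h4 := miss_zero N hN' σ₁ σ₂ a b h t 0
          simp only [zero_add, List.replicate_one] at h4
          rw [h4]
          simp [AW, awProb]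
      simp only [h3]
      rw [miss_const_sum]
      push_cast
      field_simp
      ring
    unfold Strategy.survival
    simp only [h2]
    exact sum_perm_const _
  have h5 : ∑' _t : ℕ, ENNReal.ofReal ((N : ℝ) / ((N : ℝ) + 1)) = ⊤ := by
    apply ENNReal.tsum_const_eq_top_of_ne_zero
    rw [ne_eq, ENNReal.ofReal_eq_zero, not_le]
    positivity
  rw [eq_top_iff, ← h5]
  unfold Strategy.expectedTime
  calc ∑' _t : ℕ, ENNReal.ofReal ((N : ℝ) / ((N : ℝ) + 1))
      = ∑' t : ℕ, ENNReal.ofReal ((AW (N + 1) hN' 0 le_rfl zero_le_one).survival (t + 1)) := by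
        simp only [h1]
    _ ≤ ∑' t : ℕ, ENNReal.ofReal ((AW (N + 1) hN' 0 le_rfl zero_le_one).survival t) :=
        ENNReal.tsum_comp_le_tsum_of_injective (add_left_injective 1) _

end Pool.Agent.Rdv
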