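import Pool.Agent.Lib.Rdv.SurvLB

/-!
# `R_n ≥ 0.64 n`
-/

namespace Pool.Agent.Rdv

open Equiv
open scoped ENNReal

/-- The limiting lower bound, integrated. -/
noncomputable def Psi (v : ℝ) : ℝ :=
  v - v ^ 2 / 2 + 5 / 32 * v ^ 3 - 19 / 256 * v ^ 4 + 3 / 160 * v ^ 5 - 1 / 384 * v ^ 6

/-- The lower bound for `P(T > t)`, with `u = t / n` and `h = 1 / n`. -/
noncomputable def LBd (u h : ℝ) : ℝ :=
  1 - u + (u ^ 2 - u * h) * ((1 - u / 3) / 2 * (15 / 16 - 9 / 32 * (u * (1 - u / 3))))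

theorem quartic_one (u : ℝ) : 1 ≤ 64 - 120 * u + 95 * u ^ 2 - 36 * u ^ 3 + 7 * u ^ 4 := by
  nlinarith [sq_nonneg (u ^ 2 - 18 / 7 * u + 2), sq_nonneg (u - 1)]

theorem quartic_two (u : ℝ) : 1 ≤ 64 - 120 * u + 95 * u ^ 2 - 36 * u ^ 3 + 7 * u ^ 4 -
    2 / 15 * (30 - 57 * u + 36 * u ^ 2 - 10 * u ^ 3) := by
  nlinarith [sq_nonneg (u ^ 2 - 52 / 21 * u + 2), sq_nonneg (u - 1)]

theorem R_nonneg (u h : ℝ) (hu0 : 0 ≤ u) (hh0 : 0 ≤ h) (hh1 : h ≤ 1 / 5) :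
    0 ≤ 64 - 120 * u + 95 * u ^ 2 - 36 * u ^ 3 + 7 * u ^ 4 -
      2 / 3 * h * (30 - 57 * u + 36 * u ^ 2 - 10 * u ^ 3) +
      h ^ 2 * (57 - 72 * u + 30 * u ^ 2) / 6 - h ^ 3 * (72 - 60 * u) / 30 + h ^ 4 / 3 := by
  have h1 := quartic_one u
  have h2 := quartic_two u
  set p := 64 - 120 * u + 95 * u ^ 2 - 36 * u ^ 3 + 7 * u ^ 4 with hp
  set A := 30 - 57 * u + 36 * u ^ 2 - 10 * u ^ 3 with hA
  have h3 : 1 ≤ p - 2 / 3 * h * A := by
    have e : p - 2 / 3 * h * A = (1 - 5 * h) * p + 5 * h * (p - 2 / 15 * A) := by ring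
    rw [e]
    have h4 : (1 - 5 * h) * 1 ≤ (1 - 5 * h) * p := mul_le_mul_of_nonneg_left h1 (by linarith)
    have h5 : 5 * h * 1 ≤ 5 * h * (p - 2 / 15 * A) := mul_le_mul_of_nonneg_left h2 (by linarith)
    linarith
  have h4 : 0 ≤ h ^ 2 * (57 - 72 * u + 30 * u ^ 2) / 6 := by
    have : 0 ≤ 57 - 72 * u + 30 * u ^ 2 := by nlinarith [sq_nonneg (u - 6 / 5)]
    positivity
  have h5 : h ^ 3 * (72 - 60 * u) / 30 ≤ 1 := by
    have h6 : h ^ 3 ≤ (1 / 5) ^ 3 := pow_le_pow_left₀ hh0 hh1 3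
    have h7 : 0 ≤ h ^ 3 := by positivity
    nlinarith
  have h6 : 0 ≤ h ^ 4 / 3 := by positivity
  linarith

theorem termwise (u h : ℝ) (hu0 : 0 ≤ u) (hh0 : 0 < h) (hh1 : h ≤ 1 / 5) :
    (Psi (u + h) - Psi u) / h ≤ LBd u h := by
  rw [div_le_iff₀ hh0]
  have h1 := R_nonneg u h hu0 hh0.le hh1
  have h2 : LBd u h * h - (Psi (u + h) - Psi u) = h ^ 2 *
      (64 - 120 * u + 95 * u ^ 2 - 36 * u ^ 3 + 7 * u ^ 4 -
      2 / 3 * h * (30 - 57 * u + 36 * u ^ 2 - 10 * u ^ 3) +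
      h ^ 2 * (57 - 72 * u + 30 * u ^ 2) / 6 - h ^ 3 * (72 - 60 * u) / 30 + h ^ 4 / 3) / 128 := by
    unfold LBd Psi
    ring
  have h3 : 0 ≤ LBd u h * h - (Psi (u + h) - Psi u) := by
    rw [h2]; positivity
  linarith

theorem Psi_ge (v : ℝ) (h1 : 19 / 15 ≤ v) (h2 : v ≤ 7 / 5) : 16 / 25 ≤ Psi v := by
  obtain ⟨w, rfl⟩ : ∃ w, v = 19 / 15 + w := ⟨v - 19 / 15, by ring⟩
  have hw0 : 0 ≤ w := by linarith
  have hw1 : w ≤ 2 / 15 := by linarith
  have h3 : w ^ 2 ≤ 2 / 15 * w := by nlinarith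
  have h4 : w ^ 3 ≤ (2 / 15) ^ 2 * w := by
    have : w ^ 3 = w * w ^ 2 := by ring
    nlinarith
  have h5 : w ^ 4 ≤ (2 / 15) ^ 3 * w := by
    have : w ^ 4 = w * w ^ 3 := by ring
    nlinarith
  have h6 : w ^ 5 ≤ (2 / 15) ^ 4 * w := by
    have : w ^ 5 = w * w ^ 4 := by ring
    nlinarith
  have h7 : w ^ 6 ≤ (2 / 15) ^ 5 * w := by
    have : w ^ 6 = w * w ^ 5 := by ring
    nlinarith
  unfold Psi
  ring_nf
  ring_nf at h3 h4 h5 h6 h7
  nlinarith

/-- The lower bound in terms of `u` and `h`. -/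
theorem survival_ge_LBd {n : ℕ} (hn : 4 ≤ n) (S : Strategy n) (t : ℕ)
    (ht : (t : ℝ) * (3 * n - 2) ≤ 5 * (n : ℝ) ^ 2 - 6 * n) :
    LBd ((t : ℝ) / n) (1 / n) ≤ S.survival t := by
  have hn4 : (4 : ℝ) ≤ n := by exact_mod_cast hn
  have hn0 : (0 : ℝ) < n := by linarith
  rcases Nat.eq_zero_or_pos t with h0 | h0
  · subst h0
    have h1 : S.survival 0 = 1 := by
      unfold Strategy.survival
      simp only [miss]
      exact sum_perm_const 1
    rw [h1]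
    unfold LBd
    simp
  have ht0 : (0 : ℝ) ≤ t := Nat.cast_nonneg t
  have ht3 : (t : ℝ) ≤ 3 * n := by nlinarith
  set β : ℝ := (1 - (t : ℝ) / (3 * n)) / (n : ℝ) ^ 2 with hβ
  have hk : 0 ≤ 1 - (t : ℝ) / (3 * n) := by
    rw [sub_nonneg, div_le_one (by positivity)]; exact ht3
  have h1 := survival_ge (by omega : 3 ≤ n) S t h0 β (by positivity) (by
      have e : β * ((n : ℝ) * t) = ((t : ℝ) / n) * (1 - ((t : ℝ) / n) / 3) := by
        rw [hβ]; field_simp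
      rw [e]
      nlinarith [sq_nonneg ((t : ℝ) / n - 3 / 2)]) (by
      have hn2 : (0 : ℝ) < (n : ℝ) - 2 := by linarith
      have e : 1 - ((t : ℝ) - 2) / (3 * ((n : ℝ) - 2)) - β * (n * ((n : ℝ) - 1)) =
          (5 * (n : ℝ) ^ 2 - 6 * n - t * (3 * n - 2)) / (3 * (n : ℝ) ^ 2 * ((n : ℝ) - 2)) := by
        rw [hβ]; field_simp; ring
      have h2 : 0 ≤ (5 * (n : ℝ) ^ 2 - 6 * n - t * (3 * n - 2)) /
          (3 * (n : ℝ) ^ 2 * ((n : ℝ) - 2)) := by
        apply div_nonneg (by linarith) (by positivity)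
      linarith)
  refine le_trans (le_of_eq ?_) h1
  unfold LBd
  rw [hβ]
  field_simp

theorem expectedTime_ge_sum {n : ℕ} (S : Strategy n) (M : ℕ) (c : ℝ)
    (h : c ≤ ∑ t ∈ Finset.range M, S.survival t) : ENNReal.ofReal c ≤ S.expectedTime := by
  unfold Strategy.expectedTime
  refine (ENNReal.ofReal_le_ofReal h).trans ?_
  rw [ENNReal.ofReal_sum_of_nonneg]
  · exact ENNReal.sum_le_tsum _
  · intro t _
    unfold Strategy.survival
    apply div_nonneg _ (by positivity)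
    exact Finset.sum_nonneg fun _ _ => Finset.sum_nonneg fun _ _ => miss_nonneg _ _ _ _ _ _ _

/-- `R_n ≥ 0.64 n` for every `n ≥ 4`. -/
theorem lower_bound {n : ℕ} (hn : 4 ≤ n) (S : Strategy n) :
    ENNReal.ofReal (16 / 25 * n) ≤ S.expectedTime := by
  rcases Nat.lt_or_ge n 5 with h4 | h5
  · -- n = 4
    obtain rfl : n = 4 := by omega
    apply expectedTime_ge_sum S 5
    have h : ∀ t ∈ Finset.range 5, LBd ((t : ℝ) / (4 : ℕ)) (1 / (4 : ℕ)) ≤ S.survival t := by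
      intro t ht
      apply survival_ge_LBd (by norm_num)
      have : (t : ℝ) ≤ 4 := by
        have := Finset.mem_range.mp ht
        exact_mod_cast (by omega : t ≤ 4)
      push_cast
      nlinarith
    refine le_trans ?_ (Finset.sum_le_sum h)
    simp only [Finset.sum_range_succ, Finset.sum_range_zero, LBd]
    norm_num
  · have hn5 : (5 : ℝ) ≤ n := by exact_mod_cast h5
    have hn0 : (0 : ℝ) < n := by linarith
    set M : ℕ := 7 * n / 5 with hM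
    have hM1 : 5 * M ≤ 7 * n := by omega
    have hM2 : 19 * n ≤ 15 * M := by omega
    have hM1' : 5 * (M : ℝ) ≤ 7 * n := by exact_mod_cast hM1
    have hM2' : 19 * (n : ℝ) ≤ 15 * M := by exact_mod_cast hM2
    apply expectedTime_ge_sum S M
    have h : ∀ t ∈ Finset.range M, (n : ℝ) * Psi (((t + 1 : ℕ) : ℝ) / n) -
        n * Psi ((t : ℝ) / n) ≤ S.survival t := by
      intro t ht
      have htM : t + 1 ≤ M := Finset.mem_range.mp ht
      have htM' : (t : ℝ) + 1 ≤ M := by exact_mod_cast htM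
      have ht0 : (0 : ℝ) ≤ t := Nat.cast_nonneg t
      refine le_trans ?_ (survival_ge_LBd hn S t ?_)
      · have h1 := termwise ((t : ℝ) / n) (1 / n) (by positivity) (by positivity) (by
          rw [div_le_iff₀ hn0]; linarith)
        refine le_trans (le_of_eq ?_) h1
        have e : ((t + 1 : ℕ) : ℝ) / n = (t : ℝ) / n + 1 / n := by push_cast; ring
        rw [e]
        field_simp
      · have h2 : (t : ℝ) ≤ 7 / 5 * n - 1 := by linarith
        have h3 : (0 : ℝ) ≤ 3 * n - 2 := by linarith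
        calc (t : ℝ) * (3 * n - 2) ≤ (7 / 5 * n - 1) * (3 * n - 2) :=
              mul_le_mul_of_nonneg_right h2 h3
          _ ≤ 5 * (n : ℝ) ^ 2 - 6 * n := by nlinarith
    refine le_trans ?_ (Finset.sum_le_sum h)
    have h6 := Finset.sum_range_sub (fun t : ℕ => (n : ℝ) * Psi ((t : ℝ) / n)) M
    rw [h6]
    have h7 : Psi ((M : ℝ) / n) ≥ 16 / 25 := by
      apply Psi_ge
      · rw [le_div_iff₀ hn0]; linarith
      · rw [div_le_iff₀ hn0]; linarith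
    have h8 : Psi (((0 : ℕ) : ℝ) / n) = 0 := by unfold Psi; simp
    rw [h8]
    nlinarith

end Pool.Agent.Rdv
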