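import Pool.Agent.Lib.Rdv.Final

namespace Pool.Agent.Rdv

open Equiv
open scoped ENNReal

variable {N : ℕ}

theorem miss_succ {n : ℕ} (S S' : Strategy n) (σ₁ σ₂ : Perm (Fin n)) (t : ℕ)
    (l₁ l₂ : List (Fin n)) : miss S S' σ₁ σ₂ (t + 1) l₁ l₂ =
      ∑ a, ∑ b, if σ₁ a = σ₂ b then 0 else
        S.prob l₁ a * S'.prob l₂ b * miss S S' σ₁ σ₂ t (a :: l₁) (b :: l₂) := rfl

/-- If the continuation has the same survival probability from all pairs of histories that may
occur, it factors out. -/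
theorem miss_factor {n : ℕ} (S S' : Strategy n) (σ₁ σ₂ : Perm (Fin n)) (s : ℕ) (κ : ℝ) (m : ℕ) :
    ∀ l₁ l₂ : List (Fin n),
    (∀ a b l₁' l₂', l₁'.length = l₁.length + m → l₂'.length = l₂.length + m → σ₁ a ≠ σ₂ b →
      miss S S' σ₁ σ₂ s (a :: l₁') (b :: l₂') = κ) →
    miss S S' σ₁ σ₂ (m + 1 + s) l₁ l₂ = κ * miss S S' σ₁ σ₂ (m + 1) l₁ l₂ := by
  induction m with
  | zero =>
    intro l₁ l₂ h
    rw [show 0 + 1 + s = s + 1 by ring, miss_succ, miss_succ]
    simp only [Finset.mul_sum]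
    refine Finset.sum_congr rfl fun a _ => Finset.sum_congr rfl fun b _ => ?_
    split_ifs with hab
    · simp
    · rw [h a b l₁ l₂ (by simp) (by simp) hab]; simp [miss]; ring
  | succ m ih =>
    intro l₁ l₂ h
    rw [show m + 1 + 1 + s = (m + 1 + s) + 1 by ring, miss_succ,
      miss_succ S S' σ₁ σ₂ (m + 1), Finset.mul_sum]
    refine Finset.sum_congr rfl fun a _ => ?_
    rw [Finset.mul_sum]
    refine Finset.sum_congr rfl fun b _ => ?_
    split_ifs with hab
    · simp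
    · rw [ih (a :: l₁) (b :: l₂) (fun a' b' l₁' l₂' h1 h2 h3 => h a' b' l₁' l₂'
        (by rw [h1]; simp; ring) (by rw [h2]; simp; ring) h3)]
      ring

theorem miss_le_one {n : ℕ} (S S' : Strategy n) (σ₁ σ₂ : Perm (Fin n)) (t : ℕ) :
    ∀ l₁ l₂, miss S S' σ₁ σ₂ t l₁ l₂ ≤ 1 := by
  induction t with
  | zero => intro l₁ l₂; simp [miss]
  | succ t ih =>
    intro l₁ l₂
    simp only [miss]
    calc ∑ a, ∑ b, (if σ₁ a = σ₂ b then 0 else
          S.prob l₁ a * S'.prob l₂ b * miss S S' σ₁ σ₂ t (a :: l₁) (b :: l₂))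
        ≤ ∑ a, ∑ b, S.prob l₁ a * S'.prob l₂ b := by
          refine Finset.sum_le_sum fun a _ => Finset.sum_le_sum fun b _ => ?_
          have h1 := mul_nonneg (S.nonneg l₁ a) (S'.nonneg l₂ b)
          split_ifs
          · exact h1
          · exact mul_le_of_le_one_right h1 (ih _ _)
      _ = 1 := by
          simp only [← Finset.mul_sum, S'.sum_eq_one, mul_one, S.sum_eq_one]

/-- The survival function is decreasing. -/
theorem miss_anti {n : ℕ} (S S' : Strategy n) (σ₁ σ₂ : Perm (Fin n)) (s t : ℕ) :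
    ∀ l₁ l₂, miss S S' σ₁ σ₂ (t + s) l₁ l₂ ≤ miss S S' σ₁ σ₂ t l₁ l₂ := by
  induction t with
  | zero => intro l₁ l₂; simpa [miss] using miss_le_one S S' σ₁ σ₂ s l₁ l₂
  | succ t ih =>
    intro l₁ l₂
    rw [show t + 1 + s = (t + s) + 1 by ring]
    simp only [miss]
    refine Finset.sum_le_sum fun a _ => Finset.sum_le_sum fun b _ => ?_
    split_ifs
    · exact le_rfl
    · exact mul_le_mul_of_nonneg_left (ih _ _) (mul_nonneg (S.nonneg l₁ a) (S'.nonneg l₂ b))

section

variable (hN' : 2 ≤ N + 1) (p : ℝ) (hp0 : 0 ≤ p) (hp1 : p ≤ 1)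

theorem qs_add (hN : 2 ≤ N) (s : ℕ) :
    qs hN' p hp0 hp1 (N + s) = qs hN' p hp0 hp1 s * qs hN' p hp0 hp1 N := by
  obtain ⟨m, rfl⟩ : ∃ m, N = m + 1 := ⟨N - 1, by omega⟩
  conv_lhs => unfold qs
  rw [miss_factor _ _ _ _ s (qs hN' p hp0 hp1 s) m]
  · rfl
  · intro a b l₁' l₂' h1 h2 hab
    apply miss_AW_eq_qs
    · rw [h1]; simp [Nat.add_comm 1 m]
    · rw [h2]; simp [Nat.add_comm 1 m]
    · exact hab

theorem qs_mul (hN : 2 ≤ N) (k s : ℕ) :
    qs hN' p hp0 hp1 (k * N + s) = (qs hN' p hp0 hp1 N) ^ k * qs hN' p hp0 hp1 s := by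
  induction k with
  | zero => simp
  | succ k ih =>
    rw [show (k + 1) * N + s = N + (k * N + s) by ring, qs_add hN' p hp0 hp1 hN, ih, pow_succ]
    ring

theorem qs_le_one (s : ℕ) : qs hN' p hp0 hp1 s ≤ 1 := miss_le_one _ _ _ _ _ _ _

theorem qs_N_lt_one (hN : 2 ≤ N) (hp : 0 < p) : qs hN' p hp0 hp1 N < 1 := by
  have h1 : qs hN' p hp0 hp1 N ≤ qs hN' p hp0 hp1 1 := by
    have := miss_anti (AW (N + 1) hN' p hp0 hp1) (AW (N + 1) hN' p hp0 hp1) 1 1 (N - 1) 1
      [0] [Fin.last N]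
    rw [show 1 + (N - 1) = N by omega] at this
    exact this
  refine lt_of_le_of_lt h1 ?_
  have hN0 : (0 : ℝ) < N := by positivity
  -- both players go to the location `1` on the first day
  have h2 : qs hN' p hp0 hp1 1 ≤ 1 - (p / N) * (p / N) := by
    unfold qs
    simp only [miss, mul_one]
    have h3 : ∑ a : Fin (N + 1), ∑ b : Fin (N + 1), (AW (N + 1) hN' p hp0 hp1).prob [0] a *
        (AW (N + 1) hN' p hp0 hp1).prob [Fin.last N] b = 1 := by
      simp only [← Finset.mul_sum, (AW (N + 1) hN' p hp0 hp1).sum_eq_one, mul_one]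
    have h4 : ∑ a : Fin (N + 1), ∑ b : Fin (N + 1), (if a = ix N 1 ∧ b = ix N 1 then
        (p / N) * (p / N) else 0) = (p / N) * (p / N) := by
      rw [Finset.sum_eq_single (ix N 1), Finset.sum_eq_single (ix N 1)]
      · simp
      · intro b _ hb; simp [hb]
      · intro h; exact absurd (Finset.mem_univ _) h
      · intro b _ hb; simp [hb]
      · intro h; exact absurd (Finset.mem_univ _) h
    rw [le_sub_iff_add_le, ← h3, ← h4, ← Finset.sum_add_distrib]
    refine Finset.sum_le_sum fun a _ => ?_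
    rw [← Finset.sum_add_distrib]
    refine Finset.sum_le_sum fun b _ => ?_
    have hnn := mul_nonneg ((AW (N + 1) hN' p hp0 hp1).nonneg [0] a)
      ((AW (N + 1) hN' p hp0 hp1).nonneg [Fin.last N] b)
    by_cases hab : a = b
    · rw [if_pos (by simp [hab]), zero_add]
      split_ifs with h5
      · obtain ⟨rfl, rfl⟩ := h5
        have h6 : ∀ c : Fin (N + 1), ix N 1 ≠ c →
            (AW (N + 1) hN' p hp0 hp1).prob [c] (ix N 1) = p / N := by
          intro c hc
          simp only [AW]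
          rw [awProb_start, if_neg hc]
        rw [h6 0 (by rw [zero_eq_ix]; exact ix_inj (by omega) (by omega) (by omega)),
          h6 (Fin.last N) (by rw [last_eq_ix]; exact ix_inj (by omega) (by omega) (by omega))]
      · exact hnn
    · rw [if_neg (by simpa using hab), if_neg (by rintro ⟨rfl, rfl⟩; exact hab rfl), add_zero]
  have h7 : 0 < (p / N) * (p / N) := by positivity
  linarith

theorem AW_survival_succ (s : ℕ) :
    (AW (N + 1) hN' p hp0 hp1).survival (s + 1) ≤ qs hN' p hp0 hp1 s := by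
  have h2 : ∀ σ₁ σ₂ : Perm (Fin (N + 1)),
      miss (AW (N + 1) hN' p hp0 hp1) (AW (N + 1) hN' p hp0 hp1) σ₁ σ₂ (s + 1) [] [] ≤
        qs hN' p hp0 hp1 s := by
    intro σ₁ σ₂
    have h3 := miss_factor (AW (N + 1) hN' p hp0 hp1) (AW (N + 1) hN' p hp0 hp1) σ₁ σ₂ s
      (qs hN' p hp0 hp1 s) 0 [] [] (fun a b l₁' l₂' h1 h2 hab => by
        apply miss_AW_eq_qs
        · rw [h1]; simp
        · rw [h2]; simp
        · exact hab)
    rw [show s + 1 = 0 + 1 + s by ring, h3]
    exact mul_le_of_le_one_right (qs_nonneg _ _ _ _ _) (miss_le_one _ _ _ _ _ _ _)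
  unfold Strategy.survival
  calc _ ≤ (∑ _σ₁ : Perm (Fin (N + 1)), ∑ _σ₂ : Perm (Fin (N + 1)), qs hN' p hp0 hp1 s) /
        ((N + 1).factorial : ℝ) ^ 2 := by
        apply div_le_div_of_nonneg_right _ (by positivity)
        exact Finset.sum_le_sum fun σ₁ _ => Finset.sum_le_sum fun σ₂ _ => h2 σ₁ σ₂
    _ = _ := sum_perm_const _

/-- `E[T]` is finite for `p > 0`. -/
theorem AW_expectedTime_lt_top (hN : 2 ≤ N) (hp : 0 < p) :
    (AW (N + 1) hN' p hp0 hp1).expectedTime ≠ ⊤ := by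
  set ρ := qs hN' p hp0 hp1 N with hρ
  have hρ0 : 0 ≤ ρ := qs_nonneg _ _ _ _ _
  have hρ1 : ρ < 1 := qs_N_lt_one hN' p hp0 hp1 hN hp
  have : NeZero N := ⟨by omega⟩
  have hq : ∑' s : ℕ, ENNReal.ofReal (qs hN' p hp0 hp1 s) ≠ ⊤ := by
    rw [← (Nat.divModEquiv N).symm.tsum_eq]
    have h1 : ∀ x : ℕ × Fin N, ENNReal.ofReal (qs hN' p hp0 hp1 ((Nat.divModEquiv N).symm x)) ≤
        ENNReal.ofReal (ρ ^ x.1) := by
      rintro ⟨k, r⟩
      apply ENNReal.ofReal_le_ofReal
      have h2 : (Nat.divModEquiv N).symm (k, r) = k * N + r := by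
        simp [Nat.divModEquiv]
      rw [h2, qs_mul hN' p hp0 hp1 hN]
      exact mul_le_of_le_one_right (pow_nonneg hρ0 _) (qs_le_one _ _ _ _ _)
    refine ne_top_of_le_ne_top ?_ (ENNReal.tsum_le_tsum h1)
    rw [ENNReal.tsum_prod']
    simp only [tsum_fintype, Finset.sum_const, Finset.card_univ, Fintype.card_fin, nsmul_eq_mul]
    rw [ENNReal.tsum_mul_left]
    apply ENNReal.mul_ne_top (ENNReal.natCast_ne_top N)
    rw [← ENNReal.ofReal_tsum_of_nonneg (fun t => pow_nonneg hρ0 t)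
      (summable_geometric_of_lt_one hρ0 hρ1)]
    exact ENNReal.ofReal_ne_top
  unfold Strategy.expectedTime
  rw [tsum_eq_zero_add' ENNReal.summable]
  apply ENNReal.add_ne_top.mpr
  refine ⟨ENNReal.ofReal_ne_top, ?_⟩
  refine ne_top_of_le_ne_top hq (ENNReal.tsum_le_tsum fun s => ENNReal.ofReal_le_ofReal ?_)
  exact AW_survival_succ hN' p hp0 hp1 s

end

/-- For `p = 0` the players never meet after day 1. -/
theorem AW_zero_survival (hN : 1 ≤ N) (hN' : 2 ≤ N + 1) (t : ℕ) :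
    (unif (N + 1) (by omega)).survival t ≤
      (AW (N + 1) hN' 0 le_rfl zero_le_one).survival t := by
  have hn2 : (1 : ℝ) ≤ N := by exact_mod_cast hN
  rw [unif_survival]
  cases t with
  | zero =>
    unfold Strategy.survival
    simp only [miss]
    rw [sum_perm_const]
    simp
  | succ t =>
    have h2 : ∀ σ₁ σ₂ : Perm (Fin (N + 1)),
        miss (AW (N + 1) hN' 0 le_rfl zero_le_one) (AW (N + 1) hN' 0 le_rfl zero_le_one) σ₁ σ₂
          (t + 1) [] [] = (N : ℝ) / ((N : ℝ) + 1) := by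
      intro σ₁ σ₂
      simp only [miss]
      have h3 : ∀ a b : Fin (N + 1), (if σ₁ a = σ₂ b then 0 else
          (AW (N + 1) hN' 0 le_rfl zero_le_one).prob [] a *
          (AW (N + 1) hN' 0 le_rfl zero_le_one).prob [] b *
          miss (AW (N + 1) hN' 0 le_rfl zero_le_one) (AW (N + 1) hN' 0 le_rfl zero_le_one) σ₁ σ₂
            t [a] [b]) = if σ₁ a = σ₂ b then 0 else
              (1 / ((N + 1 : ℕ) : ℝ)) * (1 / ((N + 1 : ℕ) : ℝ)) := by
        intro a b
        split_ifs with h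
        · rfl
        · have h4 := miss_zero N hN' σ₁ σ₂ a b h t 0
          simp only [zero_add, List.replicate_one] at h4
          rw [h4]
          simp [AW, awProb]
      simp only [h3]
      rw [miss_const_sum]
      push_cast
      field_simp
      ring
    have h3 : (AW (N + 1) hN' 0 le_rfl zero_le_one).survival (t + 1) =
        (N : ℝ) / ((N : ℝ) + 1) := by
      unfold Strategy.survival
      simp only [h2]
      exact sum_perm_const _
    rw [h3]
    have h4 : (1 - 1 / ((N + 1 : ℕ) : ℝ)) = (N : ℝ) / ((N : ℝ) + 1) := by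
      push_cast; field_simp; ring
    rw [h4, pow_succ]
    have h5 : 0 ≤ (N : ℝ) / ((N : ℝ) + 1) := by positivity
    have h6 : (N : ℝ) / ((N : ℝ) + 1) ≤ 1 := by
      rw [div_le_one (by positivity)]; linarith
    exact mul_le_of_le_one_left h5 (pow_le_one₀ h5 h6)

theorem unif_expectedTime_lt_top (n : ℕ) (hn : 2 ≤ n) :
    (unif n (by omega)).expectedTime < ⊤ := by
  unfold Strategy.expectedTime
  simp only [unif_survival]
  have hn2 : (2 : ℝ) ≤ n := by exact_mod_cast hn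
  have h1 : 0 ≤ 1 - 1 / (n : ℝ) := by
    rw [sub_nonneg, div_le_one (by positivity)]; linarith
  have h2 : 1 - 1 / (n : ℝ) < 1 := by
    have : 0 < 1 / (n : ℝ) := by positivity
    linarith
  rw [← ENNReal.ofReal_tsum_of_nonneg (fun t => pow_nonneg h1 t)
    (summable_geometric_of_lt_one h1 h2)]
  exact ENNReal.ofReal_lt_top

/-- The main theorem. -/
theorem AW_not_optimal (n : ℕ) (hn : 5 ≤ n) (p : ℝ) (hp0 : 0 ≤ p) (hp1 : p ≤ 1) :
    ∃ S : Strategy n, (∀ t, S.survival t ≤ (AW n (by omega) p hp0 hp1).survival t) ∧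
      S.expectedTime < (AW n (by omega) p hp0 hp1).expectedTime := by
  obtain ⟨N, rfl⟩ : ∃ N, n = N + 1 := ⟨n - 1, by omega⟩
  have hN : 4 ≤ N := by omega
  have hN' : 2 ≤ N + 1 := by omega
  rcases hp0.eq_or_lt with h0 | h0
  · subst h0
    refine ⟨unif (N + 1) (by omega), fun t => AW_zero_survival (by omega) hN' t, ?_⟩
    rw [expectedTime_zero N (by omega) hN']
    exact unif_expectedTime_lt_top (N + 1) hN'
  · obtain ⟨S, h1, h2⟩ := exists_better hN hN' p hp0 hp1 h0
    refine ⟨S, h1, ?_⟩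
    have htop := AW_expectedTime_lt_top hN' p hp0 hp1 (by omega) h0
    have hS : S.expectedTime ≠ ⊤ := by
      refine ne_top_of_le_ne_top htop ?_
      exact ENNReal.tsum_le_tsum fun s => ENNReal.ofReal_le_ofReal (h1 s)
    refine ENNReal.tsum_lt_tsum (i := 2 * N + 3) hS
      (fun s => ENNReal.ofReal_le_ofReal (h1 s)) ?_
    exact (ENNReal.ofReal_lt_ofReal_iff
      (lt_of_le_of_lt (survival_nonneg S (2 * N + 3)) h2)).mpr h2

end Pool.Agent.Rdv
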