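import Pool.Agent.Lib.Rdv.Msum

namespace Pool.Agent.Rdv

open Equiv

variable {n : ℕ}

/-- Follow the list `q` of labels for the first `q.length` days, then continue with `S`. -/
noncomputable def follow (q : List (Fin n)) (S : Strategy n) : Strategy n where
  prob l a := if h : l.length < q.length then (if a = q[l.length] then 1 else 0) else S.prob l a
  nonneg l a := by
    split_ifs
    · exact zero_le_one
    · exact le_rfl
    · exact S.nonneg l a
  sum_eq_one l := by
    by_cases h : l.length < q.length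
    · simp [h]
    · simp [h, S.sum_eq_one]

theorem follow_prob_lt (d r : List (Fin n)) (c : Fin n) (S : Strategy n) (a : Fin n)
    (l : List (Fin n)) (hl : l.length = d.length) :
    (follow (d ++ c :: r) S).prob l a = if a = c then 1 else 0 := by
  have h : l.length < (d ++ c :: r).length := by simp [hl]
  simp only [follow, dif_pos h]
  simp [hl]

theorem follow_prob_ge (q : List (Fin n)) (S : Strategy n) (a : Fin n)
    (l : List (Fin n)) (hl : q.length ≤ l.length) :
    (follow q S).prob l a = S.prob l a := by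
  simp only [follow]
  rw [dif_neg (by omega)]

theorem miss_nonneg (S S' : Strategy n) (σ₁ σ₂ : Perm (Fin n)) (t : ℕ) :
    ∀ l₁ l₂, 0 ≤ miss S S' σ₁ σ₂ t l₁ l₂ := by
  induction t with
  | zero => intro l₁ l₂; simp [miss]
  | succ t ih =>
    intro l₁ l₂
    simp only [miss]
    refine Finset.sum_nonneg fun a _ => Finset.sum_nonneg fun b _ => ?_
    split_ifs
    · exact le_rfl
    · exact mul_nonneg (mul_nonneg (S.nonneg _ _) (S'.nonneg _ _)) (ih _ _)

theorem miss_congr (S S' S₁ S₁' : Strategy n) (σ₁ σ₂ : Perm (Fin n)) (k k' : ℕ)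
    (h : ∀ l a, k ≤ l.length → S.prob l a = S₁.prob l a)
    (h' : ∀ l a, k' ≤ l.length → S'.prob l a = S₁'.prob l a) (t : ℕ) :
    ∀ l₁ l₂, k ≤ l₁.length → k' ≤ l₂.length →
      miss S S' σ₁ σ₂ t l₁ l₂ = miss S₁ S₁' σ₁ σ₂ t l₁ l₂ := by
  induction t with
  | zero => intro l₁ l₂ _ _; simp [miss]
  | succ t ih =>
    intro l₁ l₂ h1 h2
    simp only [miss]
    refine Finset.sum_congr rfl fun a _ => Finset.sum_congr rfl fun b _ => ?_
    rw [h l₁ a h1, h' l₂ b h2, ih _ _ (by simp; omega) (by simp; omega)]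

/-- The first player follows a list. -/
theorem miss_follow_left (S S' : Strategy n) (σ₁ σ₂ : Perm (Fin n)) (s : ℕ) (r : List (Fin n)) :
    ∀ (r' d l₂ : List (Fin n)), miss (follow (d ++ (r ++ r')) S) S' σ₁ σ₂ (r.length + s) d.reverse l₂ =
      av S'.prob (fun l => miss (follow (d ++ (r ++ r')) S) S' σ₁ σ₂ s (d ++ r).reverse l)
        (r.map (σ₂⁻¹ * σ₁)) l₂ := by
  induction r with
  | nil => intro r' d l₂; simp [av]
  | cons c r ih =>
    intro r' d l₂
    rw [show (c :: r).length + s = (r.length + s) + 1 by simp; ring]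
    simp only [miss, List.map_cons, av]
    rw [Finset.sum_comm]
    refine Finset.sum_congr rfl fun b _ => ?_
    have h1 : ∀ a, (follow (d ++ (c :: r ++ r')) S).prob d.reverse a = if a = c then 1 else 0 := by
      intro a
      rw [List.cons_append, follow_prob_lt d (r ++ r') c S a d.reverse (by simp)]
    simp only [h1]
    rw [Finset.sum_eq_single c]
    · have h2 : (σ₁ c = σ₂ b) ↔ (b = (σ₂⁻¹ * σ₁) c) := by
        rw [Equiv.Perm.mul_apply]
        constructor
        · intro h; rw [h]; simp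
        · intro h; rw [h]; simp
      have h3 := ih r' (d ++ [c]) (b :: l₂)
      have h4 : d ++ [c] ++ (r ++ r') = d ++ (c :: r ++ r') := by simp
      have h5 : (d ++ [c]).reverse = c :: d.reverse := by simp
      have h6 : d ++ [c] ++ r = d ++ (c :: r) := by simp
      rw [h4, h5, h6] at h3
      rw [h3]
      by_cases h7 : σ₁ c = σ₂ b
      · rw [if_pos h7, if_pos (h2.mp h7)]
      · rw [if_neg h7, if_neg (fun h => h7 (h2.mpr h))]
        simp
    · intro a _ ha
      simp [ha]
    · intro h; exact absurd (Finset.mem_univ _) h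

/-- `nm q q' = 1` if the lists differ at each common position, else `0`. -/
noncomputable def nm : List (Fin n) → List (Fin n) → ℝ
  | c :: q, c' :: q' => if c' = c then 0 else nm q q'
  | _, _ => 1

theorem nm_append (q₁ q₂ r₁ r₂ : List (Fin n)) (h : q₁.length = r₁.length) :
    nm (q₁ ++ q₂) (r₁ ++ r₂) = nm q₁ r₁ * nm q₂ r₂ := by
  induction q₁ generalizing r₁ with
  | nil =>
    have : r₁ = [] := List.length_eq_zero_iff.mp h.symm
    subst this
    simp [nm]
  | cons c q₁ ih =>
    cases r₁ with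
    | nil => simp at h
    | cons c' r₁ =>
      simp only [List.cons_append, nm]
      split_ifs
      · simp
      · exact ih r₁ (by simpa using h)

theorem nm_nonneg (q r : List (Fin n)) : 0 ≤ nm q r := by
  induction q generalizing r with
  | nil => simp [nm]
  | cons c q ih =>
    cases r with
    | nil => simp [nm]
    | cons c' r => simp only [nm]; split_ifs; exacts [le_rfl, ih r]

/-- The second player follows a list. -/
theorem av_follow (S : Strategy n) (ψ : List (Fin n) → ℝ) (k : List (Fin n)) :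
    ∀ (r r' d : List (Fin n)), k.length = r.length →
    av (follow (d ++ (r ++ r')) S).prob ψ k d.reverse = nm k r * ψ (d ++ r).reverse := by
  induction k with
  | nil =>
    intro r r' d h
    have : r = [] := List.length_eq_zero_iff.mp h.symm
    subst this
    simp [nm, av]
  | cons c k ih =>
    intro r r' d h
    cases r with
    | nil => simp at h
    | cons c' r =>
      simp only [av]
      have h1 : ∀ a, (follow (d ++ (c' :: r ++ r')) S).prob d.reverse a =
          if a = c' then 1 else 0 := by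
        intro a
        rw [List.cons_append, follow_prob_lt d (r ++ r') c' S a d.reverse (by simp)]
      simp only [h1]
      rw [Finset.sum_eq_single c']
      · have h3 := ih r r' (d ++ [c']) (by simpa using h)
        have h4 : d ++ [c'] ++ (r ++ r') = d ++ (c' :: r ++ r') := by simp
        have h5 : (d ++ [c']).reverse = c' :: d.reverse := by simp
        have h6 : d ++ [c'] ++ r = d ++ (c' :: r) := by simp
        rw [h4, h5, h6] at h3
        rw [h3]
        simp only [nm]
        split_ifs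
        · simp
        · simp
      · intro a _ ha
        simp [ha]
      · intro h; exact absurd (Finset.mem_univ _) h

/-- Both players follow lists. -/
theorem miss_follow_follow (S : Strategy n) (σ₁ σ₂ : Perm (Fin n)) (s : ℕ)
    (r₁ r₁' r₂ r₂' : List (Fin n)) (h : r₁.length = r₂.length) :
    miss (follow (r₁ ++ r₁') S) (follow (r₂ ++ r₂') S) σ₁ σ₂ (r₁.length + s) [] [] =
      nm (r₁.map (σ₂⁻¹ * σ₁)) r₂ *
        miss (follow (r₁ ++ r₁') S) (follow (r₂ ++ r₂') S) σ₁ σ₂ s r₁.reverse r₂.reverse := by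
  have h1 := miss_follow_left S (follow (r₂ ++ r₂') S) σ₁ σ₂ s r₁ r₁' [] []
  simp only [List.nil_append, List.reverse_nil] at h1
  rw [h1]
  have h2 := av_follow S (fun l => miss (follow (r₁ ++ r₁') S) (follow (r₂ ++ r₂') S) σ₁ σ₂ s
    r₁.reverse l) (r₁.map (σ₂⁻¹ * σ₁)) r₂ r₂' [] (by simpa using h)
  simp only [List.nil_append, List.reverse_nil] at h2
  rw [h2]

theorem av_congr_const (r : List (Fin n) → Fin n → ℝ) (ψ : List (Fin n) → ℝ) (κ : ℝ)
    (q : List (Fin n)) (c : Fin n) : ∀ l,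
    (∀ b l', b ≠ c → l'.length = l.length + q.length → ψ (b :: l') = κ) →
    av r ψ (q ++ [c]) l = κ * av r (fun _ => 1) (q ++ [c]) l := by
  induction q with
  | nil =>
    intro l h
    simp only [List.nil_append, av, mul_one, Finset.mul_sum]
    refine Finset.sum_congr rfl fun b _ => ?_
    split_ifs with hb
    · simp
    · rw [h b l hb (by simp)]; ring
  | cons a q ih =>
    intro l h
    simp only [List.cons_append, av, Finset.mul_sum]
    refine Finset.sum_congr rfl fun b _ => ?_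
    split_ifs with hb
    · simp
    · rw [ih (b :: l) (fun b' l' hb' hl' => h b' l' hb' (by
        rw [hl']; simp; ring))]
      ring

section AW

variable {N : ℕ}

theorem miss_trunc (hN : 2 ≤ N + 1) (p : ℝ) (hp0 : 0 ≤ p) (hp1 : p ≤ 1)
    (σ₁ σ₂ : Perm (Fin (N + 1))) (b₁ b₂ : Fin (N + 1)) (l₁ l₂ : List (Fin (N + 1)))
    (h1 : l₁.length % N = 0) (h2 : l₂.length % N = 0) (s : ℕ) :
    ∀ v₁ v₂ : List (Fin (N + 1)),
    miss (AW (N + 1) hN p hp0 hp1) (AW (N + 1) hN p hp0 hp1) σ₁ σ₂ s (v₁ ++ b₁ :: l₁) (v₂ ++ b₂ :: l₂) =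
    miss (AW (N + 1) hN p hp0 hp1) (AW (N + 1) hN p hp0 hp1) σ₁ σ₂ s (v₁ ++ [b₁]) (v₂ ++ [b₂]) := by
  induction s with
  | zero => intro v₁ v₂; simp [miss]
  | succ s ih =>
    intro v₁ v₂
    simp only [miss]
    refine Finset.sum_congr rfl fun a _ => Finset.sum_congr rfl fun b _ => ?_
    have h3 := ih (a :: v₁) (b :: v₂)
    simp only [List.cons_append] at h3
    rw [h3]
    simp only [AW]
    rw [awProb_trunc N p v₁ b₁ l₁ h1, awProb_trunc N p v₂ b₂ l₂ h2]

theorem miss_map (hN : 2 ≤ N + 1) (p : ℝ) (hp0 : 0 ≤ p) (hp1 : p ≤ 1)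
    (σ₁ σ₂ : Perm (Fin (N + 1))) (s : ℕ) :
    ∀ l₁ l₂ : List (Fin (N + 1)),
    miss (AW (N + 1) hN p hp0 hp1) (AW (N + 1) hN p hp0 hp1) 1 1 s (l₁.map σ₁) (l₂.map σ₂) =
    miss (AW (N + 1) hN p hp0 hp1) (AW (N + 1) hN p hp0 hp1) σ₁ σ₂ s l₁ l₂ := by
  induction s with
  | zero => intro l₁ l₂; simp [miss]
  | succ s ih =>
    intro l₁ l₂
    simp only [miss]
    rw [← Equiv.sum_comp σ₁]
    refine Finset.sum_congr rfl fun a _ => ?_
    rw [← Equiv.sum_comp σ₂]
    refine Finset.sum_congr rfl fun b _ => ?_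
    rw [← List.map_cons, ← List.map_cons, ih]
    simp only [AW, awProb_map, Equiv.Perm.one_apply]

theorem miss_mul_left (S S' : Strategy n) (π σ₁ σ₂ : Perm (Fin n)) (t : ℕ) :
    ∀ l₁ l₂, miss S S' (π * σ₁) (π * σ₂) t l₁ l₂ = miss S S' σ₁ σ₂ t l₁ l₂ := by
  induction t with
  | zero => intro l₁ l₂; simp [miss]
  | succ t ih =>
    intro l₁ l₂
    simp only [miss]
    refine Finset.sum_congr rfl fun a _ => Finset.sum_congr rfl fun b _ => ?_
    rw [ih]
    simp

/-- The survival probability over `s` days of two AW players at different locations at the start of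
a block. -/
noncomputable def qs (hN : 2 ≤ N + 1) (p : ℝ) (hp0 : 0 ≤ p) (hp1 : p ≤ 1) (s : ℕ) : ℝ :=
  miss (AW (N + 1) hN p hp0 hp1) (AW (N + 1) hN p hp0 hp1) 1 1 s [0] [Fin.last N]

theorem qs_nonneg (hN : 2 ≤ N + 1) (p : ℝ) (hp0 : 0 ≤ p) (hp1 : p ≤ 1) (s : ℕ) :
    0 ≤ qs hN p hp0 hp1 s := miss_nonneg _ _ _ _ _ _ _

theorem exists_perm_pair (a b a' b' : Fin n) (h : a ≠ b) (h' : a' ≠ b') :
    ∃ π : Perm (Fin n), π a = a' ∧ π b = b' := by
  refine ⟨Equiv.swap (Equiv.swap a a' b) b' * Equiv.swap a a', ?_, ?_⟩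
  · rw [Equiv.Perm.mul_apply, Equiv.swap_apply_left, Equiv.swap_apply_of_ne_of_ne _ h']
    intro h2
    have h3 : Equiv.swap a a' a = Equiv.swap a a' b := by rw [Equiv.swap_apply_left]; exact h2
    exact h ((Equiv.swap a a').injective h3)
  · rw [Equiv.Perm.mul_apply, Equiv.swap_apply_left]

theorem miss_AW_eq_qs (hN : 2 ≤ N + 1) (p : ℝ) (hp0 : 0 ≤ p) (hp1 : p ≤ 1)
    (σ₁ σ₂ : Perm (Fin (N + 1))) (b₁ b₂ : Fin (N + 1)) (l₁ l₂ : List (Fin (N + 1)))
    (h1 : l₁.length % N = 0) (h2 : l₂.length % N = 0) (hb : σ₁ b₁ ≠ σ₂ b₂) (s : ℕ) :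
    miss (AW (N + 1) hN p hp0 hp1) (AW (N + 1) hN p hp0 hp1) σ₁ σ₂ s (b₁ :: l₁) (b₂ :: l₂) =
      qs hN p hp0 hp1 s := by
  have h3 := miss_trunc hN p hp0 hp1 σ₁ σ₂ b₁ b₂ l₁ l₂ h1 h2 s [] []
  simp only [List.nil_append] at h3
  rw [h3, ← miss_map]
  simp only [List.map_cons, List.map_nil]
  have h0l : (0 : Fin (N + 1)) ≠ Fin.last N := by
    intro h; have := congrArg Fin.val h; simp at this; omega
  obtain ⟨π, h4, h5⟩ := exists_perm_pair (0 : Fin (N + 1)) (Fin.last N) _ _ h0l hb
  rw [← h4, ← h5, qs]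
  have h6 := miss_map hN p hp0 hp1 π π s [0] [Fin.last N]
  simp only [List.map_cons, List.map_nil] at h6
  rw [h6]
  have h7 := miss_mul_left (AW (N + 1) hN p hp0 hp1) (AW (N + 1) hN p hp0 hp1) π 1 1 s
    [0] [Fin.last N]
  simpa using h7

end AW

end Pool.Agent.Rdv
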