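import Pool.Agent.Lib.Rdv.Av

namespace Pool.Agent.Rdv

open Equiv

/-- The sum of `avo N p q [b]` over the starts `b ≠ c`. -/
noncomputable def Msum (N : ℕ) (p : ℝ) (q : List (Fin (N + 1))) (c : Fin (N + 1)) : ℝ :=
  ∑ b, if b = c then 0 else avo N p q [b]

theorem Msum_map {N : ℕ} (p : ℝ) (σ : Perm (Fin (N + 1))) (q : List (Fin (N + 1)))
    (c : Fin (N + 1)) : Msum N p (q.map σ) (σ c) = Msum N p q c := by
  simp only [Msum]
  rw [← Equiv.sum_comp σ]
  refine Finset.sum_congr rfl fun b _ => ?_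
  have := avo_map p σ q [b]
  rw [List.map_singleton] at this
  rw [this]
  simp

theorem Msum_seg {N : ℕ} (p : ℝ) (e : Perm (Fin (N + 1))) (m : ℕ) :
    Msum N p (seg e 0 m) (e 0) = Msum N p (seg 1 0 m) 0 := by
  have : seg e 0 m = (seg 1 0 m).map e := by rw [seg_map, mul_one]
  rw [this, Msum_map]

/-- The block constant. -/
noncomputable def Kc (N : ℕ) (p : ℝ) : ℝ := p / (N.factorial : ℝ) *
  ((Finset.univ.filter fun y : Perm (Fin (N + 1)) =>
    (∀ i, y i ≠ i) ∧ y (Fin.last N) = 0).card : ℝ)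

theorem card_block {N : ℕ} (hN : 1 ≤ N) (e : Perm (Fin (N + 1))) (b : Fin (N + 1))
    (hb : b ≠ e (Fin.last N)) :
    (Finset.univ.filter fun y : Perm (Fin (N + 1)) =>
      (∀ i, y i ≠ e i) ∧ y (Fin.last N) = b).card =
    (Finset.univ.filter fun y : Perm (Fin (N + 1)) =>
      (∀ i, y i ≠ i) ∧ y (Fin.last N) = 0).card := by
  set c : Fin (N + 1) := e.symm b with hc
  have hcl : c ≠ Fin.last N := by
    intro h; apply hb; rw [← h, hc]; simp
  have h0l : (0 : Fin (N + 1)) ≠ Fin.last N := by
    intro h; have := congrArg Fin.val h; simp at this; omega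
  set s : Perm (Fin (N + 1)) := Equiv.swap 0 c with hs
  have hsl : s (Fin.last N) = Fin.last N :=
    Equiv.swap_apply_of_ne_of_ne (Ne.symm h0l) (Ne.symm hcl)
  have hss : ∀ i, s (s i) = i := fun i => by rw [hs]; simp
  refine Finset.card_equiv ((Equiv.mulLeft (s * e⁻¹)).trans (Equiv.mulRight s)) ?_
  intro y
  simp only [Finset.mem_filter, Finset.mem_univ, true_and, Equiv.trans_apply,
    Equiv.coe_mulLeft, Equiv.coe_mulRight, Equiv.Perm.mul_apply, hsl]
  have h1 : ∀ i, (s (e⁻¹ (y (s i))) ≠ i) ↔ (y (s i) ≠ e (s i)) := by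
    intro i
    rw [not_iff_not]
    constructor
    · intro h
      have h2 : e⁻¹ (y (s i)) = s i := by
        have h3 := congrArg s h
        rwa [hss] at h3
      have h3 := congrArg e h2
      simpa using h3
    · intro h
      rw [h]; simp [hss]
  have h2 : (s (e⁻¹ (y (Fin.last N))) = 0) ↔ (y (Fin.last N) = b) := by
    constructor
    · intro h
      have h3 : e⁻¹ (y (Fin.last N)) = c := by
        rw [← hss (e⁻¹ (y (Fin.last N))), h, hs]; simp
      have h4 : y (Fin.last N) = e c := by rw [← h3]; simp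
      rw [h4, hc]; simp
    · intro h
      rw [h]
      have : e⁻¹ b = c := rfl
      rw [this, hs]; simp
  rw [h2]
  simp only [h1]
  constructor
  · rintro ⟨h3, h4⟩
    exact ⟨fun i => h3 (s i), h4⟩
  · rintro ⟨h3, h4⟩
    refine ⟨fun i => ?_, h4⟩
    have := h3 (s i)
    rwa [hss] at this

theorem Msum_block {N : ℕ} (hN : 2 ≤ N) (p : ℝ) (e : Perm (Fin (N + 1)))
    (q : List (Fin (N + 1))) :
    Msum N p (seg e 0 N ++ q) (e 0) = Kc N p * Msum N p q (e (Fin.last N)) := by
  have h1 : Msum N p (seg e 0 N ++ q) (e 0) = (p / (N.factorial : ℝ)) *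
      ∑ y' : Perm (Fin (N + 1)), if (∀ i, y' i ≠ e i) then avo N p q [y' (Fin.last N)] else 0 := by
    simp only [Msum]
    have step : ∀ b : Fin (N + 1), (if b = e 0 then (0 : ℝ) else avo N p (seg e 0 N ++ q) [b]) =
        ∑ y' : Perm (Fin (N + 1)), if b = y' 0 then ((p / (N.factorial : ℝ)) *
          if (∀ i, y' i ≠ e i) then avo N p q [y' (Fin.last N)] else 0) else 0 := by
      intro b
      by_cases hb : b = e 0
      · rw [if_pos hb]
        symm
        refine Finset.sum_eq_zero fun y' _ => ?_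
        split_ifs with h2 h3
        · exact absurd (h2 ▸ hb) (h3 0)
        · simp
        · rfl
      · rw [if_neg hb, av_block hN p e q b hb, Finset.mul_sum]
        refine Finset.sum_congr rfl fun y' _ => ?_
        by_cases h2 : b = y' 0
        · rw [if_pos h2]
          have h3 : (y' 0 = b ∧ ∀ i, i ≠ 0 → y' i ≠ e i) ↔ ∀ i, y' i ≠ e i := by
            constructor
            · rintro ⟨h4, h5⟩ i
              by_cases hi : i = 0
              · rw [hi, h4]; exact hb
              · exact h5 i hi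
            · exact fun h4 => ⟨h2.symm, fun i _ => h4 i⟩
          simp only [h3]
        · rw [if_neg h2, if_neg, mul_zero]
          rintro ⟨h3, -⟩
          exact h2 h3.symm
    rw [Finset.sum_congr rfl fun b _ => step b, Finset.sum_comm, Finset.mul_sum]
    refine Finset.sum_congr rfl fun y' _ => ?_
    simp
  have h2 : (∑ y' : Perm (Fin (N + 1)), if (∀ i, y' i ≠ e i) then
      avo N p q [y' (Fin.last N)] else 0) =
      ((Finset.univ.filter fun y : Perm (Fin (N + 1)) =>
        (∀ i, y i ≠ i) ∧ y (Fin.last N) = 0).card : ℝ) * Msum N p q (e (Fin.last N)) := by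
    have h3 : ∀ y' : Perm (Fin (N + 1)), (if (∀ i, y' i ≠ e i) then
        avo N p q [y' (Fin.last N)] else 0) =
        ∑ b, if ((∀ i, y' i ≠ e i) ∧ y' (Fin.last N) = b) then avo N p q [b] else 0 := by
      intro y'
      by_cases h4 : ∀ i, y' i ≠ e i
      · simp [h4]
      · simp [h4]
    rw [Finset.sum_congr rfl fun y _ => h3 y, Finset.sum_comm]
    simp only [Msum, Finset.mul_sum]
    refine Finset.sum_congr rfl fun b _ => ?_
    rw [← Finset.sum_filter, Finset.sum_const, nsmul_eq_mul]
    by_cases hb : b = e (Fin.last N)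
    · rw [if_pos hb, Finset.filter_false_of_mem]
      · simp
      · rintro y' _ ⟨h4, h5⟩
        exact h4 (Fin.last N) (h5.trans hb)
    · rw [if_neg hb, card_block (by omega) e b hb]
  rw [h1, h2, Kc]
  ring

/-- Propagation through one block. -/
theorem Msum_take {N : ℕ} (hN : 2 ≤ N) (p : ℝ) (e e' : Perm (Fin (N + 1)))
    (R R' : List (Fin (N + 1)))
    (h : ∀ s, Msum N p (R.take s) (e (Fin.last N)) = Msum N p (R'.take s) (e' (Fin.last N)))
    (t : ℕ) : Msum N p ((seg e 0 N ++ R).take t) (e 0) =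
      Msum N p ((seg e' 0 N ++ R').take t) (e' 0) := by
  have seg_take : ∀ (e : Perm (Fin (N + 1))) (k j t : ℕ), t ≤ k → (seg e j k).take t = seg e j t := by
    intro e k
    induction k with
    | zero => intro j t ht; simp [seg, Nat.le_zero.mp ht]
    | succ k ih =>
      intro j t ht
      cases t with
      | zero => simp [seg]
      | succ t => simp only [seg, List.take_succ_cons]; rw [ih _ _ (by omega)]
  by_cases ht : t ≤ N
  · rw [List.take_append_of_le_length (by rw [seg_length]; exact ht),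
      List.take_append_of_le_length (by rw [seg_length]; exact ht), seg_take e _ _ _ ht,
      seg_take e' _ _ _ ht, Msum_seg, Msum_seg p e']
  · obtain ⟨s, rfl⟩ : ∃ s, t = N + s := ⟨t - N, by omega⟩
    have h1 : ∀ (e : Perm (Fin (N + 1))) (R : List (Fin (N + 1))),
        (seg e 0 N ++ R).take (N + s) = seg e 0 N ++ R.take s := by
      intro e R
      rw [List.take_append, seg_length, List.take_of_length_le (by rw [seg_length]; omega)]
      congr 2
      omega
    rw [h1, h1, Msum_block hN, Msum_block hN, h]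

theorem Msum_three {N : ℕ} (hN : 2 ≤ N) (p : ℝ) (e₁ e₂ e₃ f₁ f₂ f₃ : Perm (Fin (N + 1)))
    (h1 : e₂ 0 = e₁ (Fin.last N)) (h2 : e₃ 0 = e₂ (Fin.last N))
    (h3 : f₂ 0 = f₁ (Fin.last N)) (h4 : f₃ 0 = f₂ (Fin.last N)) (t : ℕ) :
    Msum N p ((seg e₁ 0 N ++ (seg e₂ 0 N ++ (seg e₃ 0 N ++ []))).take t) (e₁ 0) =
    Msum N p ((seg f₁ 0 N ++ (seg f₂ 0 N ++ (seg f₃ 0 N ++ []))).take t) (f₁ 0) := by
  apply Msum_take hN
  intro s
  rw [← h1, ← h3]
  apply Msum_take hN
  intro s
  rw [← h2, ← h4]
  apply Msum_take hN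
  intro s
  simp only [List.take_nil]
  have := Msum_seg p e₃ 0
  simp only [seg] at this
  have h5 := Msum_seg p f₃ 0
  simp only [seg] at h5
  have h6 : ∀ c : Fin (N + 1), Msum N p [] c = (N : ℝ) := by
    intro c
    simp only [Msum, avo, av]
    rw [← Finset.add_sum_erase _ _ (Finset.mem_univ c), if_pos rfl, zero_add,
      Finset.sum_congr rfl (g := fun _ => (1 : ℝ))]
    · rw [Finset.sum_const, Finset.card_erase_of_mem (Finset.mem_univ c)]
      simp
    · intro x hx
      rw [if_neg (Finset.ne_of_mem_erase hx)]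
  rw [h6, h6]

end Pool.Agent.Rdv
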