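import Pool.Agent.Lib.Rdv.Miss

namespace Pool.Agent.Rdv

open Equiv

variable {n : ℕ}

theorem D_path (S S' : Strategy n) (t : ℕ) : D S.path S'.path t =
    (∑ σ₁ : Perm (Fin n), ∑ σ₂ : Perm (Fin n), miss S S' σ₁ σ₂ t [] []) / (n.factorial : ℝ) ^ 2 := by
  simp only [D, bil_path]
  simp [Strategy.path]

theorem sum_perm_div (g : Perm (Fin n) → ℝ) :
    (∑ σ₁ : Perm (Fin n), ∑ σ₂ : Perm (Fin n), g (σ₂⁻¹ * σ₁)) / (n.factorial : ℝ) ^ 2 =
      (∑ τ : Perm (Fin n), g τ) / (n.factorial : ℝ) := by
  rw [Finset.sum_comm]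
  have : ∀ σ₂ : Perm (Fin n), ∑ σ₁ : Perm (Fin n), g (σ₂⁻¹ * σ₁) = ∑ τ : Perm (Fin n), g τ :=
    fun σ₂ => Equiv.sum_comp (Equiv.mulLeft σ₂⁻¹) g
  simp only [this, Finset.sum_const, Finset.card_univ, Fintype.card_perm, Fintype.card_fin,
    nsmul_eq_mul]
  have : (n.factorial : ℝ) ≠ 0 := by positivity
  field_simp

theorem sum_perm_const (c : ℝ) :
    (∑ _σ₁ : Perm (Fin n), ∑ _σ₂ : Perm (Fin n), c) / (n.factorial : ℝ) ^ 2 = c := by
  simp only [Finset.sum_const, Finset.card_univ, Fintype.card_perm, Fintype.card_fin,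
    nsmul_eq_mul]
  have : (n.factorial : ℝ) ≠ 0 := by positivity
  field_simp

variable {N : ℕ}

/-- Follower against AW, at most `q.length` days. -/
theorem D_follow_AW_le (hN : 2 ≤ N + 1) (p : ℝ) (hp0 : 0 ≤ p) (hp1 : p ≤ 1)
    (q : List (Fin (N + 1))) (t : ℕ) (ht : t ≤ q.length) :
    D (follow q (AW (N + 1) hN p hp0 hp1)).path (AW (N + 1) hN p hp0 hp1).path t =
      avo N p (q.take t) [] := by
  rw [D_path]
  have h1 : ∀ σ₁ σ₂ : Perm (Fin (N + 1)),
      miss (follow q (AW (N + 1) hN p hp0 hp1)) (AW (N + 1) hN p hp0 hp1) σ₁ σ₂ t [] [] =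
        avo N p (q.take t) [] := by
    intro σ₁ σ₂
    have h2 := miss_follow_left (AW (N + 1) hN p hp0 hp1) (AW (N + 1) hN p hp0 hp1) σ₁ σ₂ 0
      (q.take t) (q.drop t) [] []
    simp only [List.nil_append, List.reverse_nil, List.take_append_drop, add_zero,
      List.length_take, min_eq_left ht, miss] at h2
    rw [h2]
    have h3 := avo_map p (σ₂⁻¹ * σ₁) (q.take t) []
    rw [List.map_nil] at h3
    exact h3
  simp only [h1]
  rw [sum_perm_const]

/-- Follower against AW, more than `q.length` days. -/
theorem D_follow_AW_ge (hN : 2 ≤ N + 1) (p : ℝ) (hp0 : 0 ≤ p) (hp1 : p ≤ 1)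
    (q : List (Fin (N + 1))) (c : Fin (N + 1)) (hq : q.length % N = 0) (s : ℕ) :
    D (follow (q ++ [c]) (AW (N + 1) hN p hp0 hp1)).path (AW (N + 1) hN p hp0 hp1).path
      (q.length + 1 + s) = qs hN p hp0 hp1 s * avo N p (q ++ [c]) [] := by
  rw [D_path]
  have h1 : ∀ σ₁ σ₂ : Perm (Fin (N + 1)),
      miss (follow (q ++ [c]) (AW (N + 1) hN p hp0 hp1)) (AW (N + 1) hN p hp0 hp1) σ₁ σ₂
        (q.length + 1 + s) [] [] = qs hN p hp0 hp1 s * avo N p (q ++ [c]) [] := by
    intro σ₁ σ₂
    have h2 := miss_follow_left (AW (N + 1) hN p hp0 hp1) (AW (N + 1) hN p hp0 hp1) σ₁ σ₂ s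
      (q ++ [c]) [] [] []
    simp only [List.nil_append, List.reverse_nil, List.append_nil, List.length_append,
      List.length_cons, List.length_nil, zero_add] at h2
    rw [h2]
    have h3 : (q ++ [c]).map (σ₂⁻¹ * σ₁) = q.map (σ₂⁻¹ * σ₁) ++ [(σ₂⁻¹ * σ₁) c] := by simp
    rw [h3, av_congr_const _ _ (qs hN p hp0 hp1 s)]
    · congr 1
      rw [← h3]
      have h4 := avo_map p (σ₂⁻¹ * σ₁) (q ++ [c]) []
      rw [List.map_nil] at h4
      exact h4
    · intro b l' hb hl'
      rw [miss_congr _ _ (AW (N + 1) hN p hp0 hp1) (AW (N + 1) hN p hp0 hp1) σ₁ σ₂ (q.length + 1) 0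
        (fun l a hl => follow_prob_ge _ _ _ _ (by simpa using hl)) (fun l a _ => rfl) s _ _
        (by simp) (by simp)]
      have h5 : (q ++ [c]).reverse = c :: q.reverse := by simp
      rw [h5]
      apply miss_AW_eq_qs
      · simpa using hq
      · rw [hl']; simpa using hq
      · intro h6
        apply hb
        rw [Equiv.Perm.mul_apply, h6]; simp
  simp only [h1]
  rw [sum_perm_const]

/-- Two followers, at most `q.length` days. -/
theorem D_follow_follow_le (S : Strategy n) (q q' : List (Fin n)) (hqq : q.length = q'.length)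
    (t : ℕ) (ht : t ≤ q.length) :
    D (follow q S).path (follow q' S).path t =
      (∑ τ : Perm (Fin n), nm ((q.take t).map τ) (q'.take t)) / (n.factorial : ℝ) := by
  rw [D_path, ← sum_perm_div (fun τ => nm ((q.take t).map τ) (q'.take t))]
  congr 1
  refine Finset.sum_congr rfl fun σ₁ _ => Finset.sum_congr rfl fun σ₂ _ => ?_
  have h1 := miss_follow_follow S σ₁ σ₂ 0 (q.take t) (q.drop t) (q'.take t) (q'.drop t)
    (by simp; omega)
  simp only [List.take_append_drop, add_zero, List.length_take, min_eq_left ht, miss,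
    mul_one] at h1
  exact h1

/-- Two followers, more than `q.length` days. -/
theorem D_follow_follow_ge (hN : 2 ≤ N + 1) (p : ℝ) (hp0 : 0 ≤ p) (hp1 : p ≤ 1)
    (q q' : List (Fin (N + 1))) (c c' : Fin (N + 1)) (hq : q.length % N = 0)
    (hqq : q.length = q'.length) (s : ℕ) :
    D (follow (q ++ [c]) (AW (N + 1) hN p hp0 hp1)).path
      (follow (q' ++ [c']) (AW (N + 1) hN p hp0 hp1)).path (q.length + 1 + s) =
      qs hN p hp0 hp1 s *
      ((∑ τ : Perm (Fin (N + 1)), nm ((q ++ [c]).map τ) (q' ++ [c'])) /
        ((N + 1).factorial : ℝ)) := by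
  rw [D_path, ← sum_perm_div (fun τ => nm ((q ++ [c]).map τ) (q' ++ [c'])), ← mul_div_assoc,
    Finset.mul_sum]
  congr 1
  refine Finset.sum_congr rfl fun σ₁ _ => ?_
  rw [Finset.mul_sum]
  refine Finset.sum_congr rfl fun σ₂ _ => ?_
  have h1 := miss_follow_follow (AW (N + 1) hN p hp0 hp1) σ₁ σ₂ s (q ++ [c]) [] (q' ++ [c']) []
    (by simp [hqq])
  simp only [List.append_nil, List.length_append, List.length_cons, List.length_nil,
    zero_add] at h1
  rw [h1]
  have h3 : (q ++ [c]).map (σ₂⁻¹ * σ₁) = q.map (σ₂⁻¹ * σ₁) ++ [(σ₂⁻¹ * σ₁) c] := by simp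
  rw [h3, nm_append _ _ _ _ (by simpa using hqq)]
  by_cases h4 : c' = (σ₂⁻¹ * σ₁) c
  · simp [nm, h4]
  · rw [miss_congr _ _ (AW (N + 1) hN p hp0 hp1) (AW (N + 1) hN p hp0 hp1) σ₁ σ₂ (q.length + 1)
      (q.length + 1)
      (fun l a hl => follow_prob_ge _ _ _ _ (by simpa using hl))
      (fun l a hl => follow_prob_ge _ _ _ _ (by simp; omega)) s _ _
      (by simp) (by simp [hqq])]
    have h5 : (q ++ [c]).reverse = c :: q.reverse := by simp
    have h6 : (q' ++ [c']).reverse = c' :: q'.reverse := by simp
    rw [h5, h6, miss_AW_eq_qs]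
    · ring
    · simpa using hq
    · rw [List.length_reverse, ← hqq]; exact hq
    · intro h7
      apply h4
      rw [Equiv.Perm.mul_apply, h7]; simp

theorem prob_le_one (S : Strategy n) (l : List (Fin n)) (a : Fin n) : S.prob l a ≤ 1 := by
  rw [← S.sum_eq_one l]
  exact Finset.single_le_sum (fun b _ => S.nonneg l b) (Finset.mem_univ a)

theorem path_append_le (S : Strategy n) (v l : List (Fin n)) : S.path (v ++ l) ≤ S.path l := by
  induction v with
  | nil => simp
  | cons a v ih =>
    simp only [List.cons_append, Strategy.path]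
    calc S.path (v ++ l) * S.prob (v ++ l) a ≤ S.path (v ++ l) * 1 :=
          mul_le_mul_of_nonneg_left (prob_le_one S _ _) (S.path_nonneg _)
      _ ≤ S.path l := by rw [mul_one]; exact ih

theorem follow_path_le (q : List (Fin n)) (S : Strategy n) (l : List (Fin n))
    (hl : l.length ≤ q.length) :
    (follow q S).path l = if l = (q.take l.length).reverse then 1 else 0 := by
  induction l with
  | nil => simp [Strategy.path]
  | cons a l ih =>
    simp only [List.length_cons] at hl
    simp only [Strategy.path, ih (by omega), List.length_cons]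
    have hlt : l.length < q.length := by omega
    simp only [follow, dif_pos hlt]
    have h4 : (q.take (l.length + 1)).reverse = q[l.length] :: (q.take l.length).reverse := by
      rw [List.take_succ_eq_append_getElem hlt, List.reverse_append, List.reverse_singleton,
        List.singleton_append]
    by_cases h1 : l = (q.take l.length).reverse
    · rw [if_pos h1, one_mul]
      by_cases h2 : a = q[l.length]
      · rw [if_pos h2, if_pos]
        rw [h4, ← h1, h2]
      · rw [if_neg h2, if_neg]
        intro h3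
        rw [h4] at h3
        exact h2 (List.cons.inj h3).1
    · rw [if_neg h1, zero_mul, if_neg]
      intro h3
      rw [h4] at h3
      exact h1 (List.cons.inj h3).2

theorem follow_dom (q : List (Fin n)) (S : Strategy n) (l : List (Fin n)) :
    S.path q.reverse * (follow q S).path l ≤ S.path l := by
  induction l with
  | nil =>
    rw [follow_path_le q S [] (by simp)]
    simp only [List.length_nil, List.take_zero, List.reverse_nil, if_true, mul_one]
    have := path_append_le S q.reverse []
    simpa using this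
  | cons a l ih =>
    by_cases hl : (a :: l).length ≤ q.length
    · rw [follow_path_le q S _ hl]
      split_ifs with h
      · rw [mul_one, h]
        have h1 : q.reverse = (q.drop (a :: l).length).reverse ++
            (q.take (a :: l).length).reverse := by
          rw [← List.reverse_append, List.take_append_drop]
        rw [h1]
        exact path_append_le S _ _
      · rw [mul_zero]; exact S.path_nonneg _
    · simp only [Strategy.path]
      simp only [List.length_cons, not_le] at hl
      rw [follow_prob_ge q S a l (by omega), ← mul_assoc]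
      exact mul_le_mul_of_nonneg_right ih (S.nonneg _ _)

/-! ### Positivity along tours -/

theorem seg_reverse_hist (e : Perm (Fin (N + 1))) (j : ℕ) :
    (seg e 0 j).reverse ++ [e 0] = hist e j := by
  have seg_snoc : ∀ (k i : ℕ), seg e i (k + 1) = seg e i k ++ [e (ix N (i + k + 1))] := by
    intro k
    induction k with
    | zero => intro i; simp [seg]
    | succ k ih =>
      intro i
      rw [seg, ih (i + 1)]
      rw [show i + 1 + k + 1 = i + (k + 1) + 1 by ring]
      simp [seg]
  induction j with
  | zero => simp [seg, hist]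
  | succ j ih =>
    rw [seg_snoc j 0, List.reverse_append, List.reverse_singleton, List.singleton_append,
      List.cons_append, ih, hist, zero_add]

theorem path_seg_pos (hN : 2 ≤ N) (p : ℝ) (hp0 : 0 ≤ p) (hp1 : p ≤ 1) (hp : 0 < p)
    (e : Perm (Fin (N + 1))) (l' : List (Fin (N + 1))) (hl : l'.length % N = 0)
    (hpos : 0 < (AW (N + 1) (by omega) p hp0 hp1).path (e 0 :: l')) (j : ℕ) (hj : j ≤ N) :
    0 < (AW (N + 1) (by omega) p hp0 hp1).path ((seg e 0 j).reverse ++ e 0 :: l') := by
  have seg_snoc : ∀ (k i : ℕ), seg e i (k + 1) = seg e i k ++ [e (ix N (i + k + 1))] := by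
    intro k
    induction k with
    | zero => intro i; simp [seg]
    | succ k ih =>
      intro i
      rw [seg, ih (i + 1)]
      rw [show i + 1 + k + 1 = i + (k + 1) + 1 by ring]
      simp [seg]
  induction j with
  | zero => simpa [seg] using hpos
  | succ j ih =>
    rw [seg_snoc j 0, List.reverse_append, List.reverse_singleton, List.singleton_append,
      List.cons_append, zero_add]
    simp only [Strategy.path]
    apply mul_pos (ih (by omega))
    simp only [AW]
    rw [awProb_trunc N p _ _ _ hl, seg_reverse_hist]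
    have hN0 : (0 : ℝ) < N := by positivity
    cases j with
    | zero =>
      simp only [hist, zero_add]
      rw [awProb_start, if_neg]
      · positivity
      · intro h
        have h1 := congrArg Fin.val (e.injective h)
        rw [ix_val (by omega)] at h1
        simp at h1
    | succ j =>
      rw [awProb_tour N p e _ (j + 1) (by omega) (by omega), if_neg]
      · have h2 : ((j + 1 : ℕ) : ℝ) < (N : ℝ) := by exact_mod_cast (by omega : j + 1 < N)
        apply div_pos one_pos
        linarith
      · rw [mem_hist _ _ _ (by omega), Equiv.symm_apply_apply, ix_val (by omega)]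
        omega

end Pool.Agent.Rdv
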