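import Pool.Agent.Lib.Rdv.Count

namespace Pool.Agent.Rdv

open Equiv

variable {N : ℕ}

/-- The orders of the first sum. -/
def rl {n : ℕ} (x y w : Fin n) : Fin 2 → List (Fin n) := ![[x, y, w], [y, x, w]]

/-- The signs of the first sum. -/
def fs : Fin 2 → ℝ := ![1, -1]

def Apart (N : ℕ) : List (Fin (N + 1)) := ix N 0 :: seg 1 0 N

/-- `i ↦ i - 1` -/
def Rp (N : ℕ) : Perm (Fin (N + 1)) := (finRotate (N + 1))⁻¹

/-- `i ↦ i - 1`, then exchange the last two -/
def Sp (N : ℕ) : Perm (Fin (N + 1)) := Equiv.swap (ix N (N - 1)) (ix N N) * Rp N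

def Bpart (N : ℕ) : List (Fin (N + 1)) := seg (Rp N) 3 (N - 3)

def Cpart (N : ℕ) : List (Fin (N + 1)) := seg (Sp N) 3 (N - 3)

/-- The eight label sequences that get more or less weight. -/
def qp (N : ℕ) (ik : Fin 2 × Fin 4) : List (Fin (N + 1)) :=
  Apart N ++ ((rl (ix N 0) (ix N 1) (ix N 2) ik.1 ++ Bpart N) ++
    (kl (ix N 0) (ix N 1) (ix N 2) ik.2 ++ Cpart N))

theorem rl_length {n : ℕ} (x y w : Fin n) (i : Fin 2) : (rl x y w i).length = 3 := by
  fin_cases i <;> rfl

theorem kl_length {n : ℕ} (x y w : Fin n) (k : Fin 4) : (kl x y w k).length = 3 := by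
  fin_cases k <;> rfl

theorem Apart_length : (Apart N).length = N + 1 := by simp [Apart, seg_length]

theorem Bpart_length : (Bpart N).length = N - 3 := by simp [Bpart, seg_length]

theorem Cpart_length : (Cpart N).length = N - 3 := by simp [Cpart, seg_length]

theorem nm_self {n : ℕ} (τ : Perm (Fin n)) (h : ∀ i, τ i ≠ i) (l : List (Fin n)) :
    nm (l.map τ) l = 1 := by
  induction l with
  | nil => simp [nm]
  | cons a l ih => simp [nm, (h a).symm, ih]

theorem nm_Apart (τ : Perm (Fin (N + 1))) :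
    nm ((Apart N).map τ) (Apart N) = if (∀ i, τ i ≠ i) then 1 else 0 := by
  split_ifs with h
  · exact nm_self τ h _
  · push Not at h
    obtain ⟨i, hi⟩ := h
    have hmem : i ∈ Apart N := by
      simp only [Apart, List.mem_cons]
      rw [mem_seg _ _ _ (by omega)]
      by_cases h0 : i.val = 0
      · left; rw [← h0, ix_eq]
      · right
        have := i.isLt
        have h1 : (Equiv.symm (1 : Perm (Fin (N + 1)))) i = i := rfl
        rw [h1]
        omega
    have gen : ∀ l : List (Fin (N + 1)), i ∈ l → nm (l.map τ) l = 0 := by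
      intro l
      induction l with
      | nil => intro h; simp at h
      | cons a l ih =>
        intro h
        simp only [List.map_cons, nm]
        split_ifs with h2
        · rfl
        · rcases List.mem_cons.mp h with h3 | h3
          · exact absurd (by rw [← h3, hi]) h2
          · exact ih h3
    exact gen _ hmem

theorem Phi_eq {n : ℕ} (τ : Perm (Fin n)) (x y w : Fin n) :
    ∑ i, ∑ i', fs i * fs i' * nm ((rl x y w i).map τ) (rl x y w i') = Phi τ x y w := by
  simp only [Fin.sum_univ_two, fs, rl, Phi]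
  simp
  ring

/-- The quadratic form at a fixed relative labelling. -/
noncomputable def W (N t : ℕ) (τ : Perm (Fin (N + 1))) : ℝ :=
  ∑ i : Fin 2 × Fin 4, ∑ j : Fin 2 × Fin 4, (fs i.1 * gs i.2) * (fs j.1 * gs j.2) *
    nm (((qp N i).take t).map τ) ((qp N j).take t)

theorem sum_prod_form (X : Fin 2 → Fin 2 → ℝ) (Y : Fin 4 → Fin 4 → ℝ) :
    ∑ i : Fin 2 × Fin 4, ∑ j : Fin 2 × Fin 4, (fs i.1 * gs i.2) * (fs j.1 * gs j.2) *
      (X i.1 j.1 * Y i.2 j.2) =
    (∑ i, ∑ i', fs i * fs i' * X i i') * (∑ k, ∑ k', gs k * gs k' * Y k k') := by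
  simp only [Fintype.sum_prod_type, Fin.sum_univ_two, Fin.sum_univ_four]
  ring

theorem gs_sum : ∑ k, ∑ k', gs k * gs k' * (1 : ℝ) = 0 := by
  simp only [Fin.sum_univ_four, gs]
  simp

theorem W_early (τ : Perm (Fin (N + 1))) (t : ℕ) (ht : t ≤ N + 1) : W N t τ = 0 := by
  have h1 : ∀ i, (qp N i).take t = (Apart N).take t := by
    intro i
    rw [qp, List.take_append_of_le_length (by rw [Apart_length]; exact ht)]
  have h2 := sum_prod_form (fun _ _ => nm (((Apart N).take t).map τ) ((Apart N).take t))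
    (fun _ _ => 1)
  rw [gs_sum, mul_zero] at h2
  simp only [W, h1]
  simpa using h2

theorem W_mid (hN : 4 ≤ N) (τ : Perm (Fin (N + 1))) (m : ℕ) (hm : m ≤ N) :
    W N (N + 1 + m) τ = 0 := by
  have h1 : ∀ i, (qp N i).take (N + 1 + m) =
      Apart N ++ (rl (ix N 0) (ix N 1) (ix N 2) i.1 ++ Bpart N).take m := by
    intro i
    rw [qp, List.take_append, List.take_of_length_le (by rw [Apart_length]; omega),
      Apart_length, show N + 1 + m - (N + 1) = m by omega, List.take_append_of_le_length]
    rw [List.length_append, rl_length, Bpart_length]; omega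
  have h2 := sum_prod_form (fun i j => nm ((Apart N ++ (rl (ix N 0) (ix N 1) (ix N 2) i
    ++ Bpart N).take m).map τ) (Apart N ++ (rl (ix N 0) (ix N 1) (ix N 2) j ++ Bpart N).take m))
    (fun _ _ => 1)
  rw [gs_sum, mul_zero] at h2
  simp only [W, h1]
  simpa using h2

theorem W_late (hN : 4 ≤ N) (τ : Perm (Fin (N + 1))) (m : ℕ) :
    W N (2 * N + 1 + m) τ = (if (∀ i, τ i ≠ i) then 1 else 0) *
      Phi τ (ix N 0) (ix N 1) (ix N 2) * Gam τ (ix N 0) (ix N 1) (ix N 2) (min m 3) := by
  have h1 : ∀ i, (qp N i).take (2 * N + 1 + m) =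
      Apart N ++ (rl (ix N 0) (ix N 1) (ix N 2) i.1 ++ (Bpart N ++
        ((kl (ix N 0) (ix N 1) (ix N 2) i.2).take (min m 3) ++ (Cpart N).take (m - 3)))) := by
    intro i
    rw [qp, List.take_append, List.take_of_length_le (by rw [Apart_length]; omega),
      Apart_length, List.take_append, List.take_of_length_le (by
        rw [List.length_append, rl_length, Bpart_length]; omega),
      List.length_append, rl_length, Bpart_length,
      show 2 * N + 1 + m - (N + 1) - (3 + (N - 3)) = m by omega, List.take_append, kl_length]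
    have h2 : (kl (ix N 0) (ix N 1) (ix N 2) i.2).take m =
        (kl (ix N 0) (ix N 1) (ix N 2) i.2).take (min m 3) := by
      rcases le_total m 3 with h | h
      · rw [min_eq_left h]
      · rw [min_eq_right h, List.take_of_length_le (by rw [kl_length]; exact h),
          List.take_of_length_le (by rw [kl_length])]
    rw [h2]
    simp
  by_cases hd : ∀ i, τ i ≠ i
  · have h2 : ∀ i j, nm (((qp N i).take (2 * N + 1 + m)).map τ) ((qp N j).take (2 * N + 1 + m)) =
        nm ((rl (ix N 0) (ix N 1) (ix N 2) i.1).map τ) (rl (ix N 0) (ix N 1) (ix N 2) j.1) *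
        nm (((kl (ix N 0) (ix N 1) (ix N 2) i.2).take (min m 3)).map τ)
          ((kl (ix N 0) (ix N 1) (ix N 2) j.2).take (min m 3)) := by
      intro i j
      rw [h1, h1, List.map_append, List.map_append, List.map_append, List.map_append]
      rw [nm_append _ _ _ _ (by simp), nm_append _ _ _ _ (by simp [rl_length]),
        nm_append _ _ _ _ (by simp), nm_append _ _ _ _ (by simp [kl_length]),
        nm_self τ hd, nm_self τ hd, nm_self τ hd]
      ring
    simp only [W, h2]
    rw [sum_prod_form (fun i j => nm ((rl (ix N 0) (ix N 1) (ix N 2) i).map τ)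
      (rl (ix N 0) (ix N 1) (ix N 2) j)) (fun i j =>
        nm (((kl (ix N 0) (ix N 1) (ix N 2) i).take (min m 3)).map τ)
          ((kl (ix N 0) (ix N 1) (ix N 2) j).take (min m 3))), Phi_eq, if_pos hd, one_mul]
    rfl
  · rw [if_neg hd, zero_mul, zero_mul]
    have h2 : ∀ i j, nm (((qp N i).take (2 * N + 1 + m)).map τ)
        ((qp N j).take (2 * N + 1 + m)) = 0 := by
      intro i j
      rw [h1, h1, List.map_append, nm_append _ _ _ _ (by simp), nm_Apart, if_neg hd, zero_mul]
    simp only [W, h2, mul_zero, Finset.sum_const_zero]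

/-- Number of bad minus number of good derangements. -/
noncomputable def defect (N : ℕ) : ℝ :=
  ((Finset.univ.filter fun τ : Perm (Fin (N + 1)) =>
      (∀ i, τ i ≠ i) ∧ BadC τ (ix N 0) (ix N 1) (ix N 2)).card : ℝ) -
  ((Finset.univ.filter fun τ : Perm (Fin (N + 1)) =>
      (∀ i, τ i ≠ i) ∧ GoodC τ (ix N 0) (ix N 1) (ix N 2)).card : ℝ)

theorem defect_neg (hN : 4 ≤ N) : defect N < 0 := by
  have := bad_lt_good hN
  unfold defect
  have h : (((Finset.univ.filter fun τ : Perm (Fin (N + 1)) =>
      (∀ i, τ i ≠ i) ∧ BadC τ (ix N 0) (ix N 1) (ix N 2)).card : ℕ) : ℝ) <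
      (((Finset.univ.filter fun τ : Perm (Fin (N + 1)) =>
      (∀ i, τ i ≠ i) ∧ GoodC τ (ix N 0) (ix N 1) (ix N 2)).card : ℕ) : ℝ) := by
    exact_mod_cast this
  linarith

/-- The coefficient on day `m` of the third block. -/
noncomputable def cm (m : ℕ) : ℝ := if m ≤ 1 then 0 else if m = 2 then 2 else 4

theorem sum_W_late (hN : 4 ≤ N) (m : ℕ) :
    ∑ τ : Perm (Fin (N + 1)), W N (2 * N + 1 + m) τ = cm m * defect N := by
  have h01 : ix N 0 ≠ ix N 1 := ix_inj (by omega) (by omega) (by omega)
  have h02 : ix N 0 ≠ ix N 2 := ix_inj (by omega) (by omega) (by omega)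
  have h12 : ix N 1 ≠ ix N 2 := ix_inj (by omega) (by omega) (by omega)
  have key : ∀ τ : Perm (Fin (N + 1)), W N (2 * N + 1 + m) τ = cm m *
      ((if (∀ i, τ i ≠ i) ∧ BadC τ (ix N 0) (ix N 1) (ix N 2) then 1 else 0) -
      (if (∀ i, τ i ≠ i) ∧ GoodC τ (ix N 0) (ix N 1) (ix N 2) then 1 else 0)) := by
    intro τ
    rw [W_late hN τ m]
    by_cases hd : ∀ i, τ i ≠ i
    · obtain ⟨t2, t3⟩ := table τ (ix N 0) (ix N 1) (ix N 2) h01 h02 h12 (hd _) (hd _) (hd _)
      rw [if_pos hd, one_mul]
      simp only [and_iff_right hd]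
      unfold cm
      rcases Nat.lt_or_ge m 2 with h | h
      · interval_cases m
        · simp [Gam_zero]
        · simp [Gam_one]
      · rcases Nat.lt_or_ge m 3 with h3 | h3
        · interval_cases m
          simp [t2]
        · have e1 : ¬ m ≤ 1 := by omega
          have e2 : ¬ m = 2 := by omega
          rw [min_eq_right h3, t3]
          simp only [e1, e2, if_false]
    · rw [if_neg hd]
      simp [hd]
  rw [Finset.sum_congr rfl fun τ _ => key τ, ← Finset.mul_sum, Finset.sum_sub_distrib]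
  simp only [Finset.sum_boole, defect]

end Pool.Agent.Rdv
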