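import Pool.Agent.Lib.Rdv.Bonf

/-!
# The pointwise lower bound for the avoidance probability of two label sequences
-/

namespace Pool.Agent.Rdv

open Equiv

variable {n t : ℕ}

/-- Ordered pairs of different days on which both sequences repeat their label. -/
noncomputable def Qo (x y : Fin t → Fin n) : ℝ :=
  ∑ s, ∑ s', if s ≠ s' ∧ (x s = x s' ∧ y s = y s') then 1 else 0

/-- Ordered pairs of days on which both sequences change their label. -/
noncomputable def Do (x y : Fin t → Fin n) : ℝ :=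
  ∑ s, ∑ s', if (x s ≠ x s' ∧ y s ≠ y s') then 1 else 0

/-- The set of cells of two sequences. -/
def cells (x y : Fin t → Fin n) : Finset (Fin n × Fin n) :=
  Finset.univ.image fun s => (x s, y s)

theorem pointwise_algebra (N t D Q Δ P S β : ℝ) (hN : 0 < N) (ht : 1 ≤ t) (hD1 : 1 ≤ D)
    (hDt : D ≤ t) (hβ0 : 0 ≤ β) (hβ1 : β * (N * t) ≤ 1)
    (hQ : Q = S - t) (hQle : Q ≤ (t - D) * (t - D + 1))
    (hΔ : Δ - P ≤ (t ^ 2 - S) - (D ^ 2 - D)) :
    1 - t / N + Q / (N * t) + β / 2 * Δ ≤ 1 - D / N + β / 2 * P := by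
  have ht0 : 0 < t := by linarith
  have hNt : 0 < N * t := by positivity
  -- multiply by `N t`
  have key : -(t * t) + Q + (N * t) * (β / 2) * Δ ≤ -(D * t) + (N * t) * (β / 2) * P := by
    set γ := (N * t) * β with hγ
    have hγ0 : 0 ≤ γ := by positivity
    have hγ1 : γ ≤ 1 := by rw [hγ]; linarith
    have e1 : (N * t) * (β / 2) * Δ = γ / 2 * Δ := by rw [hγ]; ring
    have e2 : (N * t) * (β / 2) * P = γ / 2 * P := by rw [hγ]; ring
    rw [e1, e2]
    set ω := t - D with hω
    have hω0 : 0 ≤ ω := by linarith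
    have h1 : γ / 2 * (Δ - P) ≤ γ / 2 * ((t ^ 2 - S) - (D ^ 2 - D)) :=
      mul_le_mul_of_nonneg_left hΔ (by linarith)
    have h2 : (t ^ 2 - S) - (D ^ 2 - D) = 2 * t * ω - ω ^ 2 - ω - Q := by
      rw [hQ, hω]; ring
    rw [h2] at h1
    have h3 : (1 - γ / 2) * Q ≤ (1 - γ / 2) * (ω * (ω + 1)) :=
      mul_le_mul_of_nonneg_left hQle (by linarith)
    have h4 : 0 ≤ ω * (D - 1) * (1 - γ) :=
      mul_nonneg (mul_nonneg hω0 (by linarith)) (by linarith)
    have h5 : D = t - ω := by rw [hω]; ring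
    rw [h5] at h4 ⊢
    nlinarith
  have h6 : 1 - t / N + Q / (N * t) + β / 2 * Δ =
      1 + (-(t * t) + Q + (N * t) * (β / 2) * Δ) / (N * t) := by
    field_simp; ring
  have h7 : 1 - D / N + β / 2 * P = 1 + (-(D * t) + (N * t) * (β / 2) * P) / (N * t) := by
    field_simp; ring
  rw [h6, h7]
  have := div_le_div_of_nonneg_right key hNt.le
  linarith

theorem pointwise (hn : 3 ≤ n) (ht : 1 ≤ t) (x y : Fin t → Fin n) (β : ℝ) (hβ0 : 0 ≤ β)
    (hβ1 : β * ((n : ℝ) * t) ≤ 1)
    (hβ2 : β * (n * ((n : ℝ) - 1)) ≤ 1 - ((t : ℝ) - 2) / (3 * ((n : ℝ) - 2))) :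
    1 - (t : ℝ) / n + Qo x y / (n * t) + β / 2 * Do x y ≤ avE (cells x y) := by
  classical
  have hn2 : (3 : ℝ) ≤ n := by exact_mod_cast hn
  have hn0 : (0 : ℝ) < n := by positivity
  have hn1 : (0 : ℝ) < (n : ℝ) - 1 := by linarith
  have hn3 : (0 : ℝ) < (n : ℝ) - 2 := by linarith
  have ht1 : (1 : ℝ) ≤ t := by exact_mod_cast ht
  set E := cells x y with hE
  set w : Fin t → Fin n × Fin n := fun s => (x s, y s) with hw
  set m : Fin n × Fin n → ℝ := fun e => ((Finset.univ.filter fun s => w s = e).card : ℝ) with hm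
  have hmem : ∀ s, w s ∈ E := fun s => Finset.mem_image_of_mem _ (Finset.mem_univ s)
  have hm1 : ∀ e ∈ E, 1 ≤ m e := by
    intro e he
    obtain ⟨s, -, hs⟩ := Finset.mem_image.mp he
    have : 0 < (Finset.univ.filter fun s => w s = e).card :=
      Finset.card_pos.mpr ⟨s, by simp [hw, hs]⟩
    simp only [hm]
    exact_mod_cast this
  have hcomp : ∀ f : Fin n × Fin n → ℝ, ∑ s, f (w s) = ∑ e ∈ E, m e * f e := by
    intro f
    have := Finset.sum_comp (s := (Finset.univ : Finset (Fin t))) f w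
    rw [this]
    refine Finset.sum_congr rfl fun e _ => ?_
    rw [nsmul_eq_mul]
  have hsumt : ∑ e ∈ E, m e = t := by
    have := hcomp (fun _ => 1)
    simpa using this.symm
  have hcard : (E.card : ℝ) = ∑ _e ∈ E, (1 : ℝ) := by simp
  -- Δ
  have hΔ : Do x y = ∑ e ∈ E, ∑ e' ∈ E, m e * m e' * (if compat e e' then 1 else 0) := by
    have h1 : Do x y = ∑ s, ∑ s', if compat (w s) (w s') then (1 : ℝ) else 0 := rfl
    rw [h1, hcomp (fun e => ∑ s', if compat e (w s') then (1 : ℝ) else 0)]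
    refine Finset.sum_congr rfl fun e _ => ?_
    rw [hcomp (fun e' => if compat e e' then (1 : ℝ) else 0), Finset.mul_sum]
    refine Finset.sum_congr rfl fun e' _ => by ring
  set S := ∑ e ∈ E, m e * m e with hS
  -- Q
  have hQ : Qo x y = S - t := by
    have h1 : Qo x y + t = ∑ s, ∑ s', if w s = w s' then (1 : ℝ) else 0 := by
      unfold Qo
      have h2 : (t : ℝ) = ∑ s : Fin t, ∑ s' : Fin t, if s = s' then (1 : ℝ) else 0 := by simp
      rw [h2, ← Finset.sum_add_distrib]
      refine Finset.sum_congr rfl fun s _ => ?_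
      rw [← Finset.sum_add_distrib]
      refine Finset.sum_congr rfl fun s' _ => ?_
      simp only [hw, Prod.mk.injEq]
      by_cases h3 : s = s'
      · subst h3; simp
      · simp [h3]
    have h2 : ∑ s, ∑ s', (if w s = w s' then (1 : ℝ) else 0) = S := by
      have h3 : ∀ s, ∑ s', (if w s = w s' then (1 : ℝ) else 0) = m (w s) := by
        intro s
        simp only [hm, Finset.sum_boole]
        congr 2
        ext s'
        simp [eq_comm]
      simp only [h3]
      rw [hcomp m]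
    linarith
  -- number of distinct cells
  have hDt : (E.card : ℝ) ≤ t := by
    rw [hcard, ← hsumt]
    exact Finset.sum_le_sum fun e he => hm1 e he
  have hD1 : (1 : ℝ) ≤ E.card := by
    have : 0 < E.card := Finset.card_pos.mpr ⟨w ⟨0, by omega⟩, hmem _⟩
    exact_mod_cast this
  have hω : ∑ e ∈ E, (m e - 1) = t - E.card := by
    rw [Finset.sum_sub_distrib, hsumt, ← hcard]
  have hQle : Qo x y ≤ (t - E.card) * (t - E.card + 1) := by
    have h1 : Qo x y = ∑ e ∈ E, (m e - 1) * m e := by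
      rw [hQ, hS, ← hsumt, ← Finset.sum_sub_distrib]
      refine Finset.sum_congr rfl fun e _ => by ring
    rw [h1]
    calc ∑ e ∈ E, (m e - 1) * m e ≤ ∑ e ∈ E, (m e - 1) * (t - E.card + 1) := by
          refine Finset.sum_le_sum fun e he => ?_
          apply mul_le_mul_of_nonneg_left _ (by linarith [hm1 e he])
          have h2 : m e - 1 ≤ ∑ e' ∈ E, (m e' - 1) :=
            Finset.single_le_sum (f := fun e' => m e' - 1)
              (fun e' he' => sub_nonneg.mpr (hm1 e' he')) he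
          rw [hω] at h2
          linarith
      _ = (t - E.card) * (t - E.card + 1) := by rw [← Finset.sum_mul, hω]
  have hΔP : Do x y - P2o E ≤ ((t : ℝ) ^ 2 - S) - ((E.card : ℝ) ^ 2 - E.card) := by
    have h1 : Do x y - P2o E = ∑ e ∈ E, ∑ e' ∈ E, (m e * m e' - 1) *
        (if compat e e' then 1 else 0) := by
      rw [hΔ, P2o, ← Finset.sum_sub_distrib]
      refine Finset.sum_congr rfl fun e _ => ?_
      rw [← Finset.sum_sub_distrib]
      refine Finset.sum_congr rfl fun e' _ => by ring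
    have h2 : ((t : ℝ) ^ 2 - S) - ((E.card : ℝ) ^ 2 - E.card) = ∑ e ∈ E, ∑ e' ∈ E,
        (m e * m e' - 1) * (if e ≠ e' then 1 else 0) := by
      have h3 : ∀ e ∈ E, ∑ e' ∈ E, (m e * m e' - 1) * (if e ≠ e' then (1 : ℝ) else 0) =
          m e * t - E.card - (m e * m e - 1) := by
        intro e he
        have h4 : ∀ e' ∈ E, (m e * m e' - 1) * (if e ≠ e' then (1 : ℝ) else 0) =
            (m e * m e' - 1) - (if e = e' then m e * m e' - 1 else 0) := by
          intro e' _
          by_cases h5 : e = e'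
          · simp [h5]
          · simp [h5]
        rw [Finset.sum_congr rfl h4, Finset.sum_sub_distrib, Finset.sum_sub_distrib,
          ← Finset.mul_sum, hsumt, ← hcard, Finset.sum_ite_eq, if_pos he]
      rw [Finset.sum_congr rfl h3, Finset.sum_sub_distrib, Finset.sum_sub_distrib,
        Finset.sum_sub_distrib, ← Finset.sum_mul, hsumt, Finset.sum_const, nsmul_eq_mul,
        ← hcard]
      ring
    rw [h1, h2]
    refine Finset.sum_le_sum fun e he => Finset.sum_le_sum fun e' he' => ?_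
    have h3 : 0 ≤ m e * m e' - 1 := by
      have := mul_le_mul (hm1 e he) (hm1 e' he') zero_le_one (by linarith [hm1 e he])
      linarith
    apply mul_le_mul_of_nonneg_left _ h3
    by_cases hc : compat e e'
    · have : e ≠ e' := fun h => hc.1 (by rw [h])
      simp [hc, this]
    · rw [if_neg hc]; split_ifs <;> norm_num
  have h1 := pointwise_algebra n t E.card (Qo x y) (Do x y) (P2o E) S β hn0 ht1 hD1 hDt hβ0 hβ1
    hQ hQle hΔP
  refine h1.trans (le_trans ?_ (bonf_avE hn E))
  have hP0 : 0 ≤ P2o E := by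
    unfold P2o
    refine Finset.sum_nonneg fun e _ => Finset.sum_nonneg fun e' _ => ?_
    split_ifs <;> norm_num
  have h2 : β * (n * ((n : ℝ) - 1)) ≤ 1 - ((E.card : ℝ) - 2) / (3 * ((n : ℝ) - 2)) := by
    refine hβ2.trans ?_
    have : ((E.card : ℝ) - 2) / (3 * ((n : ℝ) - 2)) ≤ ((t : ℝ) - 2) / (3 * ((n : ℝ) - 2)) :=
      div_le_div_of_nonneg_right (by linarith) (by positivity)
    linarith
  have h3 : β / 2 * P2o E ≤ P2o E / (2 * (n * ((n : ℝ) - 1))) -
      P2o E * ((E.card : ℝ) - 2) / (6 * (n * ((n : ℝ) - 1) * ((n : ℝ) - 2))) := by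
    have h4 : P2o E / (2 * (n * ((n : ℝ) - 1))) -
      P2o E * ((E.card : ℝ) - 2) / (6 * (n * ((n : ℝ) - 1) * ((n : ℝ) - 2))) =
      (P2o E / 2) * ((1 - ((E.card : ℝ) - 2) / (3 * ((n : ℝ) - 2))) / (n * ((n : ℝ) - 1))) := by
      field_simp
      ring
    rw [h4]
    have h5 : β ≤ (1 - ((E.card : ℝ) - 2) / (3 * ((n : ℝ) - 2))) / (n * ((n : ℝ) - 1)) := by
      rw [le_div_iff₀ (by positivity)]
      exact h2
    have h6 : β / 2 * P2o E = (P2o E / 2) * β := by ring
    rw [h6]
    exact mul_le_mul_of_nonneg_left h5 (by linarith)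
  linarith

end Pool.Agent.Rdv
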