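import Pool.Agent.Lib.Rdv.Pair
import Pool.Agent.Lib.Rdv.Point

/-!
# A lower bound for `P(T > t)` under every symmetric strategy
-/

namespace Pool.Agent.Rdv

open Equiv

variable {n : ℕ}

theorem bil_eq_sum (u v : List (Fin n) → ℝ) (σ₁ σ₂ : Perm (Fin n)) (t : ℕ) :
    ∀ l₁ l₂, bil u v σ₁ σ₂ t l₁ l₂ = ∑ x : Fin t → Fin n, ∑ y : Fin t → Fin n,
      if ∀ s, σ₁ (x s) ≠ σ₂ (y s) then
        u ((List.ofFn x).reverse ++ l₁) * v ((List.ofFn y).reverse ++ l₂) else 0 := by
  induction t with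
  | zero => intro l₁ l₂; simp [bil]
  | succ t ih =>
    intro l₁ l₂
    rw [← (Fin.consEquiv (fun _ : Fin (t + 1) => Fin n)).sum_comp, Fintype.sum_prod_type]
    simp only [bil]
    have h1 : ∀ (a : Fin n) (x : Fin t → Fin n),
        (∑ y : Fin (t + 1) → Fin n,
          if ∀ s, σ₁ ((Fin.consEquiv (fun _ : Fin (t + 1) => Fin n)) (a, x) s) ≠ σ₂ (y s) then
          u ((List.ofFn ((Fin.consEquiv (fun _ : Fin (t + 1) => Fin n)) (a, x))).reverse ++ l₁) *
            v ((List.ofFn y).reverse ++ l₂) else 0) =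
        ∑ b : Fin n, ∑ y : Fin t → Fin n, if σ₁ a = σ₂ b then 0 else
          if ∀ s, σ₁ (x s) ≠ σ₂ (y s) then
          u ((List.ofFn x).reverse ++ (a :: l₁)) * v ((List.ofFn y).reverse ++ (b :: l₂))
            else 0 := by
      intro a x
      rw [← (Fin.consEquiv (fun _ : Fin (t + 1) => Fin n)).sum_comp, Fintype.sum_prod_type]
      refine Finset.sum_congr rfl fun b _ => Finset.sum_congr rfl fun y _ => ?_
      simp only [Fin.consEquiv_apply, Fin.forall_fin_succ, Fin.cons_zero, Fin.cons_succ,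
        List.ofFn_succ, List.reverse_cons, List.append_assoc, List.singleton_append]
      by_cases h : σ₁ a = σ₂ b
      · simp [h]
      · simp [h]
    simp only [h1]
    refine Finset.sum_congr rfl fun a _ => ?_
    rw [Finset.sum_comm]
    refine Finset.sum_congr rfl fun b _ => ?_
    by_cases h : σ₁ a = σ₂ b
    · simp [h]
    · simp only [h, if_false]
      rw [ih]

/-- The probability of the label sequence `x`. -/
noncomputable def Strategy.wt (S : Strategy n) {t : ℕ} (x : Fin t → Fin n) : ℝ :=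
  S.path (List.ofFn x).reverse

theorem wt_nonneg (S : Strategy n) {t : ℕ} (x : Fin t → Fin n) : 0 ≤ S.wt x :=
  S.path_nonneg _

theorem wt_sum (S : Strategy n) (t : ℕ) : ∑ x : Fin t → Fin n, S.wt x = 1 := by
  have h : ∀ (t : ℕ) (l : List (Fin n)),
      ∑ x : Fin t → Fin n, S.path ((List.ofFn x).reverse ++ l) = S.path l := by
    intro t
    induction t with
    | zero => intro l; simp
    | succ t ih =>
      intro l
      rw [← (Fin.consEquiv (fun _ : Fin (t + 1) => Fin n)).sum_comp, Fintype.sum_prod_type]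
      simp only [Fin.consEquiv_apply, List.ofFn_succ, Fin.cons_zero, Fin.cons_succ,
        List.reverse_cons, List.append_assoc, List.singleton_append]
      simp only [ih]
      exact S.path_sum l
  have := h t []
  simpa [Strategy.wt, Strategy.path] using this

theorem survival_eq_avE (S : Strategy n) (t : ℕ) :
    S.survival t = ∑ x : Fin t → Fin n, ∑ y : Fin t → Fin n,
      S.wt x * S.wt y * avE (cells x y) := by
  rw [survival_eq_D]
  unfold D
  simp only [bil_eq_sum, List.append_nil]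
  have h1 : ∀ x y : Fin t → Fin n, avE (cells x y) =
      (∑ σ₁ : Perm (Fin n), ∑ σ₂ : Perm (Fin n),
        if ∀ s, σ₁ (x s) ≠ σ₂ (y s) then (1 : ℝ) else 0) / (n.factorial : ℝ) ^ 2 := by
    intro x y
    have h2 := sum_perm_div (fun τ : Perm (Fin n) => if ∀ s, τ (x s) ≠ y s then (1 : ℝ) else 0)
    have h3 : ∀ σ₁ σ₂ : Perm (Fin n), (∀ s, σ₁ (x s) ≠ σ₂ (y s)) ↔
        (∀ s, (σ₂⁻¹ * σ₁) (x s) ≠ y s) := by
      intro σ₁ σ₂
      refine forall_congr' fun s => not_congr ?_
      rw [Equiv.Perm.mul_apply]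
      constructor
      · intro h; rw [h]; simp
      · intro h; rw [← h]; simp
    simp only [h3]
    rw [h2]
    unfold avE
    congr 1
    refine Finset.sum_congr rfl fun τ _ => ?_
    congr 1
    simp only [cells, Finset.mem_image, Finset.mem_univ, true_and, forall_exists_index,
      forall_apply_eq_imp_iff]
  simp only [h1]
  have h4 : ∀ x y : Fin t → Fin n, S.wt x * S.wt y * ((∑ σ₁ : Perm (Fin n), ∑ σ₂ : Perm (Fin n),
        if ∀ s, σ₁ (x s) ≠ σ₂ (y s) then (1 : ℝ) else 0) / (n.factorial : ℝ) ^ 2) =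
      (∑ σ₁ : Perm (Fin n), ∑ σ₂ : Perm (Fin n),
        if ∀ s, σ₁ (x s) ≠ σ₂ (y s) then S.wt x * S.wt y else 0) / (n.factorial : ℝ) ^ 2 := by
    intro x y
    rw [← mul_div_assoc, Finset.mul_sum]
    congr 1
    refine Finset.sum_congr rfl fun σ₁ _ => ?_
    rw [Finset.mul_sum]
    refine Finset.sum_congr rfl fun σ₂ _ => ?_
    split_ifs <;> simp
  simp only [h4, ← Finset.sum_div]
  congr 1
  symm
  calc ∑ x : Fin t → Fin n, ∑ y : Fin t → Fin n, ∑ σ₁ : Perm (Fin n), ∑ σ₂ : Perm (Fin n),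
        (if ∀ s, σ₁ (x s) ≠ σ₂ (y s) then S.wt x * S.wt y else 0)
      = ∑ x : Fin t → Fin n, ∑ σ₁ : Perm (Fin n), ∑ y : Fin t → Fin n, ∑ σ₂ : Perm (Fin n),
        (if ∀ s, σ₁ (x s) ≠ σ₂ (y s) then S.wt x * S.wt y else 0) :=
        Finset.sum_congr rfl fun x _ => Finset.sum_comm
    _ = ∑ σ₁ : Perm (Fin n), ∑ x : Fin t → Fin n, ∑ y : Fin t → Fin n, ∑ σ₂ : Perm (Fin n),
        (if ∀ s, σ₁ (x s) ≠ σ₂ (y s) then S.wt x * S.wt y else 0) := Finset.sum_comm
    _ = ∑ σ₁ : Perm (Fin n), ∑ x : Fin t → Fin n, ∑ σ₂ : Perm (Fin n), ∑ y : Fin t → Fin n,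
        (if ∀ s, σ₁ (x s) ≠ σ₂ (y s) then S.wt x * S.wt y else 0) :=
        Finset.sum_congr rfl fun σ₁ _ => Finset.sum_congr rfl fun x _ => Finset.sum_comm
    _ = ∑ σ₁ : Perm (Fin n), ∑ σ₂ : Perm (Fin n), ∑ x : Fin t → Fin n, ∑ y : Fin t → Fin n,
        (if ∀ s, σ₁ (x s) ≠ σ₂ (y s) then S.wt x * S.wt y else 0) :=
        Finset.sum_congr rfl fun σ₁ _ => Finset.sum_comm
    _ = _ := rfl

/-- The probability that the labels of days `s` and `s'` agree. -/
noncomputable def Strategy.agree (S : Strategy n) {t : ℕ} (s s' : Fin t) : ℝ :=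
  ∑ x : Fin t → Fin n, S.wt x * (if x s = x s' then 1 else 0)

theorem exp_Qo (S : Strategy n) (t : ℕ) :
    ∑ x : Fin t → Fin n, ∑ y : Fin t → Fin n, S.wt x * S.wt y * Qo x y =
      ∑ s : Fin t, ∑ s' : Fin t, if s ≠ s' then (S.agree s s') ^ 2 else 0 := by
  have h1 : ∀ x y : Fin t → Fin n, S.wt x * S.wt y * Qo x y = ∑ s : Fin t, ∑ s' : Fin t,
      if s ≠ s' then (S.wt x * (if x s = x s' then 1 else 0)) *
        (S.wt y * (if y s = y s' then 1 else 0)) else 0 := by
    intro x y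
    unfold Qo
    rw [Finset.mul_sum]
    refine Finset.sum_congr rfl fun s _ => ?_
    rw [Finset.mul_sum]
    refine Finset.sum_congr rfl fun s' _ => ?_
    by_cases h : s = s'
    · simp [h]
    · by_cases h2 : x s = x s' <;> by_cases h3 : y s = y s' <;> simp [h, h2, h3]
  simp only [h1]
  calc ∑ x : Fin t → Fin n, ∑ y : Fin t → Fin n, ∑ s : Fin t, ∑ s' : Fin t,
        (if s ≠ s' then (S.wt x * (if x s = x s' then 1 else 0)) *
        (S.wt y * (if y s = y s' then 1 else 0)) else 0)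
      = ∑ s : Fin t, ∑ s' : Fin t, ∑ x : Fin t → Fin n, ∑ y : Fin t → Fin n,
        (if s ≠ s' then (S.wt x * (if x s = x s' then 1 else 0)) *
        (S.wt y * (if y s = y s' then 1 else 0)) else 0) := by
        rw [Finset.sum_congr rfl fun x _ => Finset.sum_comm, Finset.sum_comm]
        refine Finset.sum_congr rfl fun s _ => ?_
        rw [Finset.sum_congr rfl fun x _ => Finset.sum_comm, Finset.sum_comm]
    _ = _ := by
        refine Finset.sum_congr rfl fun s _ => Finset.sum_congr rfl fun s' _ => ?_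
        by_cases h : s = s'
        · simp [h]
        · simp only [ne_eq, h, not_false_eq_true, if_true, ← Finset.mul_sum, ← Finset.sum_mul]
          unfold Strategy.agree
          ring

theorem exp_Do (S : Strategy n) (t : ℕ) :
    ∑ x : Fin t → Fin n, ∑ y : Fin t → Fin n, S.wt x * S.wt y * Do x y =
      ∑ s : Fin t, ∑ s' : Fin t, if s ≠ s' then (1 - S.agree s s') ^ 2 else 0 := by
  have h1 : ∀ x y : Fin t → Fin n, S.wt x * S.wt y * Do x y = ∑ s : Fin t, ∑ s' : Fin t,
      if s ≠ s' then (S.wt x * (1 - if x s = x s' then 1 else 0)) *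
        (S.wt y * (1 - if y s = y s' then 1 else 0)) else 0 := by
    intro x y
    unfold Do
    rw [Finset.mul_sum]
    refine Finset.sum_congr rfl fun s _ => ?_
    rw [Finset.mul_sum]
    refine Finset.sum_congr rfl fun s' _ => ?_
    by_cases h : s = s'
    · simp [h]
    · by_cases h2 : x s = x s' <;> by_cases h3 : y s = y s' <;> simp [h, h2, h3]
  have h2 : ∀ s s' : Fin t, ∑ x : Fin t → Fin n, S.wt x * (1 - if x s = x s' then 1 else 0) =
      1 - S.agree s s' := by
    intro s s'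
    unfold Strategy.agree
    simp only [mul_sub, mul_one, Finset.sum_sub_distrib, wt_sum]
  simp only [h1]
  calc ∑ x : Fin t → Fin n, ∑ y : Fin t → Fin n, ∑ s : Fin t, ∑ s' : Fin t,
        (if s ≠ s' then (S.wt x * (1 - if x s = x s' then 1 else 0)) *
        (S.wt y * (1 - if y s = y s' then 1 else 0)) else 0)
      = ∑ s : Fin t, ∑ s' : Fin t, ∑ x : Fin t → Fin n, ∑ y : Fin t → Fin n,
        (if s ≠ s' then (S.wt x * (1 - if x s = x s' then 1 else 0)) *
        (S.wt y * (1 - if y s = y s' then 1 else 0)) else 0) := by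
        rw [Finset.sum_congr rfl fun x _ => Finset.sum_comm, Finset.sum_comm]
        refine Finset.sum_congr rfl fun s _ => ?_
        rw [Finset.sum_congr rfl fun x _ => Finset.sum_comm, Finset.sum_comm]
    _ = _ := by
        refine Finset.sum_congr rfl fun s _ => Finset.sum_congr rfl fun s' _ => ?_
        by_cases h : s = s'
        · simp [h]
        · simp only [ne_eq, h, not_false_eq_true, if_true, ← Finset.mul_sum, ← Finset.sum_mul, h2]
          ring

/-- The trade-off for one pair of days. -/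
theorem pair_tradeoff (a M β : ℝ) (hM : 0 < M) (hβ : 0 ≤ β) :
    β / 2 * (15 / 16 - 9 / 32 * (β * M)) ≤ a ^ 2 / M + β / 2 * (1 - a) ^ 2 := by
  set r := β * M / 2 with hr
  have hr0 : 0 ≤ r := by positivity
  have h1 : β / 2 = r / M := by rw [hr]; field_simp
  have h2 : β * M = 2 * r := by rw [hr]; ring
  rw [h1, h2]
  have h3 : r * (15 / 16 - 9 / 32 * (2 * r)) ≤ a ^ 2 + r * (1 - a) ^ 2 := by
    have h4 : 0 ≤ (1 + r) * (a ^ 2 + r * (1 - a) ^ 2 - r * (15 / 16 - 9 / 32 * (2 * r))) := by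
      have h5 : (1 + r) * (a ^ 2 + r * (1 - a) ^ 2 - r * (15 / 16 - 9 / 32 * (2 * r))) =
          ((1 + r) * a - r) ^ 2 + r * (3 * r - 1) ^ 2 / 16 := by ring
      rw [h5]; positivity
    have h6 : 0 < 1 + r := by linarith
    have h7 := nonneg_of_mul_nonneg_right h4 h6
    linarith
  have h8 : r / M * (15 / 16 - 9 / 32 * (2 * r)) = (r * (15 / 16 - 9 / 32 * (2 * r))) / M := by
    ring
  have h9 : a ^ 2 / M + r / M * (1 - a) ^ 2 = (a ^ 2 + r * (1 - a) ^ 2) / M := by ring
  rw [h8, h9]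
  exact div_le_div_of_nonneg_right h3 hM.le

/-- The lower bound for `P(T > t)`. -/
theorem survival_ge (hn : 3 ≤ n) (S : Strategy n) (t : ℕ) (ht : 1 ≤ t) (β : ℝ) (hβ0 : 0 ≤ β)
    (hβ1 : β * ((n : ℝ) * t) ≤ 1)
    (hβ2 : β * (n * ((n : ℝ) - 1)) ≤ 1 - ((t : ℝ) - 2) / (3 * ((n : ℝ) - 2))) :
    1 - (t : ℝ) / n + (t * ((t : ℝ) - 1)) * (β / 2 * (15 / 16 - 9 / 32 * (β * ((n : ℝ) * t)))) ≤
      S.survival t := by
  have hn0 : (0 : ℝ) < n := by positivity
  have ht0 : (0 : ℝ) < t := by positivity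
  rw [survival_eq_avE]
  have h1 : ∑ x : Fin t → Fin n, ∑ y : Fin t → Fin n, S.wt x * S.wt y *
      (1 - (t : ℝ) / n + Qo x y / (n * t) + β / 2 * Do x y) ≤
      ∑ x : Fin t → Fin n, ∑ y : Fin t → Fin n, S.wt x * S.wt y * avE (cells x y) := by
    refine Finset.sum_le_sum fun x _ => Finset.sum_le_sum fun y _ => ?_
    exact mul_le_mul_of_nonneg_left (pointwise hn ht x y β hβ0 hβ1 hβ2)
      (mul_nonneg (wt_nonneg S x) (wt_nonneg S y))
  refine le_trans ?_ h1
  have h2 : ∑ x : Fin t → Fin n, ∑ y : Fin t → Fin n, S.wt x * S.wt y *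
      (1 - (t : ℝ) / n + Qo x y / (n * t) + β / 2 * Do x y) = 1 - (t : ℝ) / n +
      (∑ x : Fin t → Fin n, ∑ y : Fin t → Fin n, S.wt x * S.wt y * Qo x y) / (n * t) +
      β / 2 * ∑ x : Fin t → Fin n, ∑ y : Fin t → Fin n, S.wt x * S.wt y * Do x y := by
    have h3 : ∀ x y : Fin t → Fin n, S.wt x * S.wt y *
        (1 - (t : ℝ) / n + Qo x y / (n * t) + β / 2 * Do x y) =
        S.wt x * S.wt y * (1 - (t : ℝ) / n) + S.wt x * S.wt y * Qo x y / (n * t) +
        β / 2 * (S.wt x * S.wt y * Do x y) := by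
      intro x y; ring
    simp only [h3, Finset.sum_add_distrib, ← Finset.sum_div, ← Finset.mul_sum, ← Finset.sum_mul,
      wt_sum]
    ring
  rw [h2, exp_Qo, exp_Do]
  have h4 : (∑ s : Fin t, ∑ s' : Fin t, if s ≠ s' then (S.agree s s') ^ 2 else 0) / (n * t) +
      β / 2 * (∑ s : Fin t, ∑ s' : Fin t, if s ≠ s' then (1 - S.agree s s') ^ 2 else 0) =
      ∑ s : Fin t, ∑ s' : Fin t, if s ≠ s' then
        ((S.agree s s') ^ 2 / ((n : ℝ) * t) + β / 2 * (1 - S.agree s s') ^ 2) else 0 := by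
    rw [Finset.sum_div, Finset.mul_sum, ← Finset.sum_add_distrib]
    refine Finset.sum_congr rfl fun s _ => ?_
    rw [Finset.sum_div, Finset.mul_sum, ← Finset.sum_add_distrib]
    refine Finset.sum_congr rfl fun s' _ => ?_
    split_ifs <;> simp
  have h5 : (t * ((t : ℝ) - 1)) * (β / 2 * (15 / 16 - 9 / 32 * (β * ((n : ℝ) * t)))) =
      ∑ s : Fin t, ∑ s' : Fin t, if s ≠ s' then
        (β / 2 * (15 / 16 - 9 / 32 * (β * ((n : ℝ) * t)))) else 0 := by
    have h6 : ∀ s : Fin t, (∑ s' : Fin t, if s ≠ s' then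
        (β / 2 * (15 / 16 - 9 / 32 * (β * ((n : ℝ) * t)))) else 0) =
        ((t : ℝ) - 1) * (β / 2 * (15 / 16 - 9 / 32 * (β * ((n : ℝ) * t)))) := by
      intro s
      rw [← Finset.sum_filter, Finset.sum_const, nsmul_eq_mul]
      congr 1
      have h7 : (Finset.univ.filter fun s' : Fin t => s ≠ s') = Finset.univ.erase s := by
        ext s'; simp [eq_comm]
      rw [h7, Finset.card_erase_of_mem (Finset.mem_univ s), Finset.card_univ, Fintype.card_fin,
        Nat.cast_sub ht]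
      simp
    simp only [h6, Finset.sum_const, Finset.card_univ, Fintype.card_fin, nsmul_eq_mul]
    ring
  rw [add_assoc, h4, h5]
  apply add_le_add le_rfl
  refine Finset.sum_le_sum fun s _ => Finset.sum_le_sum fun s' _ => ?_
  split_ifs
  · exact pair_tradeoff _ _ _ (by positivity) hβ0
  · exact le_rfl

end Pool.Agent.Rdv
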